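import Pool.Agent.W_7d29a1_SA.DefsA13
import Pool.Agent.W_7d29a1_S90.KrT28
import Pool.Agent.W_7d29a1_S90.VuT31

/-!
Theorem SUPA, one step: the change of the mean of a bounded function under a change of the tilt
(helper13).
-/

namespace Pool.Agent.W_7d29a1_SA

open MeasureTheory ProbabilityTheory Filter Topology Pool.Agent.W_MP_7d29a1_pr
  Pool.Agent.W_7d29a1_h46 Pool.Agent.W_7d29a1_h46u Pool.Agent.W_7d29a1_D2.B35
  Pool.Agent.W_7d29a1_Q29 Pool.Agent.W_7d29a1_S90

variable {d n : ℕ}

lemma exp_lip13 {x : ℝ} (hx : |x| ≤ 2) : (Real.exp x - 1) ^ 2 ≤ 11 * x ^ 2 := by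
  have he : Real.exp 2 ≤ 7.4 := by
    have h1 := Real.exp_one_lt_d9
    have h2 : Real.exp 2 = Real.exp 1 * Real.exp 1 := by
      rw [← Real.exp_add]
      norm_num
    have h3 := Real.exp_pos 1
    rw [h2]
    nlinarith
  rcases le_total 0 x with h | h
  · rw [abs_of_nonneg h] at hx
    have h1 := convexOn_exp.2 (Set.mem_univ (0 : ℝ)) (Set.mem_univ (2 : ℝ))
      (show (0 : ℝ) ≤ 1 - x / 2 by linarith) (show (0 : ℝ) ≤ x / 2 by linarith) (by ring)
    simp only [smul_eq_mul, mul_zero, zero_add, Real.exp_zero, mul_one] at h1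
    have h2 : x / 2 * 2 = x := by ring
    rw [h2] at h1
    have h3 : Real.exp x - 1 ≤ 3.2 * x := by nlinarith
    have h4 : 0 ≤ Real.exp x - 1 := by
      have := Real.one_le_exp h
      linarith
    nlinarith
  · rw [abs_of_nonpos h] at hx
    have h1 := Real.add_one_le_exp x
    have h2 : Real.exp x ≤ 1 := Real.exp_le_one_iff.2 h
    nlinarith

/-- Cauchy-Schwarz for the polymer measure. -/
lemma pe_cs13 (hd : 0 < d) (β : ℝ) (h : Vec d) (η : Env d) (u v : (Fin n → Step d) → ℝ) :
    pe β h η (fun s => u s * v s) ^ 2 ≤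
      pe β h η (fun s => u s ^ 2) * pe β h η (fun s => v s ^ 2) := by
  have h1 : ∀ x : ℝ, 0 ≤ pe β h η (fun s => u s ^ 2) * (x * x) +
      (2 * pe β h η (fun s => u s * v s)) * x + pe β h η (fun s => v s ^ 2) := by
    intro x
    have h2 : 0 ≤ pe β h η (fun s => (x * u s + v s) ^ 2) :=
      pe_nonneg73 hd β h η fun s => sq_nonneg _
    have h3 : (fun s : Fin n → Step d => (x * u s + v s) ^ 2) =
        fun s => (x ^ 2 * u s ^ 2 + 2 * x * (u s * v s)) + v s ^ 2 := by
      funext s
      ring
    rw [h3, pe_add73, pe_add73, pe_mul73, pe_mul73] at h2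
    linarith
  have h2 := discrim_le_zero h1
  unfold discrim at h2
  nlinarith

lemma pe_tilt13 (hd : 0 < d) (β : ℝ) (h D : Vec d) (η : Env d) (k : ℝ)
    (g : (Fin n → Step d) → ℝ) :
    pe β (h + D) η g = pe β h η (fun s => g s * Real.exp ((inner ℝ D (emb (pos s n)) - k) -
      (X β (h + D) η n - X β h η n - k))) := by
  have hZ := Z_pos hd β h η n
  have hZ' := Z_pos hd β (h + D) η n
  have h1 : Real.exp (X β (h + D) η n - X β h η n) = Z β (h + D) η n / Z β h η n := by
    unfold X
    rw [Real.exp_sub, Real.exp_log hZ', Real.exp_log hZ]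
  unfold pe
  have h2 : ∀ s : Fin n → Step d, wgt β h η s * (g s * Real.exp ((inner ℝ D (emb (pos s n)) - k) -
      (X β (h + D) η n - X β h η n - k))) =
      wgt β (h + D) η s * g s * (Z β h η n / Z β (h + D) η n) := by
    intro s
    have h3 : (inner ℝ D (emb (pos s n)) - k) - (X β (h + D) η n - X β h η n - k) =
        inner ℝ D (emb (pos s n)) - (X β (h + D) η n - X β h η n) := by ring
    have h4 : wgt β (h + D) η s = wgt β h η s * Real.exp (inner ℝ D (emb (pos s n))) := by
      unfold wgt
      rw [← Real.exp_add, inner_add_left]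
      congr 1
      ring
    rw [h3, Real.exp_sub, h1, h4]
    field_simp
  simp only [h2]
  rw [← Finset.sum_mul]
  field_simp

theorem oneC13 (hd : 0 < d) (β : ℝ) : OneC d β := by
  classical
  intro h D η n f a b k q hf hq
  obtain ⟨Y, hY⟩ : ∃ Y : (Fin n → Step d) → ℝ, Y = fun s =>
    inner ℝ D (emb (pos s n)) - k := ⟨_, rfl⟩
  obtain ⟨l, hl⟩ : ∃ l, l = X β (h + D) η n - X β h η n - k := ⟨_, rfl⟩
  have hq' : pe β h η (fun s => Y s ^ 2) + pe β (h + D) η (fun s => Y s ^ 2) ≤ q := by
    rw [hY]
    exact hq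
  have hY0 : 0 ≤ pe β h η (fun s => Y s ^ 2) := pe_nonneg73 hd β h η fun s => sq_nonneg _
  have hY1 : 0 ≤ pe β (h + D) η (fun s => Y s ^ 2) :=
    pe_nonneg73 hd β (h + D) η fun s => sq_nonneg _
  have hq0 : 0 ≤ q := by linarith
  have htilt : ∀ g : (Fin n → Step d) → ℝ, pe β (h + D) η g =
      pe β h η (fun s => g s * Real.exp (Y s - l)) := by
    intro g
    rw [hY, hl]
    exact pe_tilt13 hd β h D η k g
  have hpf : ∀ g : Vec d, a ≤ pe β g η f ∧ pe β g η f ≤ b := by
    intro g
    have h1 := pe_mono73 hd β g η (f := fun _ => a) (g := f) fun s => (hf s).1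
    have h2 := pe_mono73 hd β g η (f := f) (g := fun _ => b) fun s => (hf s).2
    rw [pe_const73 hd] at h1 h2
    exact ⟨h1, h2⟩
  have hab : a ≤ b := (hpf h).1.trans (hpf h).2
  have hs0 : 0 ≤ 7 * Real.sqrt (pe β h η (fun s => f s ^ 2) - pe β h η f ^ 2) * Real.sqrt q := by
    positivity
  rcases le_or_gt q 1 with hq1 | hq1
  swap
  · have h1 : |pe β (h + D) η f - pe β h η f| ≤ b - a := by
      have h2 := hpf h
      have h3 := hpf (h + D)
      rw [abs_le]
      constructor <;> linarith
    have h4 : (b - a) * 1 ≤ (b - a) * q := mul_le_mul_of_nonneg_left hq1.le (by linarith)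
    linarith
  -- Jensen
  have hYe : ∀ g : Vec d, pe β g η Y = pe β g η (fun s : Fin n → Step d =>
      inner ℝ D (emb (pos s n))) - k := by
    intro g
    rw [hY, pe_sub73, pe_const73 hd]
  have hl1 : pe β h η Y ≤ l := by
    have h1 := X_tilt31 hd β h D η n 1
    rw [one_smul, one_mul] at h1
    rw [hYe, hl]
    linarith
  have hl2 : l ≤ pe β (h + D) η Y := by
    have h1 := X_tilt31 hd β (h + D) D η n (-1)
    have h2 : h + D + (-1 : ℝ) • D = h := by
      rw [neg_smul, one_smul, add_neg_cancel_right]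
    rw [h2] at h1
    rw [hYe, hl]
    linarith
  have hsq : ∀ g : Vec d, pe β g η Y ^ 2 ≤ pe β g η (fun s => Y s ^ 2) := by
    intro g
    have h1 := pe_cs13 hd β g η Y (fun _ => 1)
    simp only [mul_one, one_pow] at h1
    rw [pe_const73 hd, mul_one] at h1
    exact h1
  have hlq : l ^ 2 ≤ q := by
    have h1 := hsq h
    have h2 := hsq (h + D)
    rcases le_total 0 l with h3 | h3
    · have : l ^ 2 ≤ pe β (h + D) η Y ^ 2 := by nlinarith
      linarith
    · have : l ^ 2 ≤ pe β h η Y ^ 2 := by nlinarith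
      linarith
  have hl1' : |l| ≤ 1 := by
    rw [← sq_le_one_iff_abs_le_one]
    linarith
  -- the change of measure
  obtain ⟨M, hM⟩ : ∃ M, M = pe β h η f := ⟨_, rfl⟩
  have hone : pe β h η (fun s => Real.exp (Y s - l)) = 1 := by
    have h1 := htilt (fun _ => 1)
    rw [pe_const73 hd] at h1
    rw [h1]
    simp only [one_mul]
  obtain ⟨v, hv⟩ : ∃ v : (Fin n → Step d) → ℝ, v = fun s =>
    if |Y s| ≤ 1 then Real.exp (Y s - l) - 1 else 0 := ⟨_, rfl⟩
  obtain ⟨w, hw⟩ : ∃ w : (Fin n → Step d) → ℝ, w = fun s =>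
    if |Y s| ≤ 1 then 0 else Real.exp (Y s - l) - 1 := ⟨_, rfl⟩
  have hdiff : pe β (h + D) η f - M =
      pe β h η (fun s => (f s - M) * v s) + pe β h η (fun s => (f s - M) * w s) := by
    have h1 : pe β h η (fun s => (f s - M) * v s) + pe β h η (fun s => (f s - M) * w s) =
        pe β h η (fun s => (f s * Real.exp (Y s - l) - M * Real.exp (Y s - l)) - (f s - M)) := by
      rw [← pe_add73]
      congr 1
      funext s
      rw [hv, hw]
      by_cases hs : |Y s| ≤ 1
      · simp only [if_pos hs]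
        ring
      · simp only [if_neg hs]
        ring
    rw [h1, pe_sub73 β h η (fun s => f s * Real.exp (Y s - l) - M * Real.exp (Y s - l))
      (fun s => f s - M), pe_sub73 β h η (fun s => f s * Real.exp (Y s - l))
      (fun s => M * Real.exp (Y s - l)), pe_mul73, hone, ← htilt, pe_sub73 β h η f (fun _ => M),
      pe_const73 hd, ← hM]
    ring
  -- the part where `Y` is small
  have hu2 : pe β h η (fun s => (f s - M) ^ 2) = pe β h η (fun s => f s ^ 2) - pe β h η f ^ 2 := by
    have h1 : (fun s : Fin n → Step d => (f s - M) ^ 2) =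
        fun s => (f s ^ 2 - 2 * M * f s) + M ^ 2 := by
      funext s
      ring
    rw [h1, pe_add73 β h η (fun s => f s ^ 2 - 2 * M * f s) (fun _ => M ^ 2),
      pe_sub73 β h η (fun s => f s ^ 2) (fun s => 2 * M * f s), pe_mul73, pe_const73 hd, ← hM]
    ring
  have hv2 : pe β h η (fun s => v s ^ 2) ≤ 49 * q := by
    have h1 : pe β h η (fun s => v s ^ 2) ≤ pe β h η (fun s => 22 * Y s ^ 2 + 22 * l ^ 2) := by
      refine pe_mono73 hd β h η fun s => ?_
      rw [hv]
      by_cases hs : |Y s| ≤ 1
      · simp only [if_pos hs]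
        have h2 : |Y s - l| ≤ 2 := by
          have := abs_sub (Y s) l
          linarith
        have h3 := exp_lip13 h2
        nlinarith [sq_nonneg (Y s + l)]
      · simp only [if_neg hs]
        have h2 := sq_nonneg (Y s)
        have h3 := sq_nonneg l
        linarith
    rw [pe_add73 β h η (fun s => 22 * Y s ^ 2) (fun _ => 22 * l ^ 2), pe_mul73,
      pe_const73 hd] at h1
    linarith
  have hA : |pe β h η (fun s => (f s - M) * v s)| ≤
      7 * Real.sqrt (pe β h η (fun s => f s ^ 2) - pe β h η f ^ 2) * Real.sqrt q := by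
    have h1 := pe_cs13 hd β h η (fun s => f s - M) v
    rw [hu2] at h1
    have hV0 : 0 ≤ pe β h η (fun s => f s ^ 2) - pe β h η f ^ 2 := by
      rw [← hu2]
      exact pe_nonneg73 hd β h η fun s => sq_nonneg _
    have h2 : pe β h η (fun s => (f s - M) * v s) ^ 2 ≤
        (7 * Real.sqrt (pe β h η (fun s => f s ^ 2) - pe β h η f ^ 2) * Real.sqrt q) ^ 2 := by
      rw [mul_pow, mul_pow, Real.sq_sqrt hV0, Real.sq_sqrt hq0]
      have h3 := mul_le_mul_of_nonneg_left hv2 hV0
      linarith
    exact abs_le_of_sq_le_sq h2 hs0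
  -- the part where `Y` is large
  have hB : |pe β h η (fun s => (f s - M) * w s)| ≤ (b - a) * q := by
    have h1 : ∀ s, |(f s - M) * w s| ≤ (b - a) * (Y s ^ 2 * Real.exp (Y s - l) + Y s ^ 2) := by
      intro s
      rw [hw]
      by_cases hs : |Y s| ≤ 1
      · simp only [if_pos hs, mul_zero, abs_zero]
        have := Real.exp_pos (Y s - l)
        have h2 : 0 ≤ b - a := by linarith
        positivity
      · simp only [if_neg hs]
        push Not at hs
        have hY2 : 1 ≤ Y s ^ 2 := by
          rw [← sq_abs]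
          nlinarith
        have h2 : |f s - M| ≤ b - a := by
          have h3 := hf s
          have h4 := hpf h
          rw [abs_le]
          constructor <;> linarith
        have h5 : |Real.exp (Y s - l) - 1| ≤ Real.exp (Y s - l) + 1 := by
          have := Real.exp_pos (Y s - l)
          rw [abs_le]
          constructor <;> linarith
        have h6 : Real.exp (Y s - l) + 1 ≤ Y s ^ 2 * Real.exp (Y s - l) + Y s ^ 2 := by
          have := Real.exp_pos (Y s - l)
          nlinarith
        rw [abs_mul]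
        exact mul_le_mul h2 (h5.trans h6) (abs_nonneg _) (by linarith)
    have h2 : |pe β h η (fun s => (f s - M) * w s)| ≤
        pe β h η (fun s => (b - a) * (Y s ^ 2 * Real.exp (Y s - l) + Y s ^ 2)) := by
      rw [abs_le]
      constructor
      · have h3 := pe_mono73 hd β h η
          (f := fun s => (-1) * ((b - a) * (Y s ^ 2 * Real.exp (Y s - l) + Y s ^ 2)))
          (g := fun s => (f s - M) * w s) fun s => by
            have := (abs_le.1 (h1 s)).1
            linarith
        rw [pe_mul73] at h3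
        linarith
      · exact pe_mono73 hd β h η fun s => (abs_le.1 (h1 s)).2
    rw [pe_mul73, pe_add73 β h η (fun s => Y s ^ 2 * Real.exp (Y s - l)) (fun s => Y s ^ 2),
      ← htilt (fun s => Y s ^ 2)] at h2
    refine h2.trans (mul_le_mul_of_nonneg_left ?_ (by linarith))
    linarith
  rw [← hM, hdiff]
  rw [← hM] at hA
  exact (abs_add_le _ _).trans (add_le_add hA hB)

end Pool.Agent.W_7d29a1_SA
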