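import Pool.Agent.W_7d29a1_SA.DefsA13

/-!
Theorem SUPA, the hole lemma (helper13).
-/

namespace Pool.Agent.W_7d29a1_SA

open MeasureTheory ProbabilityTheory Filter Topology Metric Pool.Agent.W_MP_7d29a1_pr
  Pool.Agent.W_7d29a1_h46 Pool.Agent.W_7d29a1_h46u Pool.Agent.W_7d29a1_D2.B35
  Pool.Agent.W_7d29a1_Q29 Pool.Agent.W_7d29a1_S90

lemma vol_ball13 (z : Vec 2) {x : ℝ} (hx : 0 ≤ x) :
    volume (ball z x) = ENNReal.ofReal (x ^ 2) * volume (ball (0 : Vec 2) 1) := by
  rw [Measure.addHaar_ball volume z hx]
  simp [Vec]

lemma vol_cball13 (z : Vec 2) {x : ℝ} (hx : 0 ≤ x) :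
    volume (closedBall z x) = ENNReal.ofReal (x ^ 2) * volume (ball (0 : Vec 2) 1) := by
  rw [Measure.addHaar_closedBall volume z hx]
  simp [Vec]

/-- Double counting of a hole near each point of `F`. -/
lemma fub13 {F A : Set (Vec 2)} (hA : MeasurableSet A) {x R : ℝ} (hx : 0 ≤ x) (hR : 0 ≤ R)
    (h : ∀ v ∈ F, ∃ z, ball z x ⊆ A ∩ closedBall v R) (hF : MeasurableSet F) :
    volume F * ENNReal.ofReal (x ^ 2) ≤ volume A * ENNReal.ofReal (R ^ 2) := by
  obtain ⟨κ, hκ⟩ : ∃ κ, κ = volume (ball (0 : Vec 2) 1) := ⟨_, rfl⟩
  have hκ0 : κ ≠ 0 := by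
    rw [hκ]
    exact (measure_ball_pos volume 0 one_pos).ne'
  have hκt : κ ≠ ⊤ := by
    rw [hκ]
    exact measure_ball_lt_top.ne
  have hS : MeasurableSet {p : Vec 2 × Vec 2 | dist p.2 p.1 ≤ R} :=
    measurableSet_le (measurable_snd.dist measurable_fst) measurable_const
  have hg : Measurable (fun p : Vec 2 × Vec 2 =>
      Set.indicator {p : Vec 2 × Vec 2 | dist p.2 p.1 ≤ R} (fun _ => (1 : ENNReal)) p) :=
    measurable_const.indicator hS
  have h1 : volume F * (ENNReal.ofReal (x ^ 2) * κ) ≤
      ∫⁻ v in F, ∫⁻ y in A, Set.indicator {p : Vec 2 × Vec 2 | dist p.2 p.1 ≤ R}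
        (fun _ => (1 : ENNReal)) (v, y) := by
    calc volume F * (ENNReal.ofReal (x ^ 2) * κ) = ∫⁻ _ in F, ENNReal.ofReal (x ^ 2) * κ := by
          rw [setLIntegral_const, mul_comm]
      _ ≤ _ := by
          refine setLIntegral_mono' hF fun v hv => ?_
          obtain ⟨z, hz⟩ := h v hv
          rw [hκ, ← vol_ball13 z hx]
          calc volume (ball z x) ≤ volume (closedBall v R ∩ A) := by
                refine measure_mono fun y hy => ?_
                exact ⟨(hz hy).2, (hz hy).1⟩
            _ = ∫⁻ y in A, Set.indicator (closedBall v R) (fun _ => (1 : ENNReal)) y := by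
                rw [lintegral_indicator measurableSet_closedBall, setLIntegral_one,
                  Measure.restrict_apply measurableSet_closedBall]
            _ = _ := by
                refine lintegral_congr fun y => ?_
                by_cases hy : dist y v ≤ R
                · rw [Set.indicator_of_mem (mem_closedBall.2 hy),
                    Set.indicator_of_mem (show (v, y) ∈ {p : Vec 2 × Vec 2 | dist p.2 p.1 ≤ R}
                      from hy)]
                · rw [Set.indicator_of_notMem (fun h => hy (mem_closedBall.1 h)),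
                    Set.indicator_of_notMem (show (v, y) ∉ {p : Vec 2 × Vec 2 |
                      dist p.2 p.1 ≤ R} from hy)]
  have h2 : ∫⁻ v in F, ∫⁻ y in A, Set.indicator {p : Vec 2 × Vec 2 | dist p.2 p.1 ≤ R}
        (fun _ => (1 : ENNReal)) (v, y) =
      ∫⁻ y in A, ∫⁻ v in F, Set.indicator {p : Vec 2 × Vec 2 | dist p.2 p.1 ≤ R}
        (fun _ => (1 : ENNReal)) (v, y) :=
    lintegral_lintegral_swap hg.aemeasurable
  have h3 : ∫⁻ y in A, ∫⁻ v in F, Set.indicator {p : Vec 2 × Vec 2 | dist p.2 p.1 ≤ R}
        (fun _ => (1 : ENNReal)) (v, y) ≤ volume A * (ENNReal.ofReal (R ^ 2) * κ) := by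
    calc _ ≤ ∫⁻ _ in A, ENNReal.ofReal (R ^ 2) * κ := by
          refine setLIntegral_mono' hA fun y _ => ?_
          rw [hκ, ← vol_cball13 y hR]
          calc ∫⁻ v in F, Set.indicator {p : Vec 2 × Vec 2 | dist p.2 p.1 ≤ R}
                (fun _ => (1 : ENNReal)) (v, y)
              ≤ ∫⁻ v, Set.indicator {p : Vec 2 × Vec 2 | dist p.2 p.1 ≤ R}
                (fun _ => (1 : ENNReal)) (v, y) := setLIntegral_le_lintegral _ _
            _ = ∫⁻ v, Set.indicator (closedBall y R) (fun _ => (1 : ENNReal)) v := by
                refine lintegral_congr fun v => ?_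
                by_cases hy : dist y v ≤ R
                · rw [Set.indicator_of_mem (mem_closedBall'.2 hy),
                    Set.indicator_of_mem (show (v, y) ∈ {p : Vec 2 × Vec 2 | dist p.2 p.1 ≤ R}
                      from hy)]
                · rw [Set.indicator_of_notMem (fun h => hy (mem_closedBall'.1 h)),
                    Set.indicator_of_notMem (show (v, y) ∉ {p : Vec 2 × Vec 2 |
                      dist p.2 p.1 ≤ R} from hy)]
            _ = volume (closedBall y R) := by
                rw [lintegral_indicator measurableSet_closedBall, setLIntegral_one]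
      _ = _ := by rw [setLIntegral_const, mul_comm]
  have h4 := h1.trans (h2.le.trans h3)
  rw [← mul_assoc, ← mul_assoc] at h4
  exact (ENNReal.mul_le_mul_iff_left hκ0 hκt).1 h4

theorem holP13 : HolP := by
  classical
  intro E x r j₀ hxr hhole hsum
  rcases Set.eq_empty_or_nonempty E with rfl | hE
  · exact measure_empty
  have hr0 : ∀ j, j₀ ≤ j → 0 < r j := fun j hj => (hxr j hj).1.trans_le (hxr j hj).2.1
  have hr1 : ∀ j, j₀ ≤ j → ∀ k, r (j + k) ≤ r j := by
    intro j hj k
    induction k with
    | zero => exact le_rfl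
    | succ k ih =>
      have h1 := hxr (j + k) (by omega)
      have h2 : r (j + (k + 1)) = r (j + k + 1) := rfl
      rw [h2]
      linarith [hr0 (j + k + 1) (by omega)]
  -- it is enough to treat bounded sets
  have key : ∀ M : ℕ, volume (closure E ∩ closedBall (0 : Vec 2) M) = 0 := by
    intro M
    by_contra hne
    obtain ⟨F, hF⟩ : ∃ F, F = closure E ∩ closedBall (0 : Vec 2) (M : ℝ) := ⟨_, rfl⟩
    rw [← hF] at hne
    have hFm : MeasurableSet F := by
      rw [hF]
      exact isClosed_closure.measurableSet.inter measurableSet_closedBall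
    have hFt : volume F ≠ ⊤ := by
      refine ((measure_mono ?_).trans_lt (measure_closedBall_lt_top (x := (0 : Vec 2))
        (r := (M : ℝ)))).ne
      rw [hF]
      exact Set.inter_subset_right
    obtain ⟨M', hM'⟩ : ∃ M', M' = (M : ℝ) + 3 * r j₀ := ⟨_, rfl⟩
    obtain ⟨A, hA⟩ : ∃ A : ℕ → Set (Vec 2), A = fun j => {y | x j / 2 ≤ infDist y E ∧
      infDist y E ≤ 3 * r j} ∩ closedBall 0 M' := ⟨_, rfl⟩
    have hAm : ∀ j, MeasurableSet (A j) := by
      intro j
      rw [hA]
      have hc := measurable_infDist (s := E)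
      exact ((measurableSet_le measurable_const hc).inter
        (measurableSet_le hc measurable_const)).inter measurableSet_closedBall
    have hlow : ∀ j, j₀ ≤ j → volume F * ENNReal.ofReal ((x j / 2) ^ 2) ≤
        volume (A j) * ENNReal.ofReal ((3 * r j) ^ 2) := by
      intro j hj
      have hx0 := (hxr j hj).1
      have hxr' := (hxr j hj).2.1
      have hrj := hr0 j hj
      refine fub13 (hAm j) (by positivity) (by positivity) (fun v hv => ?_) hFm
      rw [hF] at hv
      obtain ⟨v1, hv1, hd1⟩ := mem_closure_iff.1 hv.1 (r j / 2) (by positivity)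
      obtain ⟨z, hz1, hz2⟩ := hhole j hj v1 hv1
      refine ⟨z, fun y hy => ?_⟩
      rw [mem_ball] at hy
      have hzv : dist z v1 ≤ r j := by
        rw [dist_eq_norm]
        exact hz1
      have hyv : dist y v ≤ 2 * r j := by
        have h1 := dist_triangle y z v
        have h2 := dist_triangle z v1 v
        rw [dist_comm v1 v] at h2
        linarith
      have hin : x j / 2 ≤ infDist y E := by
        refine (le_infDist hE).2 fun {w} hw => ?_
        have h1 := hz2 w hw
        rw [← dist_eq_norm] at h1
        have h2 := dist_triangle w y z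
        rw [dist_comm w y] at h2
        linarith
      have hup : infDist y E ≤ 3 * r j := by
        refine (infDist_le_dist_of_mem hv1).trans ?_
        have h1 := dist_triangle y z v1
        linarith
      refine ⟨?_, ?_⟩
      · rw [hA]
        refine ⟨⟨hin, hup⟩, ?_⟩
        rw [mem_closedBall, hM']
        have h1 := dist_triangle y v 0
        have h2 := mem_closedBall.1 hv.2
        have h3 := hr1 j₀ le_rfl (j - j₀)
        rw [Nat.add_sub_cancel' hj] at h3
        linarith
      · rw [mem_closedBall]
        linarith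
    have hdisj : ∀ i j, j₀ ≤ i → i < j → Disjoint (A i) (A j) := by
      intro i j hi hij
      rw [hA, Set.disjoint_left]
      intro y hy1 hy2
      have h1 := hy1.1.1
      have h2 := hy2.1.2
      have h3 := (hxr i hi).2.2
      have h4 := hr1 (i + 1) (by omega) (j - (i + 1))
      rw [Nat.add_sub_cancel' (by omega : i + 1 ≤ j)] at h4
      have h5 := (hxr i hi).1
      linarith
    obtain ⟨W, hW⟩ : ∃ W, W = volume (closedBall (0 : Vec 2) M') := ⟨_, rfl⟩
    have hWt : W ≠ ⊤ := by
      rw [hW]
      exact measure_closedBall_lt_top.ne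
    have hsumA : ∀ N : ℕ, ∑ k ∈ Finset.range N, volume (A (j₀ + k)) ≤ W := by
      intro N
      rw [← measure_biUnion_finset]
      · rw [hW]
        refine measure_mono ?_
        refine Set.iUnion₂_subset fun k _ => ?_
        rw [hA]
        exact Set.inter_subset_right
      · intro a _ b _ hab
        rcases lt_or_gt_of_ne hab with h | h
        · exact hdisj _ _ (by omega) (by omega)
        · exact (hdisj _ _ (by omega) (by omega)).symm
      · intro k _
        exact hAm _
    -- real numbers
    have hm : 0 < (volume F).toReal := ENNReal.toReal_pos hne hFt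
    have hAt : ∀ j, volume (A j) ≠ ⊤ := by
      intro j
      refine ((measure_mono ?_).trans_lt (measure_closedBall_lt_top (x := (0 : Vec 2))
        (r := M'))).ne
      rw [hA]
      exact Set.inter_subset_right
    have hreal : ∀ j, j₀ ≤ j → (volume F).toReal * ((x j / r j) ^ 2 / 36) ≤
        (volume (A j)).toReal := by
      intro j hj
      have h1 := ENNReal.toReal_mono (ENNReal.mul_ne_top (hAt j) ENNReal.ofReal_ne_top)
        (hlow j hj)
      rw [ENNReal.toReal_mul, ENNReal.toReal_mul, ENNReal.toReal_ofReal (sq_nonneg _),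
        ENNReal.toReal_ofReal (sq_nonneg _)] at h1
      have hrj := hr0 j hj
      have h2 : (volume F).toReal * ((x j / r j) ^ 2 / 36) =
          (volume F).toReal * (x j / 2) ^ 2 / (3 * r j) ^ 2 := by
        field_simp
        ring
      rw [h2, div_le_iff₀ (by positivity)]
      exact h1
    have hbd : ∀ N : ℕ, ∑ k ∈ Finset.range N, (x (k + j₀) / r (k + j₀)) ^ 2 ≤
        36 * W.toReal / (volume F).toReal := by
      intro N
      rw [le_div_iff₀ hm]
      have h1 : ∑ k ∈ Finset.range N, (volume F).toReal * ((x (k + j₀) / r (k + j₀)) ^ 2 / 36) ≤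
          ∑ k ∈ Finset.range N, (volume (A (j₀ + k))).toReal := by
        refine Finset.sum_le_sum fun k _ => ?_
        rw [add_comm k j₀]
        exact hreal _ (by omega)
      have h2 : ∑ k ∈ Finset.range N, (volume (A (j₀ + k))).toReal ≤ W.toReal := by
        rw [← ENNReal.toReal_sum fun k _ => hAt _]
        exact ENNReal.toReal_mono hWt (hsumA N)
      rw [← Finset.mul_sum, ← Finset.sum_div] at h1
      have h3 := h1.trans h2
      have h4 : (∑ k ∈ Finset.range N, (x (k + j₀) / r (k + j₀)) ^ 2) * (volume F).toReal =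
          36 * ((volume F).toReal *
            ((∑ k ∈ Finset.range N, (x (k + j₀) / r (k + j₀)) ^ 2) / 36)) := by ring
      rw [h4]
      linarith
    refine hsum ((summable_nat_add_iff j₀).1 ?_)
    exact summable_of_sum_range_le (fun k => sq_nonneg _) hbd
  have hcov : closure E ⊆ ⋃ M : ℕ, closure E ∩ closedBall (0 : Vec 2) (M : ℝ) := by
    intro v hv
    obtain ⟨M, hM⟩ := exists_nat_ge ‖v‖
    refine Set.mem_iUnion.2 ⟨M, hv, ?_⟩
    rw [mem_closedBall, dist_zero_right]
    exact hM
  exact measure_mono_null (subset_closure.trans hcov) (measure_iUnion_null key)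

end Pool.Agent.W_7d29a1_SA
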