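import Pool.Agent.W_7d29a1_S90.DefsP45

/-!
Theorem SUPA: superdiffusive windows at almost every velocity in dimension two. Definitions and
frozen statements of the leaves (helper13).
-/

namespace Pool.Agent.W_7d29a1_SA

open MeasureTheory ProbabilityTheory Filter Topology Pool.Agent.W_MP_7d29a1_pr
  Pool.Agent.W_7d29a1_h46 Pool.Agent.W_7d29a1_h46u Pool.Agent.W_7d29a1_D2.B35
  Pool.Agent.W_7d29a1_Q29 Pool.Agent.W_7d29a1_S90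

/-- All windows of length at least `n ^ α` of the polymer of length `n` are diffusive around the
velocity `v` (second moments). -/
def WV {d : ℕ} (ρ : Measure ℝ) (β : ℝ) (h v : Vec d) (n : ℕ) (α R : ℝ) : Prop :=
  ∀ τ t : ℕ, τ < t → t ≤ n → (n : ℝ) ^ α ≤ (t : ℝ) - τ →
    ∫ η, pe β h η (fun s : Fin n → Step d => inc τ t (((t : ℝ) - τ) • v) s ^ 2) ∂(law d ρ) ≤
      R * ((t : ℝ) - τ)

/-- The velocity `v` is a slope of the free energy at `h`, with curvature at least `c`. -/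
structure Gd {d : ℕ} (ρ : Measure ℝ) (β : ℝ) (h v : Vec d) (c δ : ℝ) : Prop where
  sub : ∀ w : Vec d, lam ρ β h + inner ℝ v (w - h) ≤ lam ρ β w
  cur : ∀ r : Vec d, ‖r‖ ≤ δ → lam ρ β h + inner ℝ v r + c * ‖r‖ ^ 2 ≤ lam ρ β (h + r)

/-- HOLE LEMMA: a set which misses a hole of relative radius `x j / r j` at every scale near each of
its points is null, if the squares are not summable. -/
def HolP : Prop := ∀ (E : Set (Vec 2)) (x r : ℕ → ℝ) (j₀ : ℕ),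
  (∀ j : ℕ, j₀ ≤ j → 0 < x j ∧ x j ≤ r j ∧ 8 * r (j + 1) ≤ x j) →
  (∀ j : ℕ, j₀ ≤ j → ∀ v ∈ E, ∃ z : Vec 2, ‖z - v‖ ≤ r j ∧ ∀ v' ∈ E, x j ≤ ‖v' - z‖) →
  ¬ Summable (fun j : ℕ => (x j / r j) ^ 2) → volume E = 0

section Leaves

variable (d : ℕ) (ρ : Measure ℝ) (β : ℝ)

/-- ONE STEP: the change of the mean of a bounded function under a change of the tilt. -/
def OneC : Prop := ∀ (h D : Vec d) (η : Env d) (n : ℕ) (f : (Fin n → Step d) → ℝ) (a b k q : ℝ),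
  (∀ s, a ≤ f s ∧ f s ≤ b) →
  pe β h η (fun s : Fin n → Step d => (inner ℝ D (emb (pos s n)) - k) ^ 2) +
    pe β (h + D) η (fun s : Fin n → Step d => (inner ℝ D (emb (pos s n)) - k) ^ 2) ≤ q →
  |pe β (h + D) η f - pe β h η f| ≤
    7 * Real.sqrt (pe β h η (fun s => f s ^ 2) - pe β h η f ^ 2) * Real.sqrt q + (b - a) * q

/-- POLYGON (`d = 2`, from `OneC`, `KmT`): one vertex with separated replicas at many times. -/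
def PolP : Prop := ∀ C : ℝ, 1 ≤ C → ∃ a κ K : ℝ, 0 < a ∧ 0 < κ ∧ κ ≤ 1 ∧ 1 ≤ K ∧
  ∀ (n J : ℕ) (α R ε b : ℝ) (hs vs : ℕ → Vec 2) (e : Vec 2), 1 ≤ n → 1 ≤ R → 0 < ε → ‖e‖ = 1 →
    (n : ℝ) ^ α ≤ n / 2 → (∀ i : ℕ, i ≤ J → WV ρ β (hs i) (vs i) n α R) →
    (∀ i : ℕ, i < J → ‖hs (i + 1) - hs i‖ ≤ C * ε / Real.sqrt n ∧
      ‖vs (i + 1) - vs i‖ ≤ ε / Real.sqrt n) →
    b = Real.sqrt n * inner ℝ e (vs J - vs 0) → K * Real.sqrt R ≤ b → b ≤ 2 * K * Real.sqrt R →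
    J * ε ≤ 4 * b → K ^ 2 * ε * R ^ 2 ≤ 1 → ∃ i : ℕ, i ≤ J ∧ ∃ T : Finset ℕ,
      T ⊆ Finset.Icc 1 n ∧ κ / R ^ 2 * n ≤ (T.card : ℝ) ∧ ∀ t ∈ T, n ≤ 2 * t ∧
        κ / R ^ 2 ≤ Rp ρ β (hs i) n t (Real.sqrt (a / R * n))

/-- MAIN (`d = 2`, from `PolP`, `InK`, `LoV`, `StM`, `JeT`, `VuT`): good velocities are no net. -/
def MainA : Prop := ∀ α c δ : ℝ, α < 1 → 0 < c → 0 < δ → ∃ N₀ : ℕ, ∀ n : ℕ, N₀ ≤ n →
  ∀ E : Set (Vec 2), (∀ v ∈ E, ∃ h : Vec 2, Gd ρ β h v c δ ∧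
    WV ρ β h v n α (Real.log n ^ ((1 : ℝ) / 60))) →
  ∀ v ∈ E, ∃ z : Vec 2, ‖z - v‖ ≤ Real.log n ^ ((1 : ℝ) / 8) / Real.sqrt n ∧
    ∀ v' ∈ E, Real.log n ^ (-((1 : ℝ) / 8)) / Real.sqrt n ≤ ‖v' - z‖

/-- THEOREM SUPA (`d = 2`). -/
def SupA : Prop := ∀ᵐ v : Vec 2, ∀ h : Vec 2,
  (∀ w : Vec 2, lam ρ β h + inner ℝ v (w - h) ≤ lam ρ β w) → ∀ α : ℝ, α < 1 →
    ∃ᶠ n : ℕ in atTop, ∃ τ t : ℕ, τ < t ∧ t ≤ n ∧ (n : ℝ) ^ α ≤ (t : ℝ) - τ ∧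
      Real.log n ^ ((1 : ℝ) / 60) * ((t : ℝ) - τ) <
        ∫ η, pe β h η (fun s : Fin n → Step 2 => inc τ t (((t : ℝ) - τ) • v) s ^ 2) ∂(law 2 ρ)

/-- The end: the theorem from the hole lemma and the main statement. -/
def EndA : Prop := HolP → MainA ρ β → SupA ρ β

end Leaves

end Pool.Agent.W_7d29a1_SA
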