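import Pool.Agent.W_7d29a1_SA.DefsOA42
import Pool.Agent.W_7d29a1_S90.Far52

/-!
Theorem ORIA for almost every velocity and EVERY tilt, and for an arbitrary i.i.d. environment.
-/

namespace Pool.Agent.W_7d29a1_SA

open MeasureTheory ProbabilityTheory Filter Topology Pool.Agent.W_MP_7d29a1_pr
  Pool.Agent.W_7d29a1_h46 Pool.Agent.W_7d29a1_h46u Pool.Agent.W_7d29a1_D2.B35
  Pool.Agent.W_7d29a1_Q29 Pool.Agent.W_7d29a1_S90

/-- Theorem ORIA for almost every velocity and every tilt. -/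
theorem supOAll52 {ρ : Measure ℝ} [IsProbabilityMeasure ρ] (hρ : EM ρ) {β : ℝ}
    (hA : SupO ρ β) : ∀ᵐ v : Vec 2, ∀ (h : Vec 2) (α : ℝ), α < 1 →
      ∃ᶠ n : ℕ in atTop, ∃ t : ℕ, 1 ≤ t ∧ t ≤ n ∧ (n : ℝ) ^ α ≤ t ∧
        Real.log n ^ ((1 : ℝ) / 200) * t <
          ∫ η, pe β h η (fun s : Fin n → Step 2 => ‖emb (pos s t) - (t : ℝ) • v‖ ^ 2)
            ∂(law 2 ρ) := by
  filter_upwards [hA] with v hv h α hα
  by_cases hs : ∀ w : Vec 2, lam ρ β h + inner ℝ v (w - h) ≤ lam ρ β w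
  · exact hv h hs α hα
  · have h1 := far52 two_pos hρ β hs ((1 : ℝ) / 200)
    refine Filter.Eventually.frequently ?_
    filter_upwards [h1, eventually_ge_atTop 1] with n hn hn1
    have hn1' : (1 : ℝ) ≤ n := by exact_mod_cast hn1
    refine ⟨n, hn1, le_rfl, ?_, hn⟩
    calc (n : ℝ) ^ α ≤ (n : ℝ) ^ (1 : ℝ) := Real.rpow_le_rpow_of_exponent_le hn1' hα.le
      _ = n := Real.rpow_one _

section Prob

variable {Ω : Type*} [MeasurableSpace Ω] {μ : Measure Ω} [IsProbabilityMeasure μ] {d : ℕ}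
  {ρ : Measure ℝ} [IsProbabilityMeasure ρ] {ω : ℕ × Site d → Ω → ℝ} {β : ℝ}

/-- **Superdiffusivity from the origin at almost every velocity and every tilt in dimension two**,
for an arbitrary i.i.d. environment, from `SupO`. -/
theorem topOA52 (hω : IID μ ρ ω) (hρ : EM ρ) (hA : SupO ρ β) (hd : d = 2) :
    ∀ᵐ v : Vec d, ∀ (h : Vec d) (α : ℝ), α < 1 →
      ∃ᶠ n : ℕ in atTop, ∃ t : ℕ, 1 ≤ t ∧ t ≤ n ∧ (n : ℝ) ^ α ≤ t ∧
        Real.log n ^ ((1 : ℝ) / 200) * t <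
          ∫ x, ∑ s : Fin n → Step d, PolT β h (fun p => ω p x) {s} *
            ‖emb (pos s t) - (t : ℝ) • v‖ ^ 2 ∂μ := by
  subst hd
  filter_upwards [supOAll52 hρ hA] with v hv h α hα
  refine (hv h α hα).mono fun n hn => ?_
  obtain ⟨t, h1, h2, h3, h4⟩ := hn
  refine ⟨t, h1, h2, h3, ?_⟩
  rw [probf52 hω β h (fun s : Fin n → Step 2 => ‖emb (pos s t) - (t : ℝ) • v‖ ^ 2)]
  exact h4

end Prob

end Pool.Agent.W_7d29a1_SA
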