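import Pool.Agent.W_7d29a1_SA.EndOA52
import Pool.Agent.W_7d29a1_SA.HolP13
import Pool.Agent.W_7d29a1_SA.TopOA52

/-!
Theorem ORIA from the main statement only.
-/

namespace Pool.Agent.W_7d29a1_SA

open MeasureTheory ProbabilityTheory Filter Topology Pool.Agent.W_MP_7d29a1_pr
  Pool.Agent.W_7d29a1_h46 Pool.Agent.W_7d29a1_h46u Pool.Agent.W_7d29a1_D2.B35
  Pool.Agent.W_7d29a1_Q29 Pool.Agent.W_7d29a1_S90

theorem supO52 {ρ : Measure ℝ} [IsProbabilityMeasure ρ] (hρ : EM ρ) {β : ℝ}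
    (hM : MainOA ρ β) : SupO ρ β := endOA52 hρ β holP13 hM

/-- **Superdiffusivity from the origin at almost every velocity and every tilt in dimension two**,
for an arbitrary i.i.d. environment, from `MainOA`. -/
theorem topOAF52 {Ω : Type*} [MeasurableSpace Ω] {μ : Measure Ω} [IsProbabilityMeasure μ] {d : ℕ}
    {ρ : Measure ℝ} [IsProbabilityMeasure ρ] {ω : ℕ × Site d → Ω → ℝ} {β : ℝ}
    (hω : IID μ ρ ω) (hρ : EM ρ) (hM : MainOA ρ β) (hd : d = 2) :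
    ∀ᵐ v : Vec d, ∀ (h : Vec d) (α : ℝ), α < 1 →
      ∃ᶠ n : ℕ in atTop, ∃ t : ℕ, 1 ≤ t ∧ t ≤ n ∧ (n : ℝ) ^ α ≤ t ∧
        Real.log n ^ ((1 : ℝ) / 200) * t <
          ∫ x, ∑ s : Fin n → Step d, PolT β h (fun p => ω p x) {s} *
            ‖emb (pos s t) - (t : ℝ) • v‖ ^ 2 ∂μ :=
  topOA52 hω hρ (supO52 hρ hM) hd

end Pool.Agent.W_7d29a1_SA
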