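import Pool.Agent.W_7d29a1_SA.MainOA42
import Pool.Agent.W_7d29a1_SA.OneC13
import Pool.Agent.W_7d29a1_SA.PlugOA52
import Pool.Agent.W_7d29a1_S90.Ori45

/-!
Theorem ORIA, without hypotheses: in dimension two the mean square displacement from the origin is
superdiffusive at almost every velocity, for every tilt.
-/

namespace Pool.Agent.W_7d29a1_SA

open MeasureTheory ProbabilityTheory Filter Topology Pool.Agent.W_MP_7d29a1_pr
  Pool.Agent.W_7d29a1_h46 Pool.Agent.W_7d29a1_h46u Pool.Agent.W_7d29a1_D2.B35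
  Pool.Agent.W_7d29a1_Q29 Pool.Agent.W_7d29a1_S90

/-- The main statement, from the closed leaves. -/
theorem oriM42 {ρ : Measure ℝ} [IsProbabilityMeasure ρ] (hρ : EM ρ) (hnc : ∀ c : ℝ, ρ {c} ≠ 1)
    {β : ℝ} (hβ : 0 < β) : MainOA ρ β := by
  obtain ⟨hLo, hSt, hVu, -, -, -, -, -, -, -, hJe⟩ :=
    leaves90 (d := 2) (by norm_num) hρ hnc hβ
  exact mainOA42 hρ (polO13 (oneC13 (by norm_num) β) (kmT71 (by norm_num) β))
    (csO54 (by norm_num) β) hSt hVu hJe (wiT19 (by norm_num) β) seT45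
    (rlV19 (by norm_num) hρ hnc hβ (siU98 (by norm_num) hρ hβ)) hLo
    (inO99 hβ (inT90 (by norm_num) hρ hnc hβ) (enZ58 (by norm_num) β) (dlT63 (by norm_num) hρ hβ))

/-- Theorem ORIA, law level. -/
theorem supO42 {ρ : Measure ℝ} [IsProbabilityMeasure ρ] (hρ : EM ρ) (hnc : ∀ c : ℝ, ρ {c} ≠ 1)
    {β : ℝ} (hβ : 0 < β) : SupO ρ β := supO52 hρ (oriM42 hρ hnc hβ)

/-- **Theorem ORIA** for an arbitrary i.i.d. environment, every velocity of full measure and every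
tilt. -/
theorem oriA42 {Ω : Type*} [MeasurableSpace Ω] {μ : Measure Ω} [IsProbabilityMeasure μ] {d : ℕ}
    {ρ : Measure ℝ} [IsProbabilityMeasure ρ] {ω : ℕ × Site d → Ω → ℝ} {β : ℝ}
    (hω : IID μ ρ ω) (hρ : EM ρ) (hnc : ∀ c : ℝ, ρ {c} ≠ 1) (hβ : 0 < β) (hd : d = 2) :
    ∀ᵐ v : Vec d, ∀ (h : Vec d) (α : ℝ), α < 1 →
      ∃ᶠ n : ℕ in atTop, ∃ t : ℕ, 1 ≤ t ∧ t ≤ n ∧ (n : ℝ) ^ α ≤ t ∧
        Real.log n ^ ((1 : ℝ) / 200) * t <
          ∫ x, ∑ s : Fin n → Step d, PolT β h (fun p => ω p x) {s} *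
            ‖emb (pos s t) - (t : ℝ) • v‖ ^ 2 ∂μ :=
  topOAF52 hω hρ (oriM42 hρ hnc hβ) hd

end Pool.Agent.W_7d29a1_SA
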