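import Pool.Agent.W_7d29a1_SA.DefsA13
import Pool.Agent.W_7d29a1_S90.DefsO28

/-!
Theorem ORIA: in dimension two the mean square displacement from the origin is superdiffusive at
almost every velocity. Definitions and frozen statements of the leaves (helper42).
-/

namespace Pool.Agent.W_7d29a1_SA

open MeasureTheory ProbabilityTheory Filter Topology Pool.Agent.W_MP_7d29a1_pr
  Pool.Agent.W_7d29a1_h46 Pool.Agent.W_7d29a1_h46u Pool.Agent.W_7d29a1_D2.B35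
  Pool.Agent.W_7d29a1_Q29 Pool.Agent.W_7d29a1_S90

/-- All initial windows `[0, t]`, `N ^ α ≤ t ≤ n ≤ N`, of the polymers of length `n` are diffusive
around the velocity `v` (second moments). -/
def WO {d : ℕ} (ρ : Measure ℝ) (β : ℝ) (h v : Vec d) (N : ℕ) (α R : ℝ) : Prop :=
  ∀ n t : ℕ, 1 ≤ t → t ≤ n → n ≤ N → (N : ℝ) ^ α ≤ t →
    ∫ η, pe β h η (fun s : Fin n → Step d => ‖emb (pos s t) - (t : ℝ) • v‖ ^ 2) ∂(law d ρ) ≤ R * t

section Leaves

variable (ρ : Measure ℝ) (β : ℝ)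

/-- MAIN (`d = 2`): the velocities with diffusive initial windows are no net. -/
def MainOA : Prop := ∀ α c δ : ℝ, α < 1 → 0 < c → 0 < δ → ∃ N₀ : ℕ, ∀ N : ℕ, N₀ ≤ N →
  ∀ E : Set (Vec 2), (∀ v ∈ E, ∃ h : Vec 2, Gd ρ β h v c δ ∧
    WO ρ β h v N α (Real.log N ^ ((1 : ℝ) / 200))) →
  ∀ v ∈ E, ∃ z : Vec 2, ‖z - v‖ ≤ Real.log N ^ ((1 : ℝ) / 8) / Real.sqrt N ∧
    ∀ v' ∈ E, Real.log N ^ (-((1 : ℝ) / 8)) / Real.sqrt N ≤ ‖v' - z‖

/-- THEOREM ORIA (`d = 2`): at almost every velocity, for every tilt with this slope, the mean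
square displacement from the origin beats `t` by a power of the logarithm. -/
def SupO : Prop := ∀ᵐ v : Vec 2, ∀ h : Vec 2,
  (∀ w : Vec 2, lam ρ β h + inner ℝ v (w - h) ≤ lam ρ β w) → ∀ α : ℝ, α < 1 →
    ∃ᶠ n : ℕ in atTop, ∃ t : ℕ, 1 ≤ t ∧ t ≤ n ∧ (n : ℝ) ^ α ≤ t ∧
      Real.log n ^ ((1 : ℝ) / 200) * t <
        ∫ η, pe β h η (fun s : Fin n → Step 2 => ‖emb (pos s t) - (t : ℝ) • v‖ ^ 2) ∂(law 2 ρ)

/-- The end: the theorem from the hole lemma and the main statement (`¬ WO` at `N` gives lengths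
`N ^ α ≤ t ≤ n ≤ N`; take `α ≥ 1 / 2` and `n` tends to infinity with `N`). -/
def EndOA : Prop := HolP → MainOA ρ β → SupO ρ β

end Leaves

end Pool.Agent.W_7d29a1_SA
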