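import Pool.Agent.W_7d29a1_SA.DefsA13
import Pool.Agent.W_7d29a1_D2.AlJ60

/-!
Theorem SUPA: the end, from the hole lemma and the main statement.
-/

namespace Pool.Agent.W_7d29a1_SA

open MeasureTheory ProbabilityTheory Filter Topology Pool.Agent.W_MP_7d29a1_pr
  Pool.Agent.W_7d29a1_h46 Pool.Agent.W_7d29a1_h46u Pool.Agent.W_7d29a1_D2.B35
  Pool.Agent.W_7d29a1_Q29 Pool.Agent.W_7d29a1_S90

namespace E50

/-- The lengths. -/
def nj (j : ℕ) : ℕ := 2 ^ (j ^ 2)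

theorem nj_pos (j : ℕ) : 0 < nj j := by
  unfold nj
  positivity

theorem log_nj (j : ℕ) : Real.log (nj j) = (j : ℝ) ^ 2 * Real.log 2 := by
  unfold nj
  push_cast
  rw [Real.log_pow]
  push_cast
  ring

theorem log_nj_le (j : ℕ) : Real.log (nj j) ≤ (j : ℝ) ^ 2 := by
  rw [log_nj]
  have h1 : Real.log 2 ≤ 1 := by
    have := Real.log_le_sub_one_of_pos (show (0 : ℝ) < 2 by norm_num)
    linarith
  nlinarith [sq_nonneg (j : ℝ)]

theorem one_le_log (j : ℕ) (hj : 2 ≤ j) : 1 ≤ Real.log (nj j) := by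
  rw [log_nj]
  have h1 := Real.log_two_gt_d9
  have h2 : (2 : ℝ) ≤ j := by exact_mod_cast hj
  nlinarith

theorem le_nj (j : ℕ) : j ≤ nj j := by
  unfold nj
  calc j ≤ 2 ^ j := Nat.lt_two_pow_self.le
    _ ≤ 2 ^ (j ^ 2) := Nat.pow_le_pow_right (by norm_num) (by nlinarith [Nat.zero_le j])

/-- The radii. -/
noncomputable def xj (j : ℕ) : ℝ := Real.log (nj j) ^ (-((1 : ℝ) / 8)) / Real.sqrt (nj j)

/-- The radii. -/
noncomputable def rj (j : ℕ) : ℝ := Real.log (nj j) ^ ((1 : ℝ) / 8) / Real.sqrt (nj j)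

theorem xj_pos (j : ℕ) (hj : 2 ≤ j) : 0 < xj j := by
  have h1 := one_le_log j hj
  have h2 : (0 : ℝ) < nj j := by exact_mod_cast nj_pos j
  unfold xj
  have h3 : 0 < Real.log (nj j) ^ (-((1 : ℝ) / 8)) := Real.rpow_pos_of_pos (by linarith) _
  positivity

theorem xj_le_rj (j : ℕ) (hj : 2 ≤ j) : xj j ≤ rj j := by
  have h1 := one_le_log j hj
  unfold xj rj
  refine div_le_div_of_nonneg_right ?_ (Real.sqrt_nonneg _)
  exact Real.rpow_le_rpow_of_exponent_le h1 (by norm_num)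

theorem pow_ge (j : ℕ) (hj : 5 ≤ j) : 64 * ((j : ℝ) + 1) ≤ (2 : ℝ) ^ (2 * j + 1) := by
  induction j, hj using Nat.le_induction with
  | base => norm_num
  | succ j hj ih =>
    have h1 : (5 : ℝ) ≤ j := by exact_mod_cast hj
    have h2 : (2 : ℝ) ^ (2 * (j + 1) + 1) = 4 * 2 ^ (2 * j + 1) := by
      rw [show 2 * (j + 1) + 1 = (2 * j + 1) + 2 by ring, pow_add]
      ring
    rw [h2]
    push_cast
    linarith

theorem step_rj (j : ℕ) (hj : 5 ≤ j) : 8 * rj (j + 1) ≤ xj j := by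
  have h1 := one_le_log j (by omega)
  have h1' := one_le_log (j + 1) (by omega)
  have h2 : (0 : ℝ) < nj j := by exact_mod_cast nj_pos j
  have h2' : (0 : ℝ) < nj (j + 1) := by exact_mod_cast nj_pos (j + 1)
  have hl := log_nj_le j
  have hl' := log_nj_le (j + 1)
  have hj0 : (0 : ℝ) ≤ j := by positivity
  -- the logarithms
  have ha : Real.log (nj (j + 1)) ^ ((1 : ℝ) / 8) ≤ ((j : ℝ) + 1) ^ ((1 : ℝ) / 4) := by
    calc Real.log (nj (j + 1)) ^ ((1 : ℝ) / 8) ≤ (((j : ℝ) + 1) ^ (2 : ℕ)) ^ ((1 : ℝ) / 8) := by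
          refine Real.rpow_le_rpow (by linarith) ?_ (by norm_num)
          have : ((j + 1 : ℕ) : ℝ) = (j : ℝ) + 1 := by push_cast; ring
          rw [this] at hl'
          exact hl'
      _ = ((j : ℝ) + 1) ^ ((1 : ℝ) / 4) := by
          rw [← Real.rpow_natCast, ← Real.rpow_mul (by linarith)]
          norm_num
  have hb : Real.log (nj j) ^ ((1 : ℝ) / 8) ≤ ((j : ℝ) + 1) ^ ((1 : ℝ) / 4) := by
    calc Real.log (nj j) ^ ((1 : ℝ) / 8) ≤ (((j : ℝ) + 1) ^ (2 : ℕ)) ^ ((1 : ℝ) / 8) := by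
          refine Real.rpow_le_rpow (by linarith) ?_ (by norm_num)
          nlinarith
      _ = ((j : ℝ) + 1) ^ ((1 : ℝ) / 4) := by
          rw [← Real.rpow_natCast, ← Real.rpow_mul (by linarith)]
          norm_num
  have hb0 : 0 < Real.log (nj j) ^ ((1 : ℝ) / 8) := Real.rpow_pos_of_pos (by linarith) _
  have ha0 : 0 < Real.log (nj (j + 1)) ^ ((1 : ℝ) / 8) := Real.rpow_pos_of_pos (by linarith) _
  have hab : Real.log (nj (j + 1)) ^ ((1 : ℝ) / 8) * Real.log (nj j) ^ ((1 : ℝ) / 8) ≤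
      Real.sqrt ((j : ℝ) + 1) := by
    calc Real.log (nj (j + 1)) ^ ((1 : ℝ) / 8) * Real.log (nj j) ^ ((1 : ℝ) / 8)
        ≤ ((j : ℝ) + 1) ^ ((1 : ℝ) / 4) * ((j : ℝ) + 1) ^ ((1 : ℝ) / 4) :=
          mul_le_mul ha hb hb0.le (by positivity)
      _ = Real.sqrt ((j : ℝ) + 1) := by
          rw [← Real.rpow_add (by linarith), Real.sqrt_eq_rpow]
          norm_num
  -- the lengths
  have hn : (nj (j + 1) : ℝ) = nj j * 2 ^ (2 * j + 1) := by
    unfold nj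
    push_cast
    rw [← pow_add]
    congr 1
    ring
  have hs : Real.sqrt (nj (j + 1)) = Real.sqrt (nj j) * Real.sqrt (2 ^ (2 * j + 1)) := by
    rw [hn, Real.sqrt_mul h2.le]
  have hp : 8 * Real.sqrt ((j : ℝ) + 1) ≤ Real.sqrt (2 ^ (2 * j + 1)) := by
    refine Real.le_sqrt_of_sq_le ?_
    rw [mul_pow, Real.sq_sqrt (by linarith)]
    have := pow_ge j hj
    linarith
  have hsq0 : 0 < Real.sqrt (nj j) := Real.sqrt_pos.2 h2
  have hsp0 : 0 < Real.sqrt ((2 : ℝ) ^ (2 * j + 1)) := Real.sqrt_pos.2 (by positivity)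
  unfold xj rj
  rw [Real.rpow_neg (by linarith), hs, mul_div_assoc', div_le_div_iff₀ (by positivity) hsq0]
  rw [inv_mul_eq_div, le_div_iff₀ hb0]
  calc 8 * Real.log (nj (j + 1)) ^ ((1 : ℝ) / 8) * Real.sqrt (nj j) *
        Real.log (nj j) ^ ((1 : ℝ) / 8)
      = 8 * (Real.log (nj (j + 1)) ^ ((1 : ℝ) / 8) * Real.log (nj j) ^ ((1 : ℝ) / 8)) *
        Real.sqrt (nj j) := by ring
    _ ≤ 8 * Real.sqrt ((j : ℝ) + 1) * Real.sqrt (nj j) := by gcongr
    _ ≤ Real.sqrt (2 ^ (2 * j + 1)) * Real.sqrt (nj j) := by gcongr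
    _ = Real.sqrt (nj j) * Real.sqrt (2 ^ (2 * j + 1)) := by ring

theorem not_sum : ¬ Summable (fun j : ℕ => (xj j / rj j) ^ 2) := by
  intro hsum
  refine Real.not_summable_natCast_inv ?_
  rw [← summable_nat_add_iff 2] at hsum ⊢
  refine Summable.of_nonneg_of_le (fun j => by positivity) (fun j => ?_) hsum
  have h1 := one_le_log (j + 2) (by omega)
  have h2 : (0 : ℝ) < nj (j + 2) := by exact_mod_cast nj_pos (j + 2)
  have hs : 0 < Real.sqrt (nj (j + 2)) := Real.sqrt_pos.2 h2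
  have hl0 : 0 < Real.log (nj (j + 2)) := by linarith
  have hq : xj (j + 2) / rj (j + 2) = Real.log (nj (j + 2)) ^ (-((1 : ℝ) / 4)) := by
    unfold xj rj
    rw [div_div_div_cancel_right₀ hs.ne', ← Real.rpow_sub hl0]
    norm_num
  rw [hq, ← Real.rpow_natCast, ← Real.rpow_mul hl0.le]
  have hl := log_nj_le (j + 2)
  have e1 : (-((1 : ℝ) / 4)) * ((2 : ℕ) : ℝ) = -((1 : ℝ) / 2) := by norm_num
  rw [e1, Real.rpow_neg hl0.le, ← Real.sqrt_eq_rpow]
  have h3 : Real.sqrt (Real.log (nj (j + 2))) ≤ ((j + 2 : ℕ) : ℝ) := by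
    rw [Real.sqrt_le_left (by positivity)]
    exact hl
  exact inv_anti₀ (Real.sqrt_pos.2 hl0) h3

end E50

/-- The end. -/
theorem endA50 {ρ : Measure ℝ} [IsProbabilityMeasure ρ] (hρ : EM ρ) (β : ℝ) : EndA ρ β := by
  intro hH hM
  have hconv : ConvexOn ℝ Set.univ (lam ρ β : Vec 2 → ℝ) := lam_convex two_pos hρ β
  have hnull : ∀ i k N₁ : ℕ, volume {v : Vec 2 | ∃ h : Vec 2,
      Gd ρ β h v (1 / ((i : ℝ) + 1)) (1 / ((i : ℝ) + 1)) ∧ ∀ n : ℕ, N₁ ≤ n →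
        WV ρ β h v n (1 - 1 / ((k : ℝ) + 1)) (Real.log n ^ ((1 : ℝ) / 60))} = 0 := by
    intro i k N₁
    have hi : (0 : ℝ) < 1 / ((i : ℝ) + 1) := by positivity
    have hk : (1 : ℝ) - 1 / ((k : ℝ) + 1) < 1 := by
      have : (0 : ℝ) < 1 / ((k : ℝ) + 1) := by positivity
      linarith
    obtain ⟨N₀, hN₀⟩ := hM (1 - 1 / ((k : ℝ) + 1)) (1 / ((i : ℝ) + 1)) (1 / ((i : ℝ) + 1)) hk hi hi
    refine hH _ E50.xj E50.rj (max 5 (max N₀ N₁)) (fun j hj => ?_) (fun j hj v hv => ?_)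
      E50.not_sum
    · have h5 : 5 ≤ j := (le_max_left _ _).trans hj
      exact ⟨E50.xj_pos j (by omega), E50.xj_le_rj j (by omega), E50.step_rj j h5⟩
    · have h6 : N₀ ≤ j := ((le_max_left _ _).trans (le_max_right _ _)).trans hj
      have h7 : N₁ ≤ j := ((le_max_right _ _).trans (le_max_right _ _)).trans hj
      have h8 := E50.le_nj j
      obtain ⟨z, hz1, hz2⟩ := hN₀ (E50.nj j) (h6.trans h8) _
        (fun v' hv' => by
          obtain ⟨h, h1, h2⟩ := hv'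
          exact ⟨h, h1, h2 _ (h7.trans h8)⟩) v hv
      exact ⟨z, hz1, hz2⟩
  have hae : ∀ᵐ v : Vec 2, ∀ i k N₁ : ℕ, ¬ ∃ h : Vec 2,
      Gd ρ β h v (1 / ((i : ℝ) + 1)) (1 / ((i : ℝ) + 1)) ∧ ∀ n : ℕ, N₁ ≤ n →
        WV ρ β h v n (1 - 1 / ((k : ℝ) + 1)) (Real.log n ^ ((1 : ℝ) / 60)) := by
    refine ae_all_iff.2 fun i => ae_all_iff.2 fun k => ae_all_iff.2 fun N₁ => ?_
    rw [ae_iff]
    refine measure_mono_null (fun v hv => ?_) (hnull i k N₁)
    exact not_not.1 hv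
  filter_upwards [hae, Pool.Agent.W_7d29a1_D2.alJ60 hconv] with v hv hJ h hsub α hα
  by_contra hcon
  rw [not_frequently, eventually_atTop] at hcon
  obtain ⟨N₁, hN₁⟩ := hcon
  obtain ⟨c, hc, δ, hδ, hcur⟩ := hJ h hsub
  obtain ⟨i, hi⟩ := exists_nat_one_div_lt (lt_min hc hδ)
  obtain ⟨k, hk⟩ := exists_nat_one_div_lt (show (0 : ℝ) < 1 - α by linarith)
  refine hv i k (max N₁ 1) ⟨h, ⟨hsub, fun r hr => ?_⟩, fun n hn τ t hτ ht hw => ?_⟩
  · have h1 := hcur r (hr.trans (hi.le.trans (min_le_right _ _)))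
    have h2 : 1 / ((i : ℝ) + 1) ≤ c := hi.le.trans (min_le_left _ _)
    nlinarith [sq_nonneg ‖r‖]
  · by_contra h1
    have hn1 : (1 : ℝ) ≤ n := by
      have : 1 ≤ n := (le_max_right _ _).trans hn
      exact_mod_cast this
    refine hN₁ n ((le_max_left _ _).trans hn) ⟨τ, t, hτ, ht, le_trans ?_ hw, not_le.1 h1⟩
    exact Real.rpow_le_rpow_of_exponent_le hn1 (by linarith)

end Pool.Agent.W_7d29a1_SA
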