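import Pool.Agent.W_7d29a1_SA.DefsOA42
import Pool.Agent.W_7d29a1_SA.EndA50

/-!
Theorem ORIA: the end, from the hole lemma and the main statement.
-/

namespace Pool.Agent.W_7d29a1_SA

open MeasureTheory ProbabilityTheory Filter Topology Pool.Agent.W_MP_7d29a1_pr
  Pool.Agent.W_7d29a1_h46 Pool.Agent.W_7d29a1_h46u Pool.Agent.W_7d29a1_D2.B35
  Pool.Agent.W_7d29a1_Q29 Pool.Agent.W_7d29a1_S90

/-- The end. -/
theorem endOA52 {ρ : Measure ℝ} [IsProbabilityMeasure ρ] (hρ : EM ρ) (β : ℝ) : EndOA ρ β := by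
  intro hH hM
  have hconv : ConvexOn ℝ Set.univ (lam ρ β : Vec 2 → ℝ) := lam_convex two_pos hρ β
  have hnull : ∀ i k N₁ : ℕ, volume {v : Vec 2 | ∃ h : Vec 2,
      Gd ρ β h v (1 / ((i : ℝ) + 1)) (1 / ((i : ℝ) + 1)) ∧ ∀ N : ℕ, N₁ ≤ N →
        WO ρ β h v N (1 - 1 / ((k : ℝ) + 1)) (Real.log N ^ ((1 : ℝ) / 200))} = 0 := by
    intro i k N₁
    have hi : (0 : ℝ) < 1 / ((i : ℝ) + 1) := by positivity
    have hk : (1 : ℝ) - 1 / ((k : ℝ) + 1) < 1 := by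
      have : (0 : ℝ) < 1 / ((k : ℝ) + 1) := by positivity
      linarith
    obtain ⟨N₀, hN₀⟩ := hM (1 - 1 / ((k : ℝ) + 1)) (1 / ((i : ℝ) + 1)) (1 / ((i : ℝ) + 1)) hk hi hi
    refine hH _ E50.xj E50.rj (max 5 (max N₀ N₁)) (fun j hj => ?_) (fun j hj v hv => ?_)
      E50.not_sum
    · have h5 : 5 ≤ j := (le_max_left _ _).trans hj
      exact ⟨E50.xj_pos j (by omega), E50.xj_le_rj j (by omega), E50.step_rj j h5⟩
    · have h6 : N₀ ≤ j := ((le_max_left _ _).trans (le_max_right _ _)).trans hj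
      have h7 : N₁ ≤ j := ((le_max_right _ _).trans (le_max_right _ _)).trans hj
      have h8 := E50.le_nj j
      obtain ⟨z, hz1, hz2⟩ := hN₀ (E50.nj j) (h6.trans h8) _
        (fun v' hv' => by
          obtain ⟨h, h1, h2⟩ := hv'
          exact ⟨h, h1, h2 _ (h7.trans h8)⟩) v hv
      exact ⟨z, hz1, hz2⟩
  have hae : ∀ᵐ v : Vec 2, ∀ i k N₁ : ℕ, ¬ ∃ h : Vec 2,
      Gd ρ β h v (1 / ((i : ℝ) + 1)) (1 / ((i : ℝ) + 1)) ∧ ∀ N : ℕ, N₁ ≤ N →
        WO ρ β h v N (1 - 1 / ((k : ℝ) + 1)) (Real.log N ^ ((1 : ℝ) / 200)) := by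
    refine ae_all_iff.2 fun i => ae_all_iff.2 fun k => ae_all_iff.2 fun N₁ => ?_
    rw [ae_iff]
    refine measure_mono_null (fun v hv => ?_) (hnull i k N₁)
    exact not_not.1 hv
  filter_upwards [hae, Pool.Agent.W_7d29a1_D2.alJ60 hconv] with v hv hJ h hsub α hα
  by_contra hcon
  rw [not_frequently, eventually_atTop] at hcon
  obtain ⟨N₁, hN₁⟩ := hcon
  obtain ⟨c, hc, δ, hδ, hcur⟩ := hJ h hsub
  obtain ⟨i, hi⟩ := exists_nat_one_div_lt (lt_min hc hδ)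
  obtain ⟨α', hα'⟩ : ∃ α' : ℝ, α' = max α (1 / 2) := ⟨_, rfl⟩
  have ha1 : α ≤ α' := by rw [hα']; exact le_max_left _ _
  have ha2 : 1 / 2 ≤ α' := by rw [hα']; exact le_max_right _ _
  have ha3 : α' < 1 := by rw [hα']; exact max_lt hα (by norm_num)
  obtain ⟨k, hk⟩ := exists_nat_one_div_lt (show (0 : ℝ) < 1 - α' by linarith)
  refine hv i k (max (N₁ ^ 2) 1) ⟨h, ⟨hsub, fun r hr => ?_⟩, fun N hN n t ht htn hnN hw => ?_⟩
  · have h1 := hcur r (hr.trans (hi.le.trans (min_le_right _ _)))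
    have h2 : 1 / ((i : ℝ) + 1) ≤ c := hi.le.trans (min_le_left _ _)
    nlinarith [sq_nonneg ‖r‖]
  · by_contra h1
    have hN1 : (1 : ℝ) ≤ N := by
      have : 1 ≤ N := (le_max_right _ _).trans hN
      exact_mod_cast this
    have hN2 : N₁ ^ 2 ≤ N := (le_max_left _ _).trans hN
    have hn1 : (1 : ℝ) ≤ n := by
      have : 1 ≤ n := ht.trans htn
      exact_mod_cast this
    have hnN' : (n : ℝ) ≤ N := by exact_mod_cast hnN
    have htn' : (t : ℝ) ≤ n := by exact_mod_cast htn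
    -- the length is large
    have h2 : (N : ℝ) ^ ((1 : ℝ) / 2) ≤ t := le_trans
      (Real.rpow_le_rpow_of_exponent_le hN1 (by linarith)) hw
    have h3 : (N₁ : ℝ) ≤ (N : ℝ) ^ ((1 : ℝ) / 2) := by
      rw [← Real.sqrt_eq_rpow]
      refine Real.le_sqrt_of_sq_le ?_
      exact_mod_cast hN2
    have h4 : N₁ ≤ n := by
      have : (N₁ : ℝ) ≤ n := h3.trans (h2.trans htn')
      exact_mod_cast this
    have h5 : (n : ℝ) ^ α ≤ t := by
      calc (n : ℝ) ^ α ≤ (n : ℝ) ^ α' := Real.rpow_le_rpow_of_exponent_le hn1 ha1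
        _ ≤ (N : ℝ) ^ α' := Real.rpow_le_rpow (by linarith) hnN' (by linarith)
        _ ≤ (N : ℝ) ^ (1 - 1 / ((k : ℝ) + 1)) :=
          Real.rpow_le_rpow_of_exponent_le hN1 (by linarith)
        _ ≤ t := hw
    refine hN₁ n h4 ⟨t, ht, htn, h5, lt_of_le_of_lt ?_ (not_le.1 h1)⟩
    refine mul_le_mul_of_nonneg_right ?_ (Nat.cast_nonneg t)
    exact Real.rpow_le_rpow (Real.log_nonneg hn1) (Real.log_le_log (by linarith) hnN')
      (by norm_num)

end Pool.Agent.W_7d29a1_SA
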