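import Pool.Agent.W_7d29a1_SA.DefsA13

/-!
Theorems SUPA and ORIA: the geometry (helper13).
-/

namespace Pool.Agent.W_7d29a1_SA

open MeasureTheory ProbabilityTheory Filter Topology Pool.Agent.W_MP_7d29a1_pr
  Pool.Agent.W_7d29a1_h46 Pool.Agent.W_7d29a1_h46u Pool.Agent.W_7d29a1_D2.B35
  Pool.Agent.W_7d29a1_Q29 Pool.Agent.W_7d29a1_S90

variable {d : ℕ} {ρ : Measure ℝ} {β : ℝ}

/-- The tilt is a Lipschitz function of the velocity near a velocity with curvature. -/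
lemma geo13 (hconv : ConvexOn ℝ Set.univ (lam ρ β : Vec d → ℝ)) {h h' v v' : Vec d} {c δ : ℝ}
    (hc : 0 < c) (hδ : 0 < δ) (hg : Gd ρ β h v c δ) (hg' : Gd ρ β h' v' c δ)
    (hv : ‖v' - v‖ < c * δ) : ‖h' - h‖ ≤ ‖v' - v‖ / c := by
  obtain ⟨r, hr⟩ : ∃ r, r = h' - h := ⟨_, rfl⟩
  have hhr : h' = h + r := by rw [hr]; abel
  have h1 : lam ρ β h' - lam ρ β h ≤ inner ℝ v' r := by
    have h2 := hg'.sub h
    have h3 : h - h' = -r := by rw [hr]; abel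
    rw [h3, inner_neg_right] at h2
    linarith
  have hin : inner ℝ (v' - v) r ≤ ‖v' - v‖ * ‖r‖ := real_inner_le_norm _ _
  rw [inner_sub_left] at hin
  rw [← hr]
  rcases le_or_gt ‖r‖ δ with hrδ | hrδ
  · have h2 := hg.cur r hrδ
    rw [← hhr] at h2
    have h3 : c * ‖r‖ ^ 2 ≤ ‖v' - v‖ * ‖r‖ := by linarith
    rcases eq_or_lt_of_le (norm_nonneg r) with h4 | h4
    · rw [← h4]
      positivity
    · rw [le_div_iff₀ hc]
      have h5 : ‖r‖ * (‖r‖ * c) ≤ ‖r‖ * ‖v' - v‖ := by nlinarith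
      exact le_of_mul_le_mul_left h5 h4
  · exfalso
    have hr0 : 0 < ‖r‖ := hδ.trans hrδ
    obtain ⟨s, hs⟩ : ∃ s, s = δ / ‖r‖ := ⟨_, rfl⟩
    have hs0 : 0 < s := by rw [hs]; positivity
    have hs1 : s ≤ 1 := by
      rw [hs, div_le_one hr0]
      exact hrδ.le
    have hsr : ‖s • r‖ = δ := by
      rw [norm_smul, Real.norm_eq_abs, abs_of_pos hs0, hs]
      field_simp
    have h2 := hg.cur (s • r) hsr.le
    rw [hsr, real_inner_smul_right] at h2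
    have h3 := hconv.2 (Set.mem_univ h) (Set.mem_univ h') (sub_nonneg.2 hs1) hs0.le (by ring)
    have h4 : (1 - s) • h + s • h' = h + s • r := by
      rw [hhr, sub_smul, one_smul, smul_add]
      abel
    rw [h4] at h3
    simp only [smul_eq_mul] at h3
    have h5 : s * (lam ρ β h' - lam ρ β h) ≤ s * inner ℝ v' r := mul_le_mul_of_nonneg_left h1 hs0.le
    have h6 : s * (inner ℝ v' r - inner ℝ v r) ≤ s * (‖v' - v‖ * ‖r‖) :=
      mul_le_mul_of_nonneg_left hin hs0.le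
    have h7 : s * (‖v' - v‖ * ‖r‖) = ‖v' - v‖ * δ := by
      rw [hs]
      field_simp
    have h8 : ‖v' - v‖ * δ < c * δ * δ := mul_lt_mul_of_pos_right hv hδ
    nlinarith

/-- The polygon of good velocities, if there is no hole. -/
theorem net13 (hconv : ConvexOn ℝ Set.univ (lam ρ β : Vec d → ℝ)) {c δ : ℝ} (hc : 0 < c)
    (hδ : 0 < δ) {E : Set (Vec d)} {P : Vec d → Vec d → Prop}
    (hE : ∀ v ∈ E, ∃ h : Vec d, Gd ρ β h v c δ ∧ P h v) {v₀ : Vec d} (hv₀ : v₀ ∈ E) {x r : ℝ}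
    (hx : 0 < x) (hnet : ∀ z : Vec d, ‖z - v₀‖ ≤ r → ∃ v' ∈ E, ‖v' - z‖ < x) {e : Vec d}
    (he : ‖e‖ = 1) {J : ℕ} (hJ : J * x ≤ r) (h3 : 3 * x < c * δ) :
    ∃ hs vs : ℕ → Vec d, vs 0 = v₀ ∧ (∀ i : ℕ, i ≤ J → vs i ∈ E ∧ Gd ρ β (hs i) (vs i) c δ ∧
      P (hs i) (vs i) ∧ ‖vs i - (v₀ + ((i : ℝ) * x) • e)‖ ≤ x) ∧
      (∀ i : ℕ, i < J → ‖vs (i + 1) - vs i‖ ≤ 3 * x ∧ ‖hs (i + 1) - hs i‖ ≤ 3 * x / c) ∧
      |inner ℝ e (vs J - vs 0) - J * x| ≤ x := by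
  have hpt : ∀ i : ℕ, ∃ v' : Vec d, (i ≤ J → v' ∈ E ∧ ‖v' - (v₀ + ((i : ℝ) * x) • e)‖ ≤ x) ∧
      (i = 0 → v' = v₀) := by
    intro i
    rcases Nat.eq_zero_or_pos i with h0 | h0
    · refine ⟨v₀, fun _ => ⟨hv₀, ?_⟩, fun _ => rfl⟩
      rw [h0, Nat.cast_zero, zero_mul, zero_smul, add_zero, sub_self, norm_zero]
      exact hx.le
    · by_cases hi : i ≤ J
      · obtain ⟨v', h1, h2⟩ := hnet (v₀ + ((i : ℝ) * x) • e) (by
          rw [add_sub_cancel_left, norm_smul, he, mul_one, Real.norm_eq_abs,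
            abs_of_nonneg (by positivity)]
          refine le_trans (mul_le_mul_of_nonneg_right ?_ hx.le) hJ
          exact_mod_cast hi)
        exact ⟨v', fun _ => ⟨h1, h2.le⟩, fun h => absurd h (by omega)⟩
      · exact ⟨v₀, fun h => absurd h hi, fun _ => rfl⟩
  choose vs hvs hvs0 using hpt
  have hhs : ∀ i : ℕ, ∃ h : Vec d, i ≤ J → Gd ρ β h (vs i) c δ ∧ P h (vs i) := by
    intro i
    by_cases hi : i ≤ J
    · obtain ⟨h, h1⟩ := hE (vs i) (hvs i hi).1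
      exact ⟨h, fun _ => h1⟩
    · exact ⟨0, fun h => absurd h hi⟩
  choose hs hhs using hhs
  have hst : ∀ i : ℕ, i < J → ‖vs (i + 1) - vs i‖ ≤ 3 * x := by
    intro i hi
    have h1 := (hvs i hi.le).2
    have h2 := (hvs (i + 1) hi).2
    have h4 : vs (i + 1) - vs i = (vs (i + 1) - (v₀ + (((i + 1 : ℕ) : ℝ) * x) • e)) +
        (x • e - (vs i - (v₀ + ((i : ℝ) * x) • e))) := by
      push_cast
      rw [add_mul, one_mul, add_smul]
      abel
    have h5 : ‖x • e‖ = x := by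
      rw [norm_smul, he, mul_one, Real.norm_eq_abs, abs_of_pos hx]
    rw [h4]
    have h6 := norm_add_le (vs (i + 1) - (v₀ + (((i + 1 : ℕ) : ℝ) * x) • e))
      (x • e - (vs i - (v₀ + ((i : ℝ) * x) • e)))
    have h7 := norm_sub_le (x • e) (vs i - (v₀ + ((i : ℝ) * x) • e))
    linarith
  refine ⟨hs, vs, hvs0 0 rfl, fun i hi => ⟨(hvs i hi).1, (hhs i hi).1, (hhs i hi).2,
    (hvs i hi).2⟩, fun i hi => ⟨hst i hi, ?_⟩, ?_⟩
  · have h1 := geo13 hconv hc hδ (hhs i hi.le).1 (hhs (i + 1) hi).1 ((hst i hi).trans_lt h3)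
    exact h1.trans (div_le_div_of_nonneg_right (hst i hi) hc.le)
  · have h1 : inner ℝ e (vs J - vs 0) - J * x =
        inner ℝ e (vs J - (v₀ + ((J : ℝ) * x) • e)) := by
      rw [hvs0 0 rfl, inner_sub_right, inner_sub_right, inner_add_right, real_inner_smul_right,
        real_inner_self_eq_norm_sq, he]
      ring
    rw [h1]
    refine (abs_real_inner_le_norm _ _).trans ?_
    rw [he, one_mul]
    exact (hvs J le_rfl).2

/-- The far point. -/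
theorem far13 {c δ : ℝ} {E : Set (Vec d)} {P : Vec d → Vec d → Prop}
    (hE : ∀ v ∈ E, ∃ h : Vec d, Gd ρ β h v c δ ∧ P h v) {v₀ : Vec d} {x r y : ℝ}
    (hnet : ∀ z : Vec d, ‖z - v₀‖ ≤ r → ∃ v' ∈ E, ‖v' - z‖ < x) {e : Vec d}
    (he : ‖e‖ = 1) (hy : 0 ≤ y) (hyr : y ≤ r) :
    ∃ h' v' : Vec d, v' ∈ E ∧ Gd ρ β h' v' c δ ∧ P h' v' ∧ ‖v' - (v₀ + y • e)‖ ≤ x := by
  obtain ⟨v', h1, h2⟩ := hnet (v₀ + y • e) (by
    rw [add_sub_cancel_left, norm_smul, he, mul_one, Real.norm_eq_abs, abs_of_nonneg hy]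
    exact hyr)
  obtain ⟨h', h3, h4⟩ := hE v' h1
  exact ⟨h', v', h1, h3, h4, h2.le⟩

/-- The separation of the far point and a vertex. -/
lemma sep13 {v₀ v v' e : Vec d} {x y i : ℝ} (he : ‖e‖ = 1)
    (hv : ‖v - (v₀ + (i * x) • e)‖ ≤ x) (hv' : ‖v' - (v₀ + y • e)‖ ≤ x) (hi : i * x ≤ y) :
    y - i * x - 2 * x ≤ inner ℝ e (v' - v) ∧ ‖v' - v‖ ≤ y - i * x + 2 * x := by
  have h1 : v' - v = (v' - (v₀ + y • e)) - (v - (v₀ + (i * x) • e)) + (y - i * x) • e := by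
    rw [sub_smul]
    abel
  constructor
  · rw [h1, inner_add_right, inner_sub_right, real_inner_smul_right, real_inner_self_eq_norm_sq,
      he]
    have h2 := (abs_le.1 (abs_real_inner_le_norm e (v' - (v₀ + y • e)))).1
    have h3 := (abs_le.1 (abs_real_inner_le_norm e (v - (v₀ + (i * x) • e)))).2
    rw [he, one_mul] at h2 h3
    linarith
  · rw [h1]
    have h2 := norm_add_le ((v' - (v₀ + y • e)) - (v - (v₀ + (i * x) • e))) ((y - i * x) • e)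
    have h3 := norm_sub_le (v' - (v₀ + y • e)) (v - (v₀ + (i * x) • e))
    have h4 : ‖(y - i * x) • e‖ = y - i * x := by
      rw [norm_smul, he, mul_one, Real.norm_eq_abs, abs_of_nonneg (by linarith)]
    linarith

end Pool.Agent.W_7d29a1_SA
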