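import Pool.Agent.W_7d29a1_SA.DefsA13

/-!
The hole lemma: a set which misses a hole of relative radius `x j / r j` at every scale near each of
its points is null, if the squares are not summable.
-/

namespace Pool.Agent.W_7d29a1_SA.Hol86

open MeasureTheory Filter Topology Metric

variable {V : Type*} [NormedAddCommGroup V] [NormedSpace ℝ V] [FiniteDimensional ℝ V]
  [MeasurableSpace V] [BorelSpace V] (μ : Measure V) [μ.IsAddHaarMeasure]

/-- One scale: double counting. -/
lemma scale86 {F A K : Set V} (hF : MeasurableSet F) (hA : MeasurableSet A) {x r : ℝ}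
    (h1 : ∀ v ∈ F, ∃ z : V, ball z x ⊆ A ∩ closedBall v r)
    (h2 : ∀ v ∈ F, closedBall v r ⊆ K) (hK : MeasurableSet K) :
    μ F * μ (ball (0 : V) x) ≤ μ (A ∩ K) * μ (closedBall (0 : V) r) := by
  set T : Set (V × V) := {p | p.1 ∈ F ∧ p.2 ∈ A ∧ dist p.2 p.1 ≤ r} with hT
  have hTm : MeasurableSet T := by
    refine (measurable_fst hF).inter ((measurable_snd hA).inter ?_)
    exact measurableSet_le (measurable_snd.dist measurable_fst) measurable_const
  have e1 : μ F * μ (ball (0 : V) x) ≤ (μ.prod μ) T := by
    rw [Measure.prod_apply hTm, mul_comm, ← setLIntegral_const, ← lintegral_indicator hF]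
    refine lintegral_mono fun v => ?_
    by_cases hv : v ∈ F
    · rw [Set.indicator_of_mem hv]
      obtain ⟨z, hz⟩ := h1 v hv
      rw [← Measure.addHaar_ball_center μ z x]
      refine measure_mono fun y hy => ?_
      have := hz hy
      exact ⟨hv, this.1, mem_closedBall.1 this.2⟩
    · rw [Set.indicator_of_notMem hv]
      exact bot_le
  refine e1.trans ?_
  rw [Measure.prod_apply_symm hTm, mul_comm, ← setLIntegral_const,
    ← lintegral_indicator (hA.inter hK)]
  refine lintegral_mono fun y => ?_
  by_cases hy : y ∈ A ∩ K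
  · rw [Set.indicator_of_mem hy, ← Measure.addHaar_closedBall_center μ y r]
    refine measure_mono fun v hv => ?_
    rw [mem_closedBall, dist_comm]
    exact hv.2.2
  · rw [Set.indicator_of_notMem hy]
    have : ((fun v => (v, y)) ⁻¹' T : Set V) = ∅ := by
      ext v
      simp only [Set.mem_preimage, Set.mem_empty_iff_false, iff_false]
      intro hv
      exact hy ⟨hv.2.1, h2 v hv.1 (mem_closedBall.2 hv.2.2)⟩
    rw [this, measure_empty]

end Pool.Agent.W_7d29a1_SA.Hol86

namespace Pool.Agent.W_7d29a1_SA

open MeasureTheory Filter Topology Metric Pool.Agent.W_MP_7d29a1_pr Pool.Agent.W_7d29a1_h46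
  Pool.Agent.W_7d29a1_SA.Hol86

/-- **THE HOLE LEMMA.** -/
theorem holP86 : HolP := by
  intro E x r j₀ hxr hE hns
  by_contra h0
  set F : Set (Vec 2) := closure E with hF
  have hFc : IsClosed F := isClosed_closure
  have hFpos : volume F ≠ 0 := fun h => h0 (measure_mono_null subset_closure h)
  have hM : ∃ M : ℕ, volume (F ∩ closedBall 0 (M : ℝ)) ≠ 0 := by
    by_contra hcon
    push Not at hcon
    apply hFpos
    have h1 : F = ⋃ M : ℕ, F ∩ closedBall 0 (M : ℝ) := by
      rw [← Set.inter_iUnion, iUnion_closedBall_nat, Set.inter_univ]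
    rw [h1]
    exact measure_iUnion_null hcon
  obtain ⟨M, hM⟩ := hM
  set G : Set (Vec 2) := F ∩ closedBall 0 (M : ℝ) with hG
  have hGm : MeasurableSet G := hFc.measurableSet.inter isClosed_closedBall.measurableSet
  have hGfin : volume G ≠ ⊤ :=
    ne_top_of_le_ne_top (measure_closedBall_lt_top (μ := volume) (x := (0 : Vec 2)) (r := (M : ℝ))).ne
      (measure_mono Set.inter_subset_right)
  have hGne : F.Nonempty := by
    rw [Set.nonempty_iff_ne_empty]
    intro h
    exact hFpos (by rw [h, measure_empty])
  have hr0 : ∀ j : ℕ, j₀ ≤ j → 0 < r j := fun j hj =>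
    lt_of_lt_of_le (hxr j hj).1 (hxr j hj).2.1
  have hrs : ∀ i j : ℕ, j₀ ≤ i → i < j → 8 * r j ≤ x i := by
    intro i j hi hij
    induction j, hij using Nat.le_induction with
    | base => exact (hxr i hi).2.2
    | succ j hj ih =>
      have h1 : j₀ ≤ j := by omega
      have h2 := (hxr j h1).2.2
      have h3 := (hxr j h1).2.1
      have h4 := (hxr j h1).1
      linarith
  have hrj : ∀ j : ℕ, j₀ ≤ j → r j ≤ r j₀ := by
    intro j hj
    rcases hj.eq_or_lt with h | h
    · rw [h]
    · have h1 := hrs j₀ j le_rfl h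
      have h2 := (hxr j₀ le_rfl).2.1
      have h3 := hr0 j hj
      linarith
  -- the holes of the closure
  have hhole : ∀ j : ℕ, j₀ ≤ j → ∀ v ∈ F, ∃ z : Vec 2, dist z v ≤ 2 * r j ∧
      ∀ v' ∈ F, x j ≤ dist v' z := by
    intro j hj v hv
    obtain ⟨v₀, hv₀, hd⟩ := Metric.mem_closure_iff.1 hv (r j) (hr0 j hj)
    obtain ⟨z, hz1, hz2⟩ := hE j hj v₀ hv₀
    refine ⟨z, ?_, ?_⟩
    · have h1 : dist z v₀ ≤ r j := by
        rw [dist_eq_norm]
        exact hz1
      have h2 := dist_triangle z v₀ v
      rw [dist_comm v₀ v] at h2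
      linarith
    · have h3 : closure E ⊆ {v' : Vec 2 | x j ≤ dist v' z} := by
        refine closure_minimal (fun v' hv' => ?_) ?_
        · show x j ≤ dist v' z
          rw [dist_eq_norm]
          exact hz2 v' hv'
        · exact isClosed_le continuous_const (continuous_id.dist continuous_const)
      exact fun v' hv' => h3 hv'
  set A : ℕ → Set (Vec 2) := fun j => {y | x j / 2 ≤ infDist y F ∧ infDist y F ≤ 3 * r j} with hA
  have hAm : ∀ j, MeasurableSet (A j) := fun j =>
    (measurableSet_le measurable_const (continuous_infDist_pt F).measurable).inter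
      (measurableSet_le (continuous_infDist_pt F).measurable measurable_const)
  set K : Set (Vec 2) := closedBall 0 ((M : ℝ) + 3 * r j₀) with hK
  have hKm : MeasurableSet K := isClosed_closedBall.measurableSet
  have hKfin : volume K ≠ ⊤ := measure_closedBall_lt_top.ne
  set c : ℝ := (volume (ball (0 : Vec 2) 1)).toReal with hc
  have hcfin : volume (ball (0 : Vec 2) 1) ≠ ⊤ := measure_ball_lt_top.ne
  have hc0 : 0 < c := ENNReal.toReal_pos (measure_ball_pos volume (0 : Vec 2) one_pos).ne' hcfin
  have hfr : Module.finrank ℝ (Vec 2) = 2 := finrank_euclideanSpace_fin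
  have hg0 : 0 < (volume G).toReal := ENNReal.toReal_pos hM hGfin
  -- one scale
  have hsc : ∀ j : ℕ, j₀ ≤ j →
      (volume G).toReal * (x j / r j) ^ 2 ≤ 36 * (volume (A j ∩ K)).toReal := by
    intro j hj
    have hx := (hxr j hj).1
    have hxr' := (hxr j hj).2.1
    have hr := hr0 j hj
    have h1 := scale86 (volume : Measure (Vec 2)) (F := G) (A := A j) (K := K) (x := x j / 2)
      (r := 3 * r j) hGm (hAm j) (fun v hv => by
        obtain ⟨z, hz1, hz2⟩ := hhole j hj v hv.1
        refine ⟨z, fun y hy => ?_⟩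
        have hyz : dist y z < x j / 2 := mem_ball.1 hy
        have hyv : dist y v ≤ 3 * r j := by
          have := dist_triangle y z v
          linarith
        refine ⟨⟨?_, ?_⟩, mem_closedBall.2 hyv⟩
        · rw [le_infDist hGne]
          intro v' hv'
          have h2 := hz2 v' hv'
          have h3 := dist_triangle v' y z
          rw [dist_comm v' y] at h3
          linarith
        · exact (infDist_le_dist_of_mem hv.1).trans hyv) (fun v hv y hy => by
        have h2 : dist y v ≤ 3 * r j := mem_closedBall.1 hy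
        have h3 : dist v 0 ≤ (M : ℝ) := mem_closedBall.1 hv.2
        have h4 := dist_triangle y v 0
        have h5 := hrj j hj
        exact mem_closedBall.2 (by linarith)) hKm
    rw [Measure.addHaar_ball volume (0 : Vec 2) (by linarith : (0 : ℝ) ≤ x j / 2),
      Measure.addHaar_closedBall volume (0 : Vec 2) (by linarith : (0 : ℝ) ≤ 3 * r j), hfr] at h1
    have hAfin : volume (A j ∩ K) ≠ ⊤ :=
      ne_top_of_le_ne_top hKfin (measure_mono Set.inter_subset_right)
    have h2 := ENNReal.toReal_mono (ENNReal.mul_ne_top hAfin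
      (ENNReal.mul_ne_top ENNReal.ofReal_ne_top hcfin)) h1
    rw [ENNReal.toReal_mul, ENNReal.toReal_mul, ENNReal.toReal_mul, ENNReal.toReal_mul,
      ENNReal.toReal_ofReal (by positivity), ENNReal.toReal_ofReal (by positivity)] at h2
    have h3 : (volume G).toReal * (x j / 2) ^ 2 ≤
        (volume (A j ∩ K)).toReal * (3 * r j) ^ 2 := by
      refine le_of_mul_le_mul_right ?_ hc0
      calc (volume G).toReal * (x j / 2) ^ 2 * c = (volume G).toReal * ((x j / 2) ^ 2 * c) := by
            ring
        _ ≤ (volume (A j ∩ K)).toReal * ((3 * r j) ^ 2 * c) := h2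
        _ = _ := by ring
    rw [div_pow, ← mul_div_assoc, div_le_iff₀ (by positivity)]
    nlinarith
  -- the sum
  apply hns
  rw [← summable_nat_add_iff j₀]
  refine summable_of_sum_le (c := 36 * (volume K).toReal / (volume G).toReal)
    (fun j => sq_nonneg _) fun u => ?_
  rw [le_div_iff₀ hg0]
  have h4 : ∀ j ∈ u, (x (j + j₀) / r (j + j₀)) ^ 2 * (volume G).toReal ≤
      36 * (volume (A (j + j₀) ∩ K)).toReal := by
    intro j _
    rw [mul_comm]
    exact hsc (j + j₀) (by omega)
  rw [Finset.sum_mul]
  refine (Finset.sum_le_sum h4).trans ?_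
  rw [← Finset.mul_sum]
  refine mul_le_mul_of_nonneg_left ?_ (by norm_num)
  have hdis : Set.PairwiseDisjoint (↑u : Set ℕ) fun j => A (j + j₀) ∩ K := by
    have key : ∀ i j : ℕ, i < j → Disjoint (A (i + j₀) ∩ K) (A (j + j₀) ∩ K) := by
      intro i j hij
      rw [Set.disjoint_left]
      intro y hy hy'
      have h5 := hy.1.1
      have h6 := hy'.1.2
      have h7 := hrs (i + j₀) (j + j₀) (by omega) (by omega)
      have h8 := (hxr (i + j₀) (by omega)).1
      linarith
    intro i _ j _ hij
    rcases lt_or_gt_of_ne hij with h | h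
    · exact key i j h
    · exact (key j i h).symm
  have h9 := measureReal_biUnion_finset (μ := (volume : Measure (Vec 2))) hdis
    (fun j _ => (hAm (j + j₀)).inter hKm)
    (fun j _ => ne_top_of_le_ne_top hKfin (measure_mono Set.inter_subset_right))
  calc ∑ j ∈ u, (volume (A (j + j₀) ∩ K)).toReal =
      (volume : Measure (Vec 2)).real (⋃ j ∈ u, A (j + j₀) ∩ K) := h9.symm
    _ ≤ (volume K).toReal := by
      refine ENNReal.toReal_mono hKfin (measure_mono ?_)
      exact Set.iUnion₂_subset fun j _ => Set.inter_subset_right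

end Pool.Agent.W_7d29a1_SA
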