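import Pool.Agent.W_7d29a1_SA.PolP13
import Pool.Agent.W_7d29a1_SA.GeoOA13
import Pool.Agent.W_7d29a1_S90.MainC45
import Pool.Agent.W_7d29a1_S90.CsT75
import Pool.Agent.W_7d29a1_S90.NumS90
import Pool.Agent.W_7d29a1_D2.AeG6

/-!
Theorem SUPA: the main statement, first part: one vertex and one far point (helper13).
-/

namespace Pool.Agent.W_7d29a1_SA

open MeasureTheory ProbabilityTheory Filter Topology Pool.Agent.W_MP_7d29a1_pr
  Pool.Agent.W_7d29a1_h46 Pool.Agent.W_7d29a1_h46u Pool.Agent.W_7d29a1_D2.B35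
  Pool.Agent.W_7d29a1_Q29 Pool.Agent.W_7d29a1_S90

variable {d n : ℕ} {ρ : Measure ℝ}

/-- The second moment of `⟨D, S_n⟩ - n ⟨D, v⟩`. -/
lemma mv_smD13 [IsProbabilityMeasure ρ] (hd : 0 < d) {β : ℝ} {h v : Vec d} {t : ℕ} {B : ℝ}
    (hB : ∫ η, pe β h η (fun s : Fin n → Step d =>
      ‖emb (pos s t) - (t : ℝ) • v‖ ^ 2) ∂(law d ρ) ≤ B) (D : Vec d) :
    Sm ρ β h D n t (t * inner ℝ D v) ≤ ‖D‖ ^ 2 * B := by
  refine le_trans ?_ (mul_le_mul_of_nonneg_left hB (sq_nonneg _))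
  unfold Sm
  rw [← integral_const_mul]
  refine integral_mono (integrable_pe54 hd β h _) ((integrable_pe54 hd β h _).const_mul _)
    fun η => ?_
  show pe β h η _ ≤ ‖D‖ ^ 2 * pe β h η _
  rw [← pe_mul73]
  refine pe_mono31 hd β h η fun s => ?_
  show (inner ℝ D (emb (pos s t)) - t * inner ℝ D v) ^ 2 ≤ _
  have e1 : inner ℝ D (emb (pos s t)) - t * inner ℝ D v =
      inner ℝ D (emb (pos s t) - (t : ℝ) • v) := by
    rw [inner_sub_right, real_inner_smul_right]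
  rw [e1]
  exact inner_sq13 _ _

/-- The mean is close to the velocity and the variance is bounded. -/
lemma ft_near13 [IsProbabilityMeasure ρ] (hd : 0 < d) (β : ℝ) (h e : Vec d) (t : ℕ) {a Q : ℝ}
    (hQ : Sm ρ β h e n t a ≤ Q ^ 2) (hQ0 : 0 ≤ Q) :
    Sm ρ β h e n t (Ft ρ β h e n t) ≤ Q ^ 2 ∧ |Ft ρ β h e n t - a| ≤ Q := by
  have h1 := sm_eq75 (n := n) (ρ := ρ) hd β h e t a
  have h2 : 0 ≤ Sm ρ β h e n t (Ft ρ β h e n t) := by
    unfold Sm
    refine integral_nonneg fun η => pe_nonneg73 hd β h η fun s => sq_nonneg _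
  constructor
  · nlinarith [sq_nonneg (Ft ρ β h e n t - a)]
  · refine abs_le_of_sq_le_sq ?_ hQ0
    linarith

/-- The upper bound of the variance. -/
theorem upA13 [IsProbabilityMeasure ρ] (hd : 0 < d) {β : ℝ} (hVu : VuT d ρ β)
    {h h' v v' : Vec d} {R : ℝ} (hR : 0 ≤ R)
    (h1 : ∫ η, pe β h η (fun s : Fin n → Step d =>
      ‖emb (pos s n) - (n : ℝ) • v‖ ^ 2) ∂(law d ρ) ≤ R * n)
    (h2 : ∫ η, pe β h' η (fun s : Fin n → Step d =>
      ‖emb (pos s n) - (n : ℝ) • v'‖ ^ 2) ∂(law d ρ) ≤ R * n) :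
    ∫ η, (X β h' η n - X β h η n - (A ρ β h' n - A ρ β h n)) ^ 2 ∂(law d ρ) ≤
      ‖h' - h‖ ^ 2 * (2 * (R * n) + (2 * Real.sqrt (R * n) + n * ‖v' - v‖) ^ 2) := by
  obtain ⟨D, hD⟩ : ∃ D, D = h' - h := ⟨_, rfl⟩
  have hh : h' = h + (1 : ℝ) • D := by rw [hD, one_smul]; abel
  have hRn : 0 ≤ R * n := by positivity
  have hsq : (‖D‖ * Real.sqrt (R * n)) ^ 2 = ‖D‖ ^ 2 * (R * n) := by
    rw [mul_pow, Real.sq_sqrt hRn]
  have h3 := ft_near13 (n := n) (ρ := ρ) hd β h D n (a := n * inner ℝ D v)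
    (Q := ‖D‖ * Real.sqrt (R * n)) (by rw [hsq]; exact mv_smD13 hd h1 D) (by positivity)
  have h4 := ft_near13 (n := n) (ρ := ρ) hd β h' D n (a := n * inner ℝ D v')
    (Q := ‖D‖ * Real.sqrt (R * n)) (by rw [hsq]; exact mv_smD13 hd h2 D) (by positivity)
  have h5 := hVu h D n 1 ((‖D‖ * Real.sqrt (R * n)) ^ 2) zero_le_one h3.1 (by rw [← hh]; exact h4.1)
  rw [← hh] at h5
  refine h5.trans ?_
  have h6 : |Ft ρ β h' D n n - Ft ρ β h D n n| ≤
      ‖D‖ * (2 * Real.sqrt (R * n) + n * ‖v' - v‖) := by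
    have h7 : |(n : ℝ) * inner ℝ D v' - n * inner ℝ D v| ≤ n * (‖D‖ * ‖v' - v‖) := by
      rw [← mul_sub, ← inner_sub_right, abs_mul, Nat.abs_cast]
      exact mul_le_mul_of_nonneg_left (abs_real_inner_le_norm _ _) (Nat.cast_nonneg n)
    have h8 : Ft ρ β h' D n n - Ft ρ β h D n n = (Ft ρ β h' D n n - n * inner ℝ D v') -
        (Ft ρ β h D n n - n * inner ℝ D v) + (n * inner ℝ D v' - n * inner ℝ D v) := by ring
    rw [h8]
    have h9 := abs_add_le ((Ft ρ β h' D n n - n * inner ℝ D v') -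
        (Ft ρ β h D n n - n * inner ℝ D v)) (n * inner ℝ D v' - n * inner ℝ D v)
    have h10 := abs_sub (Ft ρ β h' D n n - n * inner ℝ D v')
        (Ft ρ β h D n n - n * inner ℝ D v)
    have h11 := h3.2
    have h12 := h4.2
    linarith
  have h7 : (Ft ρ β h' D n n - Ft ρ β h D n n) ^ 2 ≤
      (‖D‖ * (2 * Real.sqrt (R * n) + n * ‖v' - v‖)) ^ 2 := by
    rw [← sq_abs]
    exact pow_le_pow_left₀ (abs_nonneg _) h6 2
  rw [← hD, hsq, one_pow, one_mul]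
  rw [mul_pow] at h7
  linarith

/-- One vertex and one far point. -/
theorem coreA13 [IsProbabilityMeasure ρ] (hd : 0 < d) {β : ℝ} (hJe : JeT) (hSt : StM d ρ β)
    (hVu : VuT d ρ β) {cL CL : ℝ} (hcL : 0 < cL) (hcL1 : cL ≤ 1) (hCL : 0 ≤ CL)
    (hLo : ∀ (h h' : Vec d) (n : ℕ) (T : Finset ℕ), T ⊆ Finset.Icc 1 n →
      ∑ t ∈ T, ∫ η, ∑ y ∈ boxF d n, aw ρ β h h' n t cL CL y η ^ 2 ∂(law d ρ) ≤
        ∫ η, (X β h η n - X β h' η n - (A ρ β h n - A ρ β h' n)) ^ 2 ∂(law d ρ))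
    {h h' v v' e : Vec d} (he : ‖e‖ = 1) {R b c γ E : ℝ} (hn : 1 ≤ n) (hR : 1 ≤ R) (hc : 0 < c)
    (h1 : MV ρ β h v n R) (h2 : MV ρ β h' v' n R) (hb : 16 * Real.sqrt R ≤ b)
    (hvb : b / (2 * Real.sqrt n) ≤ inner ℝ e (v' - v)) (hvn : ‖v' - v‖ ≤ 2 * b / Real.sqrt n)
    (hh : ‖h' - h‖ ≤ ‖v' - v‖ / c) (hγ : 0 < γ) (hγ1 : γ ≤ 1) (hE : 0 ≤ E)
    (hka : 1024 * R * (cL + CL) ≤ cL * γ * b ^ 2) {T : Finset ℕ} (hT : T ⊆ Finset.Icc 1 n)
    (hTt : ∀ t ∈ T, n ≤ 2 * t) (hH : ∀ t ∈ T, En ρ β h n t (t - 1) ≤ (1 - γ) * Real.log n + E) :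
    (T.card : ℝ) * (cL / 2 * Real.exp (-((1 - γ / 2) * Real.log n + 2 * E + 2 / cL))) ≤
      20 * b ^ 4 / c ^ 2 := by
  have hn' : (1 : ℝ) ≤ n := by exact_mod_cast hn
  have hn0 : (0 : ℝ) < n := by linarith
  have hR0 : 0 < R := by linarith
  obtain ⟨s, hs⟩ : ∃ s, s = Real.sqrt n := ⟨_, rfl⟩
  have hs0 : 0 < s := by rw [hs]; positivity
  have hs2 : s ^ 2 = n := by rw [hs, Real.sq_sqrt hn0.le]
  have hsR : 0 < Real.sqrt R := Real.sqrt_pos.2 hR0
  have hb0 : 0 < b := by linarith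
  have hb2 : 256 * R ≤ b ^ 2 := by
    have h3 := pow_le_pow_left₀ (by positivity) hb 2
    rw [mul_pow, Real.sq_sqrt hR0.le] at h3
    linarith
  rw [← hs] at hvb hvn
  have hsqRn : Real.sqrt (R * n) ≤ b * s / 16 := by
    rw [Real.sqrt_mul hR0.le, ← hs]
    have h3 := mul_le_mul_of_nonneg_right hb hs0.le
    linarith
  have hsqRn0 : 0 ≤ Real.sqrt (R * n) := Real.sqrt_nonneg _
  -- the rows
  have hrow : ∀ t ∈ T, cL / 2 * Real.exp (-((1 - γ / 2) * Real.log n + 2 * E + 2 / cL)) ≤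
      ∫ η, ∑ y ∈ boxF d n, aw ρ β h h' n t cL CL y η ^ 2 ∂(law d ρ) := by
    intro t ht
    have h1t : 1 ≤ t := (Finset.mem_Icc.1 (hT ht)).1
    have htn : t ≤ n := (Finset.mem_Icc.1 (hT ht)).2
    have htn' : (t : ℝ) ≤ n := by exact_mod_cast htn
    have h2t : (n : ℝ) ≤ 2 * t := by exact_mod_cast hTt t ht
    have hRt : R * t ≤ Real.sqrt (R * n) ^ 2 := by
      rw [Real.sq_sqrt (by positivity)]
      exact mul_le_mul_of_nonneg_left htn' hR0.le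
    have h3 := ft_near13 (n := n) (ρ := ρ) hd β h e t (a := t * inner ℝ e v)
      (Q := Real.sqrt (R * n)) ((mv_sm13 hd he (h1 t (hTt t ht) htn)).trans hRt) hsqRn0
    have h4 := ft_near13 (n := n) (ρ := ρ) hd β h' e t (a := t * inner ℝ e v')
      (Q := Real.sqrt (R * n)) ((mv_sm13 hd he (h2 t (hTt t ht) htn)).trans hRt) hsqRn0
    rw [Real.sq_sqrt (by positivity)] at h3 h4
    refine low45 hd hJe hSt he h1t htn hcL hcL1 hCL (c := 1) (k := b / (4 * s)) one_pos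
      (by positivity) hγ hγ1 (Real.log_nonneg hn') hE h3.1 h4.1 ?_ ?_ (hH t ht)
    · have h5 : (t : ℝ) * inner ℝ e v' - t * inner ℝ e v = t * inner ℝ e (v' - v) := by
        rw [inner_sub_right]
        ring
      have h6 : b * s / 4 ≤ t * inner ℝ e (v' - v) := by
        have h7 : (t : ℝ) * (b / (2 * s)) ≤ t * inner ℝ e (v' - v) :=
          mul_le_mul_of_nonneg_left hvb (Nat.cast_nonneg t)
        refine le_trans ?_ h7
        rw [mul_div_assoc', div_le_div_iff₀ (by norm_num) (by positivity)]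
        have h8 : b * s * (2 * s) = 2 * b * s ^ 2 := by ring
        rw [h8, hs2]
        nlinarith
      have h7 : 1 * (b / (4 * s)) / 2 * n = b * s / 8 := by
        rw [← hs2]
        field_simp
        ring
      rw [h7]
      have h8 := abs_le.1 h3.2
      have h9 := abs_le.1 h4.2
      have h10 : Ft ρ β h' e n t - Ft ρ β h e n t ≤ |Ft ρ β h e n t - Ft ρ β h' e n t| := by
        rw [abs_sub_comm]
        exact le_abs_self _
      linarith [h8.1, h8.2, h9.1, h9.2]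
    · have h5 : (b / (4 * s)) ^ 2 * n = b ^ 2 / 16 := by
        rw [← hs2]
        field_simp
        ring
      rw [h5]
      nlinarith
  have h3 : (T.card : ℝ) * (cL / 2 * Real.exp (-((1 - γ / 2) * Real.log n + 2 * E + 2 / cL))) ≤
      ∑ t ∈ T, ∫ η, ∑ y ∈ boxF d n, aw ρ β h h' n t cL CL y η ^ 2 ∂(law d ρ) := by
    rw [← nsmul_eq_mul]
    exact Finset.card_nsmul_le_sum T _ _ hrow
  refine h3.trans ((hLo h h' n T hT).trans ?_)
  have h4 : ∫ η, (X β h η n - X β h' η n - (A ρ β h n - A ρ β h' n)) ^ 2 ∂(law d ρ) =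
      ∫ η, (X β h' η n - X β h η n - (A ρ β h' n - A ρ β h n)) ^ 2 ∂(law d ρ) := by
    refine integral_congr_ae (Eventually.of_forall fun η => ?_)
    show (X β h η n - X β h' η n - (A ρ β h n - A ρ β h' n)) ^ 2 =
      (X β h' η n - X β h η n - (A ρ β h' n - A ρ β h n)) ^ 2
    ring
  rw [h4]
  refine (upA13 hd hVu hR0.le (h1 n (by omega) le_rfl) (h2 n (by omega) le_rfl)).trans ?_
  have h5 : (n : ℝ) * ‖v' - v‖ ≤ 2 * b * s := by
    refine (mul_le_mul_of_nonneg_left hvn hn0.le).trans (le_of_eq ?_)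
    rw [← hs2]
    field_simp
  have h6 : 2 * (R * n) + (2 * Real.sqrt (R * n) + n * ‖v' - v‖) ^ 2 ≤ 5 * b ^ 2 * n := by
    have h7 : 2 * Real.sqrt (R * n) + n * ‖v' - v‖ ≤ 17 / 8 * (b * s) := by linarith
    have h8 : (2 * Real.sqrt (R * n) + n * ‖v' - v‖) ^ 2 ≤ (17 / 8 * (b * s)) ^ 2 :=
      pow_le_pow_left₀ (by positivity) h7 2
    have h9 : (17 / 8 * (b * s)) ^ 2 = 289 / 64 * b ^ 2 * n := by
      rw [← hs2]
      ring
    rw [h9] at h8
    have h10 : R * n ≤ b ^ 2 / 256 * n := mul_le_mul_of_nonneg_right (by linarith) hn0.le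
    nlinarith [mul_nonneg (sq_nonneg b) hn0.le]
  have h7 : ‖h' - h‖ ^ 2 ≤ 4 * b ^ 2 / (c ^ 2 * n) := by
    have h8 : ‖h' - h‖ ≤ 2 * b / (c * s) := by
      refine hh.trans ?_
      rw [div_le_div_iff₀ hc (by positivity)]
      have h9 := mul_le_mul_of_nonneg_right hvn (by positivity : 0 ≤ c * s)
      refine h9.trans (le_of_eq ?_)
      field_simp
    refine (pow_le_pow_left₀ (norm_nonneg _) h8 2).trans (le_of_eq ?_)
    rw [← hs2]
    ring
  calc ‖h' - h‖ ^ 2 * (2 * (R * n) + (2 * Real.sqrt (R * n) + n * ‖v' - v‖) ^ 2)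
      ≤ 4 * b ^ 2 / (c ^ 2 * n) * (5 * b ^ 2 * n) := by gcongr
    _ = 20 * b ^ 4 / c ^ 2 := by
        field_simp
        ring

end Pool.Agent.W_7d29a1_SA
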