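import Pool.Agent.W_7d29a1_SA.MainA13

/-!
Theorem SUPA: the main statement, second part: the numbers (helper13).
-/

namespace Pool.Agent.W_7d29a1_SA

open MeasureTheory ProbabilityTheory Filter Topology Pool.Agent.W_MP_7d29a1_pr
  Pool.Agent.W_7d29a1_h46 Pool.Agent.W_7d29a1_h46u Pool.Agent.W_7d29a1_D2.B35
  Pool.Agent.W_7d29a1_Q29 Pool.Agent.W_7d29a1_S90

/-- The final inequality. -/
lemma num13 {cI CI cL κ c A : ℝ} (hcI : 0 < cI) (hCI : 0 ≤ CI) (hcL : 0 < cL) (hκ : 0 < κ)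
    (hc : 0 < c) : ∃ R₀ : ℝ, 1 ≤ R₀ ∧ ∀ R : ℝ, R₀ ≤ R → ∀ n : ℝ, 0 < n →
      Real.log n = R ^ 60 → 20 * (A * R ^ 7) ^ 4 / c ^ 2 < κ / R ^ 2 * n * (cL / 2 *
        Real.exp (-((1 - cI * κ ^ 6 / R ^ 13 / 2) * Real.log n +
          2 * (CI * (1 + Real.log R + Real.log (1 / (κ / R ^ 2)))) + 2 / cL))) := by
  set K : ℝ := κ * cL / 2 * Real.exp (-(2 * CI * (1 - Real.log κ) + 2 / cL)) with hK
  have hK0 : 0 < K := by positivity
  obtain ⟨R₀, hR₀, h⟩ := exp_beats (cI * κ ^ 6 / 2) (30 + 6 * CI) (20 * A ^ 4 / c ^ 2 / K)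
    (by positivity)
  refine ⟨R₀, hR₀, fun R hR n hn hlog => ?_⟩
  have hR1 : 1 ≤ R := hR₀.trans hR
  have hR0 : 0 < R := by linarith
  have h1 := h R hR
  rw [div_mul_eq_mul_div, div_lt_iff₀ hK0] at h1
  have e1 : R ^ (30 + 6 * CI) = R ^ 30 * R ^ (6 * CI) := by
    rw [Real.rpow_add hR0]
    congr 1
    exact_mod_cast Real.rpow_natCast R 30
  have hP : 0 < R ^ (6 * CI) := Real.rpow_pos_of_pos hR0 _
  have e2 : Real.log (1 / (κ / R ^ 2)) = 2 * Real.log R - Real.log κ := by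
    rw [one_div_div, Real.log_div (by positivity) (by positivity), Real.log_pow]
    norm_num
  have e3 : n * Real.exp (-((1 - cI * κ ^ 6 / R ^ 13 / 2) * Real.log n +
      2 * (CI * (1 + Real.log R + Real.log (1 / (κ / R ^ 2)))) + 2 / cL)) =
      Real.exp (cI * κ ^ 6 / 2 * R ^ 47) * Real.exp (-(2 * CI * (1 - Real.log κ) + 2 / cL)) /
        R ^ (6 * CI) := by
    have e4 : n * Real.exp (-((1 - cI * κ ^ 6 / R ^ 13 / 2) * Real.log n +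
      2 * (CI * (1 + Real.log R + Real.log (1 / (κ / R ^ 2)))) + 2 / cL)) =
      Real.exp (Real.log n + (-((1 - cI * κ ^ 6 / R ^ 13 / 2) * Real.log n +
      2 * (CI * (1 + Real.log R + Real.log (1 / (κ / R ^ 2)))) + 2 / cL))) := by
      rw [Real.exp_add, Real.exp_log hn]
    rw [e4, e2, hlog, Real.rpow_def_of_pos hR0, ← Real.exp_add, ← Real.exp_sub]
    congr 1
    field_simp
    ring
  have e5 : κ / R ^ 2 * n * (cL / 2 * Real.exp (-((1 - cI * κ ^ 6 / R ^ 13 / 2) * Real.log n +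
      2 * (CI * (1 + Real.log R + Real.log (1 / (κ / R ^ 2)))) + 2 / cL))) =
      κ / R ^ 2 * (cL / 2) * (n * Real.exp (-((1 - cI * κ ^ 6 / R ^ 13 / 2) * Real.log n +
      2 * (CI * (1 + Real.log R + Real.log (1 / (κ / R ^ 2)))) + 2 / cL))) := by ring
  rw [e5, e3]
  have e6 : κ / R ^ 2 * (cL / 2) * (Real.exp (cI * κ ^ 6 / 2 * R ^ 47) *
      Real.exp (-(2 * CI * (1 - Real.log κ) + 2 / cL)) / R ^ (6 * CI)) =
      Real.exp (cI * κ ^ 6 / 2 * R ^ 47) * K / (R ^ 2 * R ^ (6 * CI)) := by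
    rw [hK]
    field_simp
  rw [e6, lt_div_iff₀ (by positivity)]
  have h2 : Real.exp (cI * κ ^ 6 / 2 * R ^ 2) ≤ Real.exp (cI * κ ^ 6 / 2 * R ^ 47) := by
    refine Real.exp_le_exp.2 (mul_le_mul_of_nonneg_left ?_ (by positivity))
    exact pow_le_pow_right₀ hR1 (by norm_num)
  have h3 := mul_le_mul_of_nonneg_right h2 hK0.le
  refine lt_of_le_of_lt ?_ (h1.trans_le h3)
  rw [e1]
  exact le_of_eq (by ring)

/-- The powers of the logarithm. -/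
lemma pow13 {L R : ℝ} (hL : 1 ≤ L) (hR : R = L ^ ((1 : ℝ) / 60)) :
    1 ≤ R ∧ R ^ 60 = L ∧ L ^ ((1 : ℝ) / 8) = R ^ 7 * Real.sqrt R := by
  have hL0 : 0 < L := by linarith
  have hR1 : 1 ≤ R := by
    rw [hR]
    exact Real.one_le_rpow hL (by norm_num)
  have hR0 : 0 < R := by linarith
  have h1 : R ^ 60 = L := by
    rw [hR, ← Real.rpow_natCast, ← Real.rpow_mul hL0.le]
    norm_num
  refine ⟨hR1, h1, ?_⟩
  have h2 : R ^ 7 * Real.sqrt R = R ^ ((15 : ℝ) / 2) := by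
    rw [Real.sqrt_eq_rpow, ← Real.rpow_natCast, ← Real.rpow_add hR0]
    norm_num
  rw [h2, hR, ← Real.rpow_mul hL0.le]
  norm_num

/-- What holds for all large `n`. -/
lemma large13 {α c δ R₁ : ℝ} (hα : α < 1) (hc : 0 < c) (hδ : 0 < δ) : ∃ N₀ : ℕ, ∀ n : ℕ,
    N₀ ≤ n → 1 ≤ n ∧ 1 ≤ Real.log n ∧ R₁ ≤ Real.log n ^ ((1 : ℝ) / 60) ∧
      (n : ℝ) ^ α ≤ n / 2 ∧ 3 * Real.log n ^ ((1 : ℝ) / 8) < c * δ * Real.sqrt n := by
  have hlog : Tendsto (fun n : ℕ => Real.log (n : ℝ)) atTop atTop :=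
    Real.tendsto_log_atTop.comp tendsto_natCast_atTop_atTop
  have h1 := hlog.eventually (eventually_ge_atTop 1)
  have h2 := ((tendsto_rpow_atTop (by norm_num : (0 : ℝ) < 1 / 60)).comp hlog).eventually
    (eventually_ge_atTop R₁)
  have h3 := ((tendsto_rpow_atTop (by linarith : 0 < 1 - α)).comp
    tendsto_natCast_atTop_atTop).eventually (eventually_ge_atTop (2 : ℝ))
  have h4 := tendsto_natCast_atTop_atTop.eventually
    ((isLittleO_log_rpow_rpow_atTop ((1 : ℝ) / 8) (by norm_num : (0 : ℝ) < 1 / 2)).bound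
      (by positivity : 0 < c * δ / 4))
  obtain ⟨N₀, hN⟩ := eventually_atTop.1 ((((eventually_ge_atTop 1).and h1).and
    (h2.and h3)).and h4)
  refine ⟨N₀, fun n hn => ?_⟩
  obtain ⟨⟨⟨g0, g1⟩, g2, g3⟩, g4⟩ := hN n hn
  have hn0 : (0 : ℝ) < n := by exact_mod_cast g0
  refine ⟨g0, g1, g2, ?_, ?_⟩
  · simp only [Function.comp] at g3
    rw [Real.rpow_sub hn0, Real.rpow_one, le_div_iff₀ (Real.rpow_pos_of_pos hn0 _)] at g3
    linarith
  · rw [Real.norm_eq_abs, Real.norm_eq_abs, abs_of_nonneg (by positivity),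
      abs_of_nonneg (by positivity), ← Real.sqrt_eq_rpow] at g4
    have hs : 0 < Real.sqrt n := Real.sqrt_pos.2 hn0
    have h5 : 0 < c * δ * Real.sqrt n := by positivity
    nlinarith

/-- The sizes. -/
lemma size13 {R q K A B ε : ℝ} (hq0 : 0 ≤ q) (hq2 : q ^ 2 = R) (hR1 : 1 ≤ R) (hK1 : 1 ≤ K)
    (hRK : 3 * K ^ 2 ≤ R) (hA1 : 16 ≤ A) (hAK : 2 * (K + 4) ≤ A) (hRA : A ^ 2 ≤ R)
    (hB : B = R ^ 7 * q) (hε : ε = 1 / B) :
    0 < B ∧ 0 < ε ∧ 3 * ε ≤ 1 ∧ 1 ≤ K * q ∧ K * q + 4 * ε ≤ A * R ^ 7 / 2 ∧ A * R ^ 7 ≤ B ∧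
      16 * q ≤ A * R ^ 7 ∧ K ^ 2 * (3 * ε) * R ^ 2 ≤ 1 := by
  have hR0 : 0 < R := by linarith
  have hA0 : 0 < A := by linarith
  have hqA : A ≤ q := abs_le_of_sq_le_sq' (by rw [hq2]; exact hRA) hq0 |>.2
  have hq1 : 1 ≤ q := by linarith
  have hqR : q ≤ R := by
    rw [← hq2]
    nlinarith only [hq1]
  have hR7 : R ≤ R ^ 7 := le_self_pow₀ hR1 (by norm_num)
  have hR70 : 0 < R ^ 7 := by positivity
  have hB1 : R ^ 7 ≤ B := by
    rw [hB]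
    exact le_mul_of_one_le_right hR70.le hq1
  have hB0 : 0 < B := lt_of_lt_of_le hR70 hB1
  have hε0 : 0 < ε := by rw [hε]; positivity
  have hεR : ε * R ^ 7 ≤ 1 := by
    rw [hε, one_div_mul_eq_div, div_le_one hB0]
    exact hB1
  have hR3 : 3 ≤ R := by nlinarith only [hRK, hK1]
  have hε3 : 3 * ε ≤ 1 := by
    have h1 : ε * 3 ≤ ε * R ^ 7 := mul_le_mul_of_nonneg_left (by linarith) hε0.le
    linarith
  have hq7 : q ≤ R ^ 7 := hqR.trans hR7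
  have h17 : 1 ≤ R ^ 7 := by linarith
  refine ⟨hB0, hε0, hε3, ?_, ?_, ?_, ?_, ?_⟩
  · nlinarith only [hq1, hK1]
  · have h1 : K * q ≤ K * R ^ 7 := mul_le_mul_of_nonneg_left hq7 (by linarith)
    have h2 : 2 * (K + 4) * R ^ 7 ≤ A * R ^ 7 := mul_le_mul_of_nonneg_right hAK hR70.le
    nlinarith only [h1, h2, hε3, h17]
  · rw [hB, mul_comm]
    exact mul_le_mul_of_nonneg_left hqA hR70.le
  · have h2 : 16 * R ^ 7 ≤ A * R ^ 7 := mul_le_mul_of_nonneg_right hA1 hR70.le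
    linarith
  · have h1 : K ^ 2 * (3 * ε) * R ^ 2 = 3 * K ^ 2 * (ε * R ^ 2) := by ring
    have h2 : ε * R ^ 3 ≤ 1 := by
      refine le_trans (mul_le_mul_of_nonneg_left ?_ hε0.le) hεR
      exact pow_le_pow_right₀ hR1 (by norm_num)
    rw [h1]
    have h3 : 0 ≤ ε * R ^ 2 := by positivity
    calc 3 * K ^ 2 * (ε * R ^ 2) ≤ R * (ε * R ^ 2) := mul_le_mul_of_nonneg_right hRK h3
      _ = ε * R ^ 3 := by ring
      _ ≤ 1 := h2

/-- The number of steps. -/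
lemma steps13 {u ε : ℝ} (hu : 0 ≤ u) (hε0 : 0 < ε) : ∃ J : ℕ, u + ε ≤ J * ε ∧
    J * ε ≤ u + 2 * ε := by
  refine ⟨⌈u / ε + 1⌉₊, ?_, ?_⟩
  · have h1 := mul_le_mul_of_nonneg_right (Nat.le_ceil (u / ε + 1)) hε0.le
    refine le_trans (le_of_eq ?_) h1
    field_simp
  · have h1 := mul_le_mul_of_nonneg_right
      (Nat.ceil_lt_add_one (by positivity : 0 ≤ u / ε + 1)).le hε0.le
    refine h1.trans (le_of_eq ?_)
    field_simp
    ring

/-- The information. -/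
lemma info13 {R κ κ' cI cI' CI γ E cL CL A : ℝ} (hR1 : 1 ≤ R) (hκ : 0 < κ) (hκ1 : κ ≤ 1)
    (hκ' : κ' = κ / R ^ 2) (hcI : 0 < cI) (hcI1 : cI ≤ 1) (hcIle : cI ≤ cI') (hCI : 0 ≤ CI)
    (hγ : γ = cI * κ ^ 6 / R ^ 13) (hE : E = CI * (1 + Real.log R + Real.log (1 / κ')))
    (hcL : 0 < cL) (hQ : 1024 * (cL + CL) / (cL * cI * κ ^ 6) ≤ A ^ 2) :
    0 < κ' ∧ κ' ≤ 1 ∧ 0 < γ ∧ γ ≤ 1 ∧ 0 ≤ E ∧ γ ≤ cI' * κ' ^ 6 / R ∧
      1024 * R * (cL + CL) ≤ cL * γ * (A * R ^ 7) ^ 2 := by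
  have hR0 : 0 < R := by linarith
  have hκ'0 : 0 < κ' := by rw [hκ']; positivity
  have hκ'1 : κ' ≤ 1 := by
    rw [hκ', div_le_one (by positivity)]
    exact hκ1.trans (one_le_pow₀ hR1)
  refine ⟨hκ'0, hκ'1, by rw [hγ]; positivity, ?_, ?_, ?_, ?_⟩
  · rw [hγ, div_le_one (by positivity)]
    have h1 : κ ^ 6 ≤ 1 := pow_le_one₀ hκ.le hκ1
    have h2 : 1 ≤ R ^ 13 := one_le_pow₀ hR1
    have h3 : cI * κ ^ 6 ≤ 1 * 1 := mul_le_mul hcI1 h1 (by positivity) zero_le_one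
    linarith
  · rw [hE]
    have h1 := Real.log_nonneg hR1
    have h2 : 0 ≤ Real.log (1 / κ') := Real.log_nonneg (by
      rw [le_div_iff₀ hκ'0]
      linarith)
    positivity
  · rw [hγ, hκ']
    have h6 : cI' * (κ / R ^ 2) ^ 6 / R = cI' * κ ^ 6 / R ^ 13 := by
      field_simp
    rw [h6]
    gcongr
  · have h1 : cL * γ * (A * R ^ 7) ^ 2 = cL * cI * κ ^ 6 * A ^ 2 * R := by
      rw [hγ]
      field_simp
    have h2 : 1024 * (cL + CL) ≤ cL * cI * κ ^ 6 * A ^ 2 := by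
      have h3 := mul_le_mul_of_nonneg_left hQ (by positivity : 0 ≤ cL * cI * κ ^ 6)
      refine le_trans (le_of_eq ?_) h3
      field_simp
    rw [h1]
    have h4 := mul_le_mul_of_nonneg_right h2 hR0.le
    linarith

end Pool.Agent.W_7d29a1_SA
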