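import Pool.Agent.W_7d29a1_SA.MainB13

/-!
Theorem SUPA: the main statement (helper13).
-/

namespace Pool.Agent.W_7d29a1_SA

open MeasureTheory ProbabilityTheory Filter Topology Pool.Agent.W_MP_7d29a1_pr
  Pool.Agent.W_7d29a1_h46 Pool.Agent.W_7d29a1_h46u Pool.Agent.W_7d29a1_D2.B35
  Pool.Agent.W_7d29a1_Q29 Pool.Agent.W_7d29a1_S90

/-- The polygon and the far point, if there is no hole. -/
lemma poly13 {ρ : Measure ℝ} {β : ℝ} (hconv : ConvexOn ℝ Set.univ (lam ρ β : Vec 2 → ℝ))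
    {c δ s ε B A R q K : ℝ} {P : Vec 2 → Vec 2 → Prop} {E : Set (Vec 2)} {v₀ : Vec 2}
    (hc : 0 < c) (hδ : 0 < δ) (hs0 : 0 < s) (hε0 : 0 < ε)
    (hE : ∀ v ∈ E, ∃ h : Vec 2, Gd ρ β h v c δ ∧ P h v) (hv₀ : v₀ ∈ E)
    (hcon : ∀ z : Vec 2, ‖z - v₀‖ ≤ B / s → ∃ v' ∈ E, ‖v' - z‖ < ε / s)
    (hε3 : 3 * ε ≤ 1) (hKq1 : 1 ≤ K * q) (hKq : K * q + 4 * ε ≤ A * R ^ 7 / 2)
    (hAB : A * R ^ 7 ≤ B) (hsmall : 3 * B < c * δ * s) :
    ∃ (J : ℕ) (hs vs : ℕ → Vec 2) (b : ℝ) (h' v' : Vec 2), b = s * inner ℝ (ej 0) (vs J - vs 0) ∧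
      K * q ≤ b ∧ b ≤ 2 * K * q ∧ J * (3 * ε) ≤ 4 * b ∧ P h' v' ∧
      (∀ i : ℕ, i ≤ J → P (hs i) (vs i) ∧ A * R ^ 7 / (2 * s) ≤ inner ℝ (ej 0) (v' - vs i) ∧
        ‖v' - vs i‖ ≤ 2 * (A * R ^ 7) / s ∧ ‖h' - hs i‖ ≤ ‖v' - vs i‖ / c) ∧
      (∀ i : ℕ, i < J → ‖hs (i + 1) - hs i‖ ≤ max 1 (1 / c) * (3 * ε) / s ∧
        ‖vs (i + 1) - vs i‖ ≤ 3 * ε / s) := by
  obtain ⟨x, hx⟩ : ∃ x, x = ε / s := ⟨_, rfl⟩
  have hx0 : 0 < x := by rw [hx]; positivity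
  have hxs : x * s = ε := by
    rw [hx]
    field_simp
  rw [← hx] at hcon
  obtain ⟨J, hJ1, hJ2⟩ := steps13 (u := K * q) (by linarith) hε0
  obtain ⟨y, hy⟩ : ∃ y, y = A * R ^ 7 / s := ⟨_, rfl⟩
  have hys : y * s = A * R ^ 7 := by
    rw [hy]
    field_simp
  have hyr : y ≤ B / s := by
    rw [hy]
    exact div_le_div_of_nonneg_right hAB hs0.le
  have hJx0 : (0 : ℝ) ≤ J * x := by positivity
  have hJxy : J * x + 2 * x ≤ y / 2 := by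
    have h1 : (J * x + 2 * x) * s ≤ y / 2 * s := by
      have h2 : (J * x + 2 * x) * s = J * ε + 2 * ε := by rw [← hxs]; ring
      have h3 : y / 2 * s = A * R ^ 7 / 2 := by rw [← hys]; ring
      rw [h2, h3]
      linarith only [hJ2, hKq]
    exact le_of_mul_le_mul_right h1 hs0
  have hy0 : 0 ≤ y := by linarith only [hJxy, hJx0, hx0]
  have hJr : J * x ≤ B / s := by linarith only [hJxy, hyr, hx0, hy0]
  have h3B : 3 * (B / s) < c * δ := by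
    rw [← mul_div_assoc, div_lt_iff₀ hs0]
    exact hsmall
  have h2y : 2 * y < c * δ := by linarith only [h3B, hyr, hy0]
  have h3x : 3 * x < c * δ := by linarith only [h2y, hJxy, hJx0, hx0]
  have he : ‖(ej 0 : Vec 2)‖ = 1 := W_7d29a1_D2.norm_ej_one 0
  obtain ⟨hs', vs, hvs0, hvert, hstep, hend⟩ := net13 (P := P) hconv hc hδ hE hv₀ hx0 hcon he hJr
    h3x
  obtain ⟨h', v', -, hg', hW', hv'y⟩ := far13 (P := P) hE hcon he hy0 hyr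
  obtain ⟨b, hb⟩ : ∃ b, b = s * inner ℝ (ej 0 : Vec 2) (vs J - vs 0) := ⟨_, rfl⟩
  have hbJ : |b - J * ε| ≤ ε := by
    have h1 : b - J * ε = s * (inner ℝ (ej 0 : Vec 2) (vs J - vs 0) - J * x) := by
      rw [hb, ← hxs]
      ring
    have h2 := mul_le_mul_of_nonneg_left hend hs0.le
    rw [h1, abs_mul, abs_of_pos hs0]
    linarith only [h2, hxs]
  have hbJ' := abs_le.1 hbJ
  refine ⟨J, hs', vs, b, h', v', hb, ?_, ?_, ?_, hW', fun i hi => ⟨(hvert i hi).2.2.1, ?_⟩,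
    fun i hi => ⟨?_, ?_⟩⟩
  · linarith only [hbJ'.1, hJ1]
  · linarith only [hbJ'.2, hJ2, hKq1, hε3]
  · linarith only [hbJ'.1, hJ1, hKq1, hε3]
  · obtain ⟨-, hgi, hWi, hvi⟩ := hvert i hi
    have hix : (i : ℝ) * x ≤ J * x := mul_le_mul_of_nonneg_right (by exact_mod_cast hi) hx0.le
    obtain ⟨hsep1, hsep2⟩ := sep13 he hvi hv'y (by linarith only [hix, hJxy, hy0, hx0])
    have hi0 : (0 : ℝ) ≤ i * x := by positivity
    have hvn : ‖v' - vs i‖ ≤ 2 * y := by linarith only [hsep2, hi0, hJxy, hJx0, hy0]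
    refine ⟨?_, ?_, geo13 hconv hc hδ hgi hg' (by linarith only [hvn, h2y])⟩
    · have h1 : A * R ^ 7 / (2 * s) = y / 2 := by
        rw [hy]
        field_simp
      rw [h1]
      linarith only [hsep1, hix, hJxy]
    · rw [mul_div_assoc, ← hy]
      exact hvn
  · refine (hstep i hi).2.trans ?_
    rw [hx]
    have h1 : 3 * (ε / s) / c = 1 / c * (3 * ε) / s := by
      field_simp
    rw [h1]
    gcongr
    exact le_max_right _ _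
  · rw [mul_div_assoc, ← hx]
    exact (hstep i hi).1

/-- MAIN. -/
theorem mainA13 {ρ : Measure ℝ} [IsProbabilityMeasure ρ] {β : ℝ}
    (hconv : ConvexOn ℝ Set.univ (lam ρ β : Vec 2 → ℝ)) (hP : PolP ρ β) (hIn : InK ρ β)
    (hLo : LoV 2 ρ β) (hSt : StM 2 ρ β) (hJe : JeT) (hVu : VuT 2 ρ β) : MainA ρ β := by
  intro α c δ hα hc hδ
  obtain ⟨a, κ, K, ha, hκ, hκ1, hK1, hpol⟩ := hP (max 1 (1 / c)) (le_max_left _ _)
  obtain ⟨cI', CI, hcI', hCI, hin⟩ := hIn α a hα ha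
  obtain ⟨cI, hcId⟩ : ∃ cI, cI = min cI' 1 := ⟨_, rfl⟩
  have hcI : 0 < cI := by rw [hcId]; exact lt_min hcI' one_pos
  have hcI1 : cI ≤ 1 := by rw [hcId]; exact min_le_right _ _
  have hcIle : cI ≤ cI' := by rw [hcId]; exact min_le_left _ _
  obtain ⟨cL, CL, hcL, hcL1, hCL, hlo⟩ := hLo
  obtain ⟨Q, hQ⟩ : ∃ Q, Q = 1024 * (cL + CL) / (cL * cI * κ ^ 6) := ⟨_, rfl⟩
  have hQ0 : 0 ≤ Q := by rw [hQ]; positivity
  obtain ⟨A, hA⟩ : ∃ A, A = 2 * (K + 4) + 16 + Q := ⟨_, rfl⟩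
  have hA1 : 16 ≤ A := by linarith only [hA, hK1, hQ0]
  have hAK : 2 * (K + 4) ≤ A := by linarith only [hA, hQ0]
  have hAQ : Q ≤ A ^ 2 := by
    have h1 : Q ≤ A := by linarith only [hA, hK1]
    nlinarith only [h1, hA1]
  obtain ⟨R₀, hR₀, hnum⟩ := num13 (A := A) hcI hCI hcL hκ hc
  obtain ⟨N₀, hN₀⟩ := large13 (R₁ := max R₀ (max (3 * K ^ 2) (A ^ 2))) hα hc hδ
  refine ⟨N₀, fun n hn E hE v₀ hv₀ => ?_⟩
  obtain ⟨hn1, hL1, hRbig, hαn, hsmall⟩ := hN₀ n hn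
  by_contra hcon
  push Not at hcon
  have hn' : (1 : ℝ) ≤ n := by exact_mod_cast hn1
  have hn0 : (0 : ℝ) < n := by linarith only [hn']
  obtain ⟨L, hLd⟩ : ∃ L, L = Real.log n := ⟨_, rfl⟩
  rw [← hLd] at hL1 hRbig hsmall hE hcon
  obtain ⟨R, hRd⟩ : ∃ R, R = L ^ ((1 : ℝ) / 60) := ⟨_, rfl⟩
  rw [← hRd] at hRbig hE
  obtain ⟨hR1, hR60, hB⟩ := pow13 hL1 hRd
  have hR0 : 0 < R := by linarith only [hR1]
  have hRR₀ : R₀ ≤ R := (le_max_left _ _).trans hRbig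
  have hRK : 3 * K ^ 2 ≤ R := (le_max_left _ _).trans ((le_max_right _ _).trans hRbig)
  have hRA : A ^ 2 ≤ R := (le_max_right _ _).trans ((le_max_right _ _).trans hRbig)
  obtain ⟨B, hBd⟩ : ∃ B, B = R ^ 7 * Real.sqrt R := ⟨_, rfl⟩
  obtain ⟨ε, hε⟩ : ∃ ε, ε = 1 / B := ⟨_, rfl⟩
  obtain ⟨hB0, hε0, hε3, hKq1, hKq, hAB, h16, hKε⟩ := size13 (Real.sqrt_nonneg R)
    (Real.sq_sqrt hR0.le) hR1 hK1 hRK hA1 hAK hRA hBd hε
  have hLneg : L ^ (-((1 : ℝ) / 8)) = ε := by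
    rw [Real.rpow_neg (by linarith only [hL1]), hB, hε, hBd, one_div]
  rw [hLneg, hB, ← hBd] at hcon
  rw [hB, ← hBd] at hsmall
  obtain ⟨κ', hκ'⟩ : ∃ κ', κ' = κ / R ^ 2 := ⟨_, rfl⟩
  obtain ⟨γ, hγ⟩ : ∃ γ, γ = cI * κ ^ 6 / R ^ 13 := ⟨_, rfl⟩
  obtain ⟨E', hE'⟩ : ∃ E', E' = CI * (1 + Real.log R + Real.log (1 / κ')) := ⟨_, rfl⟩
  obtain ⟨hκ'0, hκ'1, hγ0, hγ1, hE'0, hγκ, hka⟩ := info13 (A := A) hR1 hκ hκ1 hκ' hcI hcI1 hcIle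
    hCI hγ hE' hcL (by rw [← hQ]; exact hAQ)
  obtain ⟨J, hs', vs, b, h', v', hb, hb1, hb2, hJ4, hW', hvert, hst⟩ := poly13
    (P := fun h v => WV ρ β h v n α R) hconv hc hδ (Real.sqrt_pos.2 hn0) hε0 hE hv₀ hcon hε3 hKq1
    hKq hAB hsmall
  have he : ‖(ej 0 : Vec 2)‖ = 1 := W_7d29a1_D2.norm_ej_one 0
  obtain ⟨i, hiJ, T, hT, hTc, hTt⟩ := hpol n J α R (3 * ε) b hs' vs (ej 0) hn1 hR1 (by positivity)
    he hαn (fun i hi => (hvert i hi).1) hst hb hb1 hb2 hJ4 hKε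
  obtain ⟨hWi, hg1, hg2, hgeo⟩ := hvert i hiJ
  have hW2 : W2 ρ β (hs' i) n α R := fun τ t h1 h2 h3 => ⟨_, hWi τ t h1 h2 h3⟩
  have hH : ∀ t ∈ T, En ρ β (hs' i) n t (t - 1) ≤ (1 - γ) * Real.log n + E' := by
    intro t ht
    have h1 := Finset.mem_Icc.1 (hT ht)
    obtain ⟨h2, h3⟩ := hTt t ht
    have h2' : (n : ℝ) ≤ 2 * t := by exact_mod_cast h2
    have h4 := hin (hs' i) n t R κ' hn1 h1.1 h1.2 h2 (by linarith only [hαn, h2']) hR1 hκ'0 hκ'1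
      hW2 (by rw [hκ']; exact h3)
    rw [← hE', ← hLd] at h4
    rw [← hLd]
    have h5 : γ * L ≤ cI' * κ' ^ 6 / R * L := mul_le_mul_of_nonneg_right hγκ (by
      linarith only [hL1])
    linarith only [h4, h5]
  have hfin := coreA13 (n := n) (ρ := ρ) two_pos hJe hSt hVu hcL hcL1 hCL hlo he (h := hs' i)
    (h' := h') (v := vs i) (v' := v') (b := A * R ^ 7) hn1 hR1 hc (mv_of_wv13 hn1 hαn hWi)
    (mv_of_wv13 hn1 hαn hW') h16 hg1 hg2 hgeo hγ0 hγ1 hE'0 hka hT (fun t ht => (hTt t ht).1) hH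
  have h1 := hnum R hRR₀ n hn0 (by rw [← hLd, hR60])
  rw [← hκ', ← hE', ← hγ] at h1
  have h2 : κ' * n * (cL / 2 * Real.exp (-((1 - γ / 2) * Real.log n + 2 * E' + 2 / cL))) ≤
      (T.card : ℝ) * (cL / 2 * Real.exp (-((1 - γ / 2) * Real.log n + 2 * E' + 2 / cL))) :=
    mul_le_mul_of_nonneg_right (by rw [hκ']; exact hTc) (by positivity)
  exact absurd (h1.trans_le (h2.trans hfin)) (lt_irrefl _)

end Pool.Agent.W_7d29a1_SA
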