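import Pool.Agent.W_7d29a1_SA.PolA13

/-!
Theorem SUPA, polygon leaf (helper13).
-/

namespace Pool.Agent.W_7d29a1_SA

open MeasureTheory ProbabilityTheory Filter Topology Pool.Agent.W_MP_7d29a1_pr
  Pool.Agent.W_7d29a1_h46 Pool.Agent.W_7d29a1_h46u Pool.Agent.W_7d29a1_D2.B35
  Pool.Agent.W_7d29a1_Q29 Pool.Agent.W_7d29a1_S90

/-- The numbers of one time. -/
lemma numA13 {b ε R C s J S w : ℝ} (hb : 0 < b) (hε : 0 < ε) (hR : 1 ≤ R) (hC : 1 ≤ C)
    (hs : 0 < s) (hJ0 : 0 ≤ J) (hw : w ≤ b * s / 2)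
    (hinc : b * s / 8 ≤ 7 / 2 * (2240 * C ^ 2 * ε * R / s * S +
      J * (5 * C ^ 2 * ε ^ 2 * R) / (2240 * C ^ 2 * ε * R / s)) +
        J * (w * (5 * C ^ 2 * ε ^ 2 * R)))
    (hJ : J * ε ≤ 4 * b) (hbe : 320 * C ^ 2 * b * ε * R ≤ 1) :
    J * (1 / (501760 * C ^ 2) * s ^ 2 / R) ≤ S := by
  have hR0 : 0 < R := by linarith
  have hC0 : 0 < C := by linarith
  have e1 : J * (5 * C ^ 2 * ε ^ 2 * R) / (2240 * C ^ 2 * ε * R / s) = J * ε * s / 448 := by
    field_simp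
    ring
  have e2 : 7 / 2 * (J * ε * s / 448) ≤ b * s / 32 := by
    have := mul_le_mul_of_nonneg_right hJ hs.le
    linarith
  have hQ0 : 0 ≤ 5 * C ^ 2 * ε ^ 2 * R := by positivity
  have e3 : J * (w * (5 * C ^ 2 * ε ^ 2 * R)) ≤ b * s / 32 := by
    have h1 : w * (5 * C ^ 2 * ε ^ 2 * R) ≤ b * s / 2 * (5 * C ^ 2 * ε ^ 2 * R) :=
      mul_le_mul_of_nonneg_right hw hQ0
    have h2 := mul_le_mul_of_nonneg_left h1 hJ0
    have h3 : J * (b * s / 2 * (5 * C ^ 2 * ε ^ 2 * R)) =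
        (J * ε) * (5 / 2 * C ^ 2 * ε * R * b * s) := by ring
    have h4 : (J * ε) * (5 / 2 * C ^ 2 * ε * R * b * s) ≤
        (4 * b) * (5 / 2 * C ^ 2 * ε * R * b * s) :=
      mul_le_mul_of_nonneg_right hJ (by positivity)
    have h5 : (4 * b) * (5 / 2 * C ^ 2 * ε * R * b * s) =
        (320 * C ^ 2 * b * ε * R) * (b * s / 32) := by ring
    have h6 : (320 * C ^ 2 * b * ε * R) * (b * s / 32) ≤ 1 * (b * s / 32) :=
      mul_le_mul_of_nonneg_right hbe (by positivity)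
    linarith
  rw [e1] at hinc
  have h7 : b * s / 16 ≤ 7 / 2 * (2240 * C ^ 2 * ε * R / s * S) := by linarith
  have h8 : 7 / 2 * (2240 * C ^ 2 * ε * R / s * S) = 7840 * C ^ 2 * ε * R * S / s := by
    field_simp
    ring
  rw [h8, le_div_iff₀ hs] at h7
  have h9 : J * ε * s ^ 2 ≤ 4 * b * s ^ 2 := mul_le_mul_of_nonneg_right hJ (by positivity)
  have h10 : J * ε * s ^ 2 ≤ 501760 * C ^ 2 * R * S * ε := by nlinarith
  have h11 : J * s ^ 2 ≤ 501760 * C ^ 2 * R * S := by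
    have : ε * (J * s ^ 2) ≤ ε * (501760 * C ^ 2 * R * S) := by linarith
    exact le_of_mul_le_mul_left this hε
  have h12 : J * (1 / (501760 * C ^ 2) * s ^ 2 / R) = J * s ^ 2 / (501760 * C ^ 2 * R) := by
    field_simp
  rw [h12, div_le_iff₀ (by positivity)]
  linarith

/-- Counting. -/
lemma cnt13 {J : ℕ} {V : ℕ → ℝ} {M y : ℝ} (hM : ∀ i ∈ Finset.range J, V i ≤ M)
    (hM0 : 0 ≤ M) (hy0 : 0 ≤ y)
    (hS : J * (2 * y) ≤ ∑ i ∈ Finset.range J, V i) :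
    J * y ≤ M * (((Finset.range J).filter fun i => y ≤ V i).card : ℝ) := by
  have h1 : ∑ i ∈ Finset.range J, V i ≤
      ∑ i ∈ Finset.range J, ((if y ≤ V i then M else 0) + y) := by
    refine Finset.sum_le_sum fun i hi => ?_
    by_cases h : y ≤ V i
    · rw [if_pos h]
      linarith [hM i hi]
    · rw [if_neg h]
      linarith
  rw [Finset.sum_add_distrib, Finset.sum_const, Finset.card_range, nsmul_eq_mul,
    ← Finset.sum_filter, Finset.sum_const, nsmul_eq_mul] at h1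
  linarith

lemma card_half13 (n : ℕ) (hn : 1 ≤ n) :
    (n : ℝ) / 2 ≤ (((Finset.Icc 1 n).filter fun t => n ≤ 2 * t).card : ℝ) := by
  have h1 : Finset.Ioc (n / 2) n ⊆ (Finset.Icc 1 n).filter fun t => n ≤ 2 * t := by
    intro t ht
    rw [Finset.mem_Ioc] at ht
    rw [Finset.mem_filter, Finset.mem_Icc]
    refine ⟨⟨by omega, ht.2⟩, by omega⟩
  have h2 := Finset.card_le_card h1
  rw [Nat.card_Ioc] at h2
  have h3 : ((n - n / 2 : ℕ) : ℝ) ≤ (((Finset.Icc 1 n).filter fun t => n ≤ 2 * t).card : ℝ) := by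
    exact_mod_cast h2
  have h4 : (n : ℝ) ≤ 2 * ((n - n / 2 : ℕ) : ℝ) := by
    have : n ≤ 2 * (n - n / 2) := by omega
    exact_mod_cast this
  linarith

/-- The second moments of `S_t - t v` at the times `n / 2 ≤ t ≤ n`. -/
def MV {d : ℕ} (ρ : Measure ℝ) (β : ℝ) (h v : Vec d) (n : ℕ) (R : ℝ) : Prop :=
  ∀ t : ℕ, n ≤ 2 * t → t ≤ n → ∫ η, pe β h η (fun s : Fin n → Step d =>
    ‖emb (pos s t) - (t : ℝ) • v‖ ^ 2) ∂(law d ρ) ≤ R * t

/-- PolP with the initial windows `[0, t]`, `n / 2 ≤ t ≤ n`, only. -/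
def PolO (ρ : Measure ℝ) (β : ℝ) : Prop := ∀ C : ℝ, 1 ≤ C → ∃ a κ K : ℝ, 0 < a ∧ 0 < κ ∧ κ ≤ 1 ∧
  1 ≤ K ∧ ∀ (n J : ℕ) (R ε b : ℝ) (hs vs : ℕ → Vec 2) (e : Vec 2), 1 ≤ n → 1 ≤ R → 0 < ε →
    ‖e‖ = 1 → (∀ i : ℕ, i ≤ J → MV ρ β (hs i) (vs i) n R) →
    (∀ i : ℕ, i < J → ‖hs (i + 1) - hs i‖ ≤ C * ε / Real.sqrt n ∧
      ‖vs (i + 1) - vs i‖ ≤ ε / Real.sqrt n) →
    b = Real.sqrt n * inner ℝ e (vs J - vs 0) → K * Real.sqrt R ≤ b → b ≤ 2 * K * Real.sqrt R →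
    J * ε ≤ 4 * b → K ^ 2 * ε * R ^ 2 ≤ 1 → ∃ i : ℕ, i ≤ J ∧ ∃ T : Finset ℕ,
      T ⊆ Finset.Icc 1 n ∧ κ / R ^ 2 * n ≤ (T.card : ℝ) ∧ ∀ t ∈ T, n ≤ 2 * t ∧
        κ / R ^ 2 ≤ Rp ρ β (hs i) n t (Real.sqrt (a / R * n))

section One

variable {ρ : Measure ℝ} {β : ℝ} [IsProbabilityMeasure ρ]

/-- The variances of the clamp along the polygon at one time. -/
lemma time13 (hO : OneC 2 β) (hK : KmT 2 ρ β) {C : ℝ} (hC : 1 ≤ C) {n J : ℕ} {R ε b : ℝ}
    {hs vs : ℕ → Vec 2} {e : Vec 2} (hn : 1 ≤ n) (hR : 1 ≤ R) (hε : 0 < ε) (hε1 : ε ≤ 1)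
    (he : ‖e‖ = 1) (hW : ∀ i : ℕ, i ≤ J → MV ρ β (hs i) (vs i) n R)
    (hst : ∀ i : ℕ, i < J → ‖hs (i + 1) - hs i‖ ≤ C * ε / Real.sqrt n ∧
      ‖vs (i + 1) - vs i‖ ≤ ε / Real.sqrt n)
    (hb : b = Real.sqrt n * inner ℝ e (vs J - vs 0)) (hb0 : 0 < b) (hbR : 16 * R ≤ b ^ 2)
    (hJ : J * ε ≤ 4 * b) (hbe : 320 * C ^ 2 * b * ε * R ≤ 1) {t : ℕ} (ht : n ≤ 2 * t)
    (htn : t ≤ n) {a' b' : ℝ} (ha' : a' = t * inner ℝ e (vs 0) + t * b / (4 * Real.sqrt n))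
    (hb' : b' = t * inner ℝ e (vs J) - t * b / (4 * Real.sqrt n)) :
    a' ≤ b' ∧ b' - a' ≤ b * Real.sqrt n / 2 ∧
      J * (1 / (501760 * C ^ 2) * n / R) ≤ ∑ i ∈ Finset.range J,
        ∫ η, co28 β (hs i) η (fun s : Fin n → Step 2 => cl e t a' b' s)
          (fun s : Fin n → Step 2 => cl e t a' b' s) ∂(law 2 ρ) := by
  have hd : (0 : ℕ) < 2 := by norm_num
  have hn0 : (0 : ℝ) < n := by exact_mod_cast hn
  have hs0 : 0 < Real.sqrt n := Real.sqrt_pos.2 hn0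
  have hsq : Real.sqrt n ^ 2 = n := Real.sq_sqrt hn0.le
  have htn' : (t : ℝ) ≤ n := by exact_mod_cast htn
  have ht' : (n : ℝ) / 2 ≤ t := by
    have : (n : ℝ) ≤ 2 * t := by exact_mod_cast ht
    linarith
  have ht0 : (0 : ℝ) < t := by linarith
  obtain ⟨s, hsd⟩ : ∃ s, s = Real.sqrt (n : ℝ) := ⟨_, rfl⟩
  rw [← hsd] at hs0 hsq ha' hb' hb hst ⊢
  have hL : inner ℝ e (vs J) = inner ℝ e (vs 0) + b / s := by
    rw [hb, inner_sub_right]
    field_simp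
    ring
  obtain ⟨F0, hF0⟩ : ∃ F0, F0 = (t : ℝ) * inner ℝ e (vs 0) := ⟨_, rfl⟩
  obtain ⟨FJ, hFJ⟩ : ∃ FJ, FJ = (t : ℝ) * inner ℝ e (vs J) := ⟨_, rfl⟩
  obtain ⟨g, hg⟩ : ∃ g, g = (t : ℝ) * b / s := ⟨_, rfl⟩
  have hg0 : 0 < g := by rw [hg]; positivity
  have hFg : FJ = F0 + g := by
    rw [hFJ, hF0, hL, hg]
    ring
  have hg4 : (t : ℝ) * b / (4 * s) = g / 4 := by
    rw [hg]
    field_simp
  have ea : a' = F0 + g / 4 := by rw [ha', ← hF0, hg4]
  have eb : b' = F0 + 3 * g / 4 := by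
    rw [hb', ← hFJ, hg4, hFg]
    ring
  have hwid : b' - a' = g / 2 := by rw [ea, eb]; ring
  have hab : a' ≤ b' := by linarith
  have hgn : g ≤ b * s := by
    rw [hg, div_le_iff₀ hs0]
    have : (t : ℝ) * b ≤ n * b := mul_le_mul_of_nonneg_right htn' hb0.le
    nlinarith
  have hgl : b * s / 2 ≤ g := by
    rw [hg, le_div_iff₀ hs0]
    have : (n : ℝ) / 2 * b ≤ t * b := mul_le_mul_of_nonneg_right ht' hb0.le
    nlinarith
  have hw : b' - a' ≤ b * s / 2 := by linarith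
  refine ⟨hab, hw, ?_⟩
  -- the two ends
  have hm0 := mv_sm13 hd he (hW 0 (Nat.zero_le _) t ht htn)
  have hmJ := mv_sm13 hd he (hW J le_rfl t ht htn)
  rw [← hF0] at hm0
  rw [← hFJ] at hmJ
  have hk0 := (hK (hs 0) e n t a' b' F0 htn hab).1 (by linarith)
  have hkJ := (hK (hs J) e n t a' b' FJ htn hab).2 (by linarith)
  have hend : b * s / 8 ≤ Fc ρ β (hs J) e n t a' b' - Fc ρ β (hs 0) e n t a' b' := by
    have h1 : Sm ρ β (hs 0) e n t F0 / (4 * (a' - F0)) ≤ R * t / g := by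
      rw [ea]
      have : 4 * (F0 + g / 4 - F0) = g := by ring
      rw [this]
      exact div_le_div_of_nonneg_right hm0 hg0.le
    have h2 : Sm ρ β (hs J) e n t FJ / (4 * (FJ - b')) ≤ R * t / g := by
      rw [eb, hFg]
      have : 4 * (F0 + g - (F0 + 3 * g / 4)) = g := by ring
      rw [this, ← hFg]
      exact div_le_div_of_nonneg_right hmJ hg0.le
    have h3 : R * t / g = R * s / b := by
      rw [hg]
      field_simp
    have h4 : R * s / b ≤ b * s / 16 := by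
      rw [div_le_div_iff₀ hb0 (by norm_num)]
      nlinarith
    linarith
  -- the steps
  have hstep : ∀ i ∈ Finset.range J, |Fc ρ β (hs (i + 1)) e n t a' b' -
      Fc ρ β (hs i) e n t a' b'| ≤ 7 / 2 * (2240 * C ^ 2 * ε * R / s *
        (∫ η, co28 β (hs i) η (fun s : Fin n → Step 2 => cl e t a' b' s)
          (fun s : Fin n → Step 2 => cl e t a' b' s) ∂(law 2 ρ)) +
            5 * C ^ 2 * ε ^ 2 * R / (2240 * C ^ 2 * ε * R / s)) +
              (b' - a') * (5 * C ^ 2 * ε ^ 2 * R) := by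
    intro i hi
    have hi' := Finset.mem_range.1 hi
    obtain ⟨h1, h2⟩ := hst i hi'
    obtain ⟨D, hD⟩ : ∃ D, D = hs (i + 1) - hs i := ⟨_, rfl⟩
    have hhD : hs (i + 1) = hs i + D := by
      rw [hD]
      abel
    have hQ := mv_step13 hd (hW i hi'.le n (by omega) le_rfl) (hW (i + 1) hi' n (by omega) le_rfl) D
    have hQ2 : ‖D‖ ^ 2 * (3 * R * n + 2 * (n * ‖vs (i + 1) - vs i‖) ^ 2) ≤
        5 * C ^ 2 * ε ^ 2 * R := by
      have h3 : ‖D‖ ^ 2 ≤ (C * ε / s) ^ 2 := by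
        rw [hD]
        exact pow_le_pow_left₀ (norm_nonneg _) h1 2
      have h4 : (n * ‖vs (i + 1) - vs i‖) ^ 2 ≤ (n * (ε / s)) ^ 2 :=
        pow_le_pow_left₀ (mul_nonneg hn0.le (norm_nonneg _))
          (mul_le_mul_of_nonneg_left h2 hn0.le) 2
      have h5 : (n * (ε / s)) ^ 2 = n * ε ^ 2 := by
        rw [mul_pow, div_pow, hsq]
        field_simp
      have h6 : (C * ε / s) ^ 2 = C ^ 2 * ε ^ 2 / n := by
        rw [div_pow, mul_pow, hsq]
      have h7 : ε ^ 2 ≤ R := by nlinarith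
      calc ‖D‖ ^ 2 * (3 * R * n + 2 * (n * ‖vs (i + 1) - vs i‖) ^ 2)
          ≤ (C ^ 2 * ε ^ 2 / n) * (3 * R * n + 2 * (n * ε ^ 2)) := by
            refine mul_le_mul (h3.trans h6.le) (by linarith) (by positivity) (by positivity)
        _ = C ^ 2 * ε ^ 2 * (3 * R + 2 * ε ^ 2) := by field_simp
        _ ≤ C ^ 2 * ε ^ 2 * (3 * R + 2 * R) :=
            mul_le_mul_of_nonneg_left (by linarith) (by positivity)
        _ = 5 * C ^ 2 * ε ^ 2 * R := by ring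
    rw [hhD] at hQ
    have hl : 0 < 2240 * C ^ 2 * ε * R / s := by positivity
    have h8 := step13 (ρ := ρ) hd hO (hs i) D (fun s : Fin n → Step 2 => cl e t a' b' s)
      (k := n * inner ℝ D (vs i)) hab (fun s => clamp_nonneg28 hab _) hl (hQ.trans hQ2)
    rw [← hhD] at h8
    exact h8
  have htel : Fc ρ β (hs J) e n t a' b' - Fc ρ β (hs 0) e n t a' b' ≤
      ∑ i ∈ Finset.range J, |Fc ρ β (hs (i + 1)) e n t a' b' - Fc ρ β (hs i) e n t a' b'| := by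
    rw [← Finset.sum_range_sub (fun i => Fc ρ β (hs i) e n t a' b') J]
    exact Finset.sum_le_sum fun i _ => le_abs_self _
  have hall := hend.trans (htel.trans (Finset.sum_le_sum hstep))
  rw [← hsq]
  refine numA13 hb0 hε hR hC hs0 (Nat.cast_nonneg J) hw ?_ hJ hbe
  refine hall.trans (le_of_eq ?_)
  rw [Finset.sum_add_distrib, ← Finset.mul_sum, Finset.sum_add_distrib, ← Finset.mul_sum,
    Finset.sum_const, Finset.sum_const, Finset.card_range, nsmul_eq_mul, nsmul_eq_mul]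
  ring

/-- PolO. -/
theorem polO13 (hO : OneC 2 β) (hK : KmT 2 ρ β) : PolO ρ β := by
  classical
  intro C hC
  have hC0 : 0 < C := by linarith
  have hC2 : 1 ≤ C ^ 2 := one_le_pow₀ hC
  obtain ⟨a, ha⟩ : ∃ a, a = 1 / (1003520 * C ^ 2) := ⟨_, rfl⟩
  obtain ⟨K, hKd⟩ : ∃ K, K = 640 * C ^ 2 := ⟨_, rfl⟩
  have ha0 : 0 < a := by rw [ha]; positivity
  have ha1 : a ≤ 1 := by
    rw [ha, div_le_one (by positivity)]
    nlinarith
  have hK1 : 640 ≤ K := by rw [hKd]; linarith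
  have hK0 : 0 < K := by linarith
  have hK2 : 1 ≤ K ^ 2 := one_le_pow₀ (by linarith)
  obtain ⟨κ, hκ⟩ : ∃ κ, κ = a / (2 * K ^ 2) := ⟨_, rfl⟩
  have hκ0 : 0 < κ := by rw [hκ]; positivity
  refine ⟨a, κ, K, ha0, hκ0, ?_, by linarith, ?_⟩
  · rw [hκ, div_le_one (by positivity)]
    linarith
  intro n J R ε b hs vs e hn hR hε he hW hst hb hbK hbK2 hJ hKε
  have hn0 : (0 : ℝ) < n := by exact_mod_cast hn
  have hR0 : 0 < R := by linarith
  have hsR : Real.sqrt R ^ 2 = R := Real.sq_sqrt hR0.le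
  have hsR1 : 1 ≤ Real.sqrt R := Real.one_le_sqrt.2 hR
  have hb0 : 0 < b := lt_of_lt_of_le (by positivity) hbK
  have hR2 : 1 ≤ R ^ 2 := one_le_pow₀ hR
  have hε1 : ε ≤ 1 := by
    have h1 : ε ≤ K ^ 2 * ε * R ^ 2 := by
      have h2 : 1 * 1 ≤ K ^ 2 * R ^ 2 := mul_le_mul hK2 hR2 zero_le_one (by positivity)
      nlinarith
    linarith
  have hbR : 16 * R ≤ b ^ 2 := by
    have h1 : (K * Real.sqrt R) ^ 2 ≤ b ^ 2 := pow_le_pow_left₀ (by positivity) hbK 2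
    rw [mul_pow, hsR] at h1
    have h2 : (16 : ℝ) ≤ K ^ 2 := by nlinarith
    nlinarith
  have hbe : 320 * C ^ 2 * b * ε * R ≤ 1 := by
    have h1 : Real.sqrt R ≤ R := by
      nlinarith
    have h2 : b ≤ 2 * K * R := hbK2.trans (mul_le_mul_of_nonneg_left h1 (by positivity))
    calc 320 * C ^ 2 * b * ε * R ≤ 320 * C ^ 2 * (2 * K * R) * ε * R := by gcongr
      _ = K ^ 2 * ε * R ^ 2 := by rw [hKd]; ring
      _ ≤ 1 := hKε
  obtain ⟨s, hsd⟩ : ∃ s, s = Real.sqrt (n : ℝ) := ⟨_, rfl⟩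
  have hs0 : 0 < s := by rw [hsd]; exact Real.sqrt_pos.2 hn0
  have hsq : s ^ 2 = n := by rw [hsd]; exact Real.sq_sqrt hn0.le
  have hJ1 : 1 ≤ J := by
    rcases Nat.eq_zero_or_pos J with h | h
    · exfalso
      rw [h, sub_self, inner_zero_right, mul_zero] at hb
      linarith
    · exact h
  have hJ0 : (0 : ℝ) < J := by exact_mod_cast hJ1
  -- the clamps
  obtain ⟨lo, hlo⟩ : ∃ lo : ℕ → ℝ, lo = fun t : ℕ => (t : ℝ) * inner ℝ e (vs 0) +
    t * b / (4 * Real.sqrt n) := ⟨_, rfl⟩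
  obtain ⟨up, hup⟩ : ∃ up : ℕ → ℝ, up = fun t : ℕ => (t : ℝ) * inner ℝ e (vs J) -
    t * b / (4 * Real.sqrt n) := ⟨_, rfl⟩
  obtain ⟨V, hV⟩ : ∃ V : ℕ → ℕ → ℝ, V = fun t i => ∫ η, co28 β (hs i) η
    (fun s : Fin n → Step 2 => cl e t (lo t) (up t) s)
    (fun s : Fin n → Step 2 => cl e t (lo t) (up t) s) ∂(law 2 ρ) := ⟨_, rfl⟩
  have hd : (0 : ℕ) < 2 := by norm_num
  have key : ∀ t : ℕ, n ≤ 2 * t → t ≤ n → lo t ≤ up t ∧ up t - lo t ≤ b * s / 2 ∧
      J * (2 * (a * n / R)) ≤ ∑ i ∈ Finset.range J, V t i := by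
    intro t ht htn
    have h1 := time13 hO hK hC hn hR hε hε1 he hW hst hb hb0 hbR hJ hbe ht htn
      (a' := lo t) (b' := up t) (by rw [hlo]) (by rw [hup])
    rw [hsd]
    refine ⟨h1.1, h1.2.1, ?_⟩
    refine le_trans (le_of_eq ?_) (h1.2.2.trans (le_of_eq (by rw [hV])))
    rw [ha]
    field_simp
    ring
  have hM : b * s / 2 ≤ K * Real.sqrt R * s := by
    have := mul_le_mul_of_nonneg_right hbK2 hs0.le
    linarith
  have hM2 : (K * Real.sqrt R * s) ^ 2 = K ^ 2 * R * n := by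
    rw [mul_pow, mul_pow, hsR, hsq]
  have hVM : ∀ t : ℕ, n ≤ 2 * t → t ≤ n → ∀ i, V t i ≤ K ^ 2 * R * n := by
    intro t ht htn i
    obtain ⟨h1, h2, -⟩ := key t ht htn
    have h3 : ∀ η : Env 2, co28 β (hs i) η (fun s : Fin n → Step 2 => cl e t (lo t) (up t) s)
        (fun s : Fin n → Step 2 => cl e t (lo t) (up t) s) ≤ K ^ 2 * R * n := by
      intro η
      refine (co_le13 hd β (hs i) η fun s => clamp_nonneg28 h1 _).trans ?_
      rw [← hM2]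
      exact pow_le_pow_left₀ (by linarith) (h2.trans hM) 2
    have h4 := integral_mono (integrable_co28 (ρ := ρ) hd β (hs i) _ _) (integrable_const _) h3
    rw [integral_const, probReal_univ, one_smul] at h4
    rw [hV]
    exact h4
  obtain ⟨y, hy⟩ : ∃ y, y = a * n / R := ⟨_, rfl⟩
  have hy0 : 0 < y := by rw [hy]; positivity
  obtain ⟨T, hT⟩ : ∃ T : Finset ℕ, T = (Finset.Icc 1 n).filter fun t => n ≤ 2 * t := ⟨_, rfl⟩
  have hTt : ∀ t ∈ T, n ≤ 2 * t ∧ t ≤ n := by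
    intro t ht
    rw [hT, Finset.mem_filter, Finset.mem_Icc] at ht
    exact ⟨ht.2, ht.1.2⟩
  have hcard : (n : ℝ) / 2 ≤ (T.card : ℝ) := by
    rw [hT]
    exact card_half13 n hn
  have hcnt : ∀ t ∈ T, J * (a / (K ^ 2 * R ^ 2)) ≤
      (((Finset.range J).filter fun i => y ≤ V t i).card : ℝ) := by
    intro t ht
    obtain ⟨h1, h2⟩ := hTt t ht
    have h3 := cnt13 (J := J) (V := V t) (M := K ^ 2 * R * n) (y := y)
      (fun i _ => hVM t h1 h2 i) (by positivity) hy0.le (by rw [hy]; exact (key t h1 h2).2.2)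
    rw [hy] at h3 ⊢
    rw [mul_div_assoc', div_le_iff₀ (by positivity)]
    have h4 : J * (a * n / R) * (R / n) ≤ K ^ 2 * R * n *
        (((Finset.range J).filter fun i => a * n / R ≤ V t i).card : ℝ) * (R / n) :=
      mul_le_mul_of_nonneg_right h3 (by positivity)
    have h5 : J * (a * n / R) * (R / n) = J * a := by field_simp
    have h6 : K ^ 2 * R * n *
        (((Finset.range J).filter fun i => a * n / R ≤ V t i).card : ℝ) * (R / n) =
        (((Finset.range J).filter fun i => a * n / R ≤ V t i).card : ℝ) * (K ^ 2 * R ^ 2) := by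
      field_simp
    rw [h5, h6] at h4
    exact h4
  have hdc : ∑ i ∈ Finset.range J, ((T.filter fun t => y ≤ V t i).card : ℝ) =
      ∑ t ∈ T, (((Finset.range J).filter fun i => y ≤ V t i).card : ℝ) := by
    simp only [Finset.card_filter, Nat.cast_sum]
    exact Finset.sum_comm
  have hsum : ∑ i ∈ Finset.range J, (T.card : ℝ) * (a / (K ^ 2 * R ^ 2)) ≤
      ∑ i ∈ Finset.range J, ((T.filter fun t => y ≤ V t i).card : ℝ) := by
    rw [hdc, Finset.sum_const, Finset.card_range, nsmul_eq_mul]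
    calc (J : ℝ) * ((T.card : ℝ) * (a / (K ^ 2 * R ^ 2))) =
          ∑ t ∈ T, J * (a / (K ^ 2 * R ^ 2)) := by
          rw [Finset.sum_const, nsmul_eq_mul]
          ring
      _ ≤ _ := Finset.sum_le_sum hcnt
  obtain ⟨i, hi, hTi⟩ := Finset.exists_le_of_sum_le (Finset.nonempty_range_iff.2 (by omega)) hsum
  have hiJ := Finset.mem_range.1 hi
  refine ⟨i, hiJ.le, T.filter fun t => y ≤ V t i, ?_, ?_, ?_⟩
  · refine (Finset.filter_subset _ _).trans ?_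
    rw [hT]
    exact Finset.filter_subset _ _
  · refine le_trans ?_ hTi
    have h1 : κ / R ^ 2 * n = (n : ℝ) / 2 * (a / (K ^ 2 * R ^ 2)) := by
      rw [hκ]
      field_simp
    rw [h1]
    exact mul_le_mul_of_nonneg_right hcard (by positivity)
  · intro t ht
    rw [Finset.mem_filter] at ht
    obtain ⟨h1, h2⟩ := hTt t ht.1
    refine ⟨h1, ?_⟩
    obtain ⟨h3, h4, -⟩ := key t h1 h2
    have h5 : 0 ≤ a / R * n := by positivity
    have h6 := rep13 (ρ := ρ) (n := n) hd β (hs i) e t he h3 (Real.sqrt_nonneg (a / R * n))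
    rw [Real.sq_sqrt h5] at h6
    have h7 : y ≤ ∫ η, co28 β (hs i) η (fun s : Fin n → Step 2 => cl e t (lo t) (up t) s)
        (fun s : Fin n → Step 2 => cl e t (lo t) (up t) s) ∂(law 2 ρ) := by
      have := ht.2
      rw [hV] at this
      exact this
    have h8 : a / R * n = y := by rw [hy]; ring
    rw [h8] at h6 ⊢
    obtain ⟨P, hP⟩ : ∃ P, P = Rp ρ β (hs i) n t (Real.sqrt y) := ⟨_, rfl⟩
    rw [← hP] at h6 ⊢
    have h9 : y ≤ (up t - lo t) ^ 2 * P := by linarith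
    have hP0 : 0 ≤ P := by
      by_contra hneg
      push Not at hneg
      have := mul_nonpos_of_nonneg_of_nonpos (sq_nonneg (up t - lo t)) hneg.le
      linarith
    have h10 : (up t - lo t) ^ 2 ≤ K ^ 2 * R * n := by
      rw [← hM2]
      exact pow_le_pow_left₀ (by linarith) (h4.trans hM) 2
    have h11 : y ≤ K ^ 2 * R * n * P := h9.trans (mul_le_mul_of_nonneg_right h10 hP0)
    have h12 : a / (K ^ 2 * R ^ 2) ≤ P := by
      rw [div_le_iff₀ (by positivity)]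
      rw [hy] at h11
      have h13 : a * n / R * (R / n) ≤ K ^ 2 * R * n * P * (R / n) :=
        mul_le_mul_of_nonneg_right h11 (by positivity)
      have h14 : a * n / R * (R / n) = a := by field_simp
      have h15 : K ^ 2 * R * n * P * (R / n) = P * (K ^ 2 * R ^ 2) := by field_simp
      rw [h14, h15] at h13
      exact h13
    refine le_trans ?_ h12
    rw [hκ, div_div]
    refine div_le_div_of_nonneg_left ha0.le (by positivity) ?_
    have : 0 < K ^ 2 * R ^ 2 := by positivity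
    linarith

lemma mv_of_wv13 {h v : Vec 2} {n : ℕ} {α R : ℝ} (hn : 1 ≤ n) (hα : (n : ℝ) ^ α ≤ n / 2)
    (hW : WV ρ β h v n α R) : MV ρ β h v n R := by
  intro t ht htn
  have ht' : (n : ℝ) ≤ 2 * t := by exact_mod_cast ht
  exact wv_mom13 hW (by omega) htn (by linarith)

/-- PolP. -/
theorem polP13 (hO : OneC 2 β) (hK : KmT 2 ρ β) : PolP ρ β := by
  intro C hC
  obtain ⟨a, κ, K, ha, hκ, hκ1, hK1, hmain⟩ := polO13 (ρ := ρ) hO hK C hC
  refine ⟨a, κ, K, ha, hκ, hκ1, hK1, ?_⟩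
  intro n J α R ε b hs vs e hn hR hε he hα hW hst hb hbK hbK2 hJ hKε
  exact hmain n J R ε b hs vs e hn hR hε he (fun i hi => mv_of_wv13 hn hα (hW i hi)) hst hb hbK
    hbK2 hJ hKε

end One

end Pool.Agent.W_7d29a1_SA
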