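import Pool.Agent.W_7d29a1_SA.VertOA42
import Pool.Agent.W_7d29a1_SA.GeoOA13
import Pool.Agent.W_7d29a1_SA.PolP13

/-!
Theorem ORIA: the main statement (helper42).
-/

namespace Pool.Agent.W_7d29a1_SA

open MeasureTheory ProbabilityTheory Filter Topology Pool.Agent.W_MP_7d29a1_pr
  Pool.Agent.W_7d29a1_h46 Pool.Agent.W_7d29a1_h46u Pool.Agent.W_7d29a1_D2.B35
  Pool.Agent.W_7d29a1_Q29 Pool.Agent.W_7d29a1_S90

/-- The facts valid for large lengths. -/
lemma evOA42 {α : ℝ} (hα : α < 1) (R₁ : ℝ) {x : ℝ} (hx : 0 < x) : ∃ N₀ : ℕ, ∀ N : ℕ, N₀ ≤ N →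
    ∃ R : ℝ, R = Real.log N ^ ((1 : ℝ) / 200) ∧ 1 ≤ N ∧ 1 ≤ R ∧ R₁ ≤ R ∧ Real.log N = R ^ 200 ∧
      Real.log N ^ ((1 : ℝ) / 8) = R ^ 25 ∧ Real.log N ^ (-((1 : ℝ) / 8)) = (R ^ 25)⁻¹ ∧
      (N : ℝ) ^ α ≤ N / 2 ∧ R ^ 25 / Real.sqrt N < x := by
  have hn : Tendsto (fun n : ℕ => (n : ℝ)) atTop atTop := tendsto_natCast_atTop_atTop
  have hlog : Tendsto (fun n : ℕ => Real.log n) atTop atTop := Real.tendsto_log_atTop.comp hn
  have hR : Tendsto (fun n : ℕ => Real.log n ^ ((1 : ℝ) / 200)) atTop atTop :=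
    (tendsto_rpow_atTop (by norm_num : (0 : ℝ) < 1 / 200)).comp hlog
  have hpow : Tendsto (fun n : ℕ => (n : ℝ) ^ (-(1 - α))) atTop (𝓝 0) :=
    (tendsto_rpow_neg_atTop (by linarith : (0 : ℝ) < 1 - α)).comp hn
  have hlo : ∀ᶠ y : ℝ in atTop, ‖Real.log y‖ ≤ x ^ 2 / 2 * ‖id y‖ :=
    Real.isLittleO_log_id_atTop.def (by positivity)
  have hlo' := hn.eventually hlo
  refine eventually_atTop.1 ?_
  filter_upwards [eventually_ge_atTop 1, hR.eventually (eventually_ge_atTop 1),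
    hR.eventually (eventually_ge_atTop R₁), hlog.eventually (eventually_ge_atTop 0),
    hpow.eventually (eventually_le_nhds (by norm_num : (0 : ℝ) < 1 / 2)), hlo'] with N h1 h2 h3 h4
      h5 h6
  have hN0 : (0 : ℝ) < N := by exact_mod_cast h1
  obtain ⟨R, hRd⟩ : ∃ R : ℝ, R = Real.log N ^ ((1 : ℝ) / 200) := ⟨_, rfl⟩
  rw [← hRd] at h2 h3
  have hR0 : 0 < R := by linarith
  have hL : Real.log N = R ^ 200 := by
    rw [hRd, ← Real.rpow_natCast, ← Real.rpow_mul h4]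
    norm_num
  have hL8 : Real.log N ^ ((1 : ℝ) / 8) = R ^ 25 := by
    rw [hRd, ← Real.rpow_natCast, ← Real.rpow_mul h4]
    norm_num
  refine ⟨R, hRd, h1, h2, h3, hL, hL8, ?_, ?_, ?_⟩
  · rw [Real.rpow_neg h4, hL8]
  · have h9 : (N : ℝ) ^ α = N * (N : ℝ) ^ (-(1 - α)) := by
      rw [show α = 1 + (-(1 - α)) by ring, Real.rpow_add hN0, Real.rpow_one]
      congr 2
      ring
    rw [h9]
    nlinarith [h5]
  · have hs0 : 0 < Real.sqrt N := Real.sqrt_pos.2 hN0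
    rw [div_lt_iff₀ hs0]
    have h7 : Real.log N ≤ x ^ 2 / 2 * N := by
      have := h6
      simp only [id, Real.norm_eq_abs, abs_of_nonneg h4, abs_of_pos hN0] at this
      exact this
    refine lt_of_pow_lt_pow_left₀ 2 (by positivity) ?_
    rw [mul_pow, Real.sq_sqrt hN0.le, ← pow_mul]
    have h8 : R ^ (25 * 2) ≤ R ^ 200 := pow_le_pow_right₀ h2 (by norm_num)
    have h9 : 0 < x ^ 2 * N := by positivity
    rw [← hL] at h8
    linarith

/-- **MainOA.** -/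
theorem mainOA42 {ρ : Measure ℝ} {β : ℝ} [IsProbabilityMeasure ρ] (hρ : EM ρ) (hP : PolO ρ β)
    (hCo : CsO 2 ρ β) (hSt : StM 2 ρ β) (hVu : VuT 2 ρ β) (hJe : JeT) (hWi : WiT 2 ρ β)
    (hSe : SeT) (hRl : RlV 2 ρ β) (hLo : LoV 2 ρ β) (hIn : InO ρ β) : MainOA ρ β := by
  intro α c δ hα hc hδ
  have hconv : ConvexOn ℝ Set.univ (lam ρ β : Vec 2 → ℝ) := lam_convex two_pos hρ β
  obtain ⟨C₀, hC₀⟩ : ∃ C₀ : ℝ, C₀ = max 1 (1 / c) := ⟨_, rfl⟩
  have hC1 : 1 ≤ C₀ := by rw [hC₀]; exact le_max_left _ _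
  have hC2 : 1 / c ≤ C₀ := by rw [hC₀]; exact le_max_right _ _
  obtain ⟨a, κ, K, ha, hκ0, hκ1, hK1, hpol⟩ := hP C₀ hC1
  obtain ⟨A₂, A₃, R₀, hM2, hM3, h162, h163, hvert⟩ := vertOA42 hCo hSt hVu hJe hWi hSe hRl hLo hIn
    (α := α) (a := a) (κ := κ) (C := 2 * C₀) (M := 8 * K + 16) hα ha hκ0 hκ1 (by linarith)
  obtain ⟨N₀, hN₀⟩ := evOA42 hα (max (max R₀ (3 * K ^ 2 + K + 8)) (max A₂ A₃))
    (x := c * δ / 8) (by positivity)
  refine ⟨N₀, fun N hN E hE v₀ hv₀ => ?_⟩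
  obtain ⟨R, hRd, hN1, hR1, hRm, hlogN, hL8, hL8', hNα, hsmall⟩ := hN₀ N hN
  have hRR₀ : R₀ ≤ R := ((le_max_left _ _).trans (le_max_left _ _)).trans hRm
  have hRK : 3 * K ^ 2 + K + 8 ≤ R := ((le_max_right _ _).trans (le_max_left _ _)).trans hRm
  have hRA2 : A₂ ≤ R := ((le_max_left _ _).trans (le_max_right _ _)).trans hRm
  have hRA3 : A₃ ≤ R := ((le_max_right _ _).trans (le_max_right _ _)).trans hRm
  rw [← hRd] at hE
  rw [hL8, hL8']
  by_contra hno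
  push Not at hno
  have hR0 : 0 < R := by linarith
  have hN' : (0 : ℝ) < N := by exact_mod_cast hN1
  obtain ⟨s, hs⟩ : ∃ s : ℝ, s = Real.sqrt N := ⟨_, rfl⟩
  have hs0 : 0 < s := by rw [hs]; exact Real.sqrt_pos.2 hN'
  rw [← hs] at hsmall hno
  obtain ⟨ε, hε⟩ : ∃ ε : ℝ, ε = (R ^ 25)⁻¹ := ⟨_, rfl⟩
  rw [← hε] at hno
  have hR25 : 0 < R ^ 25 := by positivity
  have hε0 : 0 < ε := by rw [hε]; positivity
  have hεR : ε * R ^ 25 = 1 := by rw [hε]; exact inv_mul_cancel₀ hR25.ne'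
  have hRp : R ≤ R ^ 25 := le_self_pow₀ hR1 (by norm_num)
  have hK2 : 1 ≤ K ^ 2 := one_le_pow₀ hK1
  have hε6 : 6 * ε ≤ 1 := by
    have h1 : 6 * ε ≤ R ^ 25 * ε := mul_le_mul_of_nonneg_right (by linarith) hε0.le
    rw [mul_comm (R ^ 25) ε, hεR] at h1
    exact h1
  have hsR1 : 1 ≤ Real.sqrt R := Real.one_le_sqrt.2 hR1
  have hsRR : Real.sqrt R ≤ R := by
    rw [Real.sqrt_le_left hR0.le]
    exact le_self_pow₀ hR1 (by norm_num)
  have hKs : 1 ≤ K * Real.sqrt R := one_le_mul_of_one_le_of_one_le hK1 hsR1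
  have hKs2 : K * Real.sqrt R ≤ K * R := mul_le_mul_of_nonneg_left hsRR (by linarith)
  obtain ⟨x, hx⟩ : ∃ x : ℝ, x = ε / s := ⟨_, rfl⟩
  have hx0 : 0 < x := by rw [hx]; positivity
  have hsx : s * x = ε := by rw [hx]; field_simp
  rw [← hx] at hno
  -- the number of steps
  obtain ⟨J, hJ⟩ : ∃ J : ℕ, J = ⌈K * Real.sqrt R * R ^ 25⌉₊ + 1 := ⟨_, rfl⟩
  have hJ1 : K * Real.sqrt R * R ^ 25 + 1 ≤ J := by
    rw [hJ]
    push_cast
    have := Nat.le_ceil (K * Real.sqrt R * R ^ 25)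
    linarith
  have hJ2 : (J : ℝ) ≤ K * Real.sqrt R * R ^ 25 + 2 := by
    rw [hJ]
    push_cast
    have := Nat.ceil_lt_add_one (show 0 ≤ K * Real.sqrt R * R ^ 25 by positivity)
    linarith
  have hJε1 : K * Real.sqrt R + ε ≤ J * ε := by
    have h1 := mul_le_mul_of_nonneg_right hJ1 hε0.le
    have h2 : (K * Real.sqrt R * R ^ 25 + 1) * ε = K * Real.sqrt R * (ε * R ^ 25) + ε := by ring
    rw [h2, hεR, mul_one] at h1
    exact h1
  have hJε2 : J * ε ≤ K * Real.sqrt R + 2 * ε := by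
    have h1 := mul_le_mul_of_nonneg_right hJ2 hε0.le
    have h2 : (K * Real.sqrt R * R ^ 25 + 2) * ε = K * Real.sqrt R * (ε * R ^ 25) + 2 * ε := by
      ring
    rw [h2, hεR, mul_one] at h1
    exact h1
  have hR2 : R * R ≤ R ^ 25 := by
    rw [← pow_two]
    exact pow_le_pow_right₀ hR1 (by norm_num)
  have hJx : J * x ≤ R ^ 25 / s := by
    rw [le_div_iff₀ hs0]
    have h1 : J * x * s = J * ε := by rw [← hsx]; ring
    rw [h1]
    have h2 : (K + 1) * R ≤ R * R := mul_le_mul_of_nonneg_right (by linarith) hR0.le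
    have h4 : (K + 1) * R = K * R + R := by ring
    rw [h4] at h2
    linarith
  have h3x : 3 * x < c * δ := by
    have h1 : x ≤ R ^ 25 / s := by
      rw [hx]
      refine div_le_div_of_nonneg_right ?_ hs0.le
      linarith
    have h2 : 0 < c * δ := by positivity
    linarith
  obtain ⟨e, he⟩ : ∃ e : Vec 2, ‖e‖ = 1 := ⟨EuclideanSpace.single 0 1, by simp⟩
  obtain ⟨hs', vs, hvs0, hgood, hstep, hb⟩ := net13 hconv hc hδ
    (P := fun h v => WO ρ β h v N α R) hE hv₀ hx0 hno he hJx h3x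
  obtain ⟨b, hbd⟩ : ∃ b : ℝ, b = Real.sqrt N * inner ℝ e (vs J - vs 0) := ⟨_, rfl⟩
  obtain ⟨hb1, hb2⟩ := abs_le.1 hb
  have hb3 : J * ε - ε ≤ b := by
    have h1 := mul_le_mul_of_nonneg_left hb1 hs0.le
    have h2 : s * -x = -ε := by rw [mul_neg, hsx]
    have h3 : s * (inner ℝ e (vs J - vs 0) - J * x) = b - J * ε := by
      rw [hbd, ← hs, mul_sub, ← hsx]
      ring
    rw [h2, h3] at h1
    linarith
  have hb4 : b ≤ J * ε + ε := by
    have h1 := mul_le_mul_of_nonneg_left hb2 hs0.le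
    have h3 : s * (inner ℝ e (vs J - vs 0) - J * x) = b - J * ε := by
      rw [hbd, ← hs, mul_sub, ← hsx]
      ring
    rw [hsx, h3] at h1
    linarith
  obtain ⟨i, hi, T, hT1, hcard, hT2⟩ := hpol N J R (3 * ε) b hs' vs e hN1 hR1 (by positivity) he
    (fun j hj t ht1 ht2 => by
      have h1 : (N : ℝ) ≤ 2 * t := by exact_mod_cast ht1
      exact (hgood j hj).2.2.1 N t (by omega) ht2 le_rfl (by linarith))
    (fun j hj => by
      obtain ⟨h1, h2⟩ := hstep j hj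
      rw [← hs]
      constructor
      · refine h2.trans ?_
        have h3 : 3 * x / c = 1 / c * (3 * ε) / s := by rw [hx]; field_simp
        rw [h3]
        gcongr
      · refine h1.trans (le_of_eq ?_)
        rw [hx]
        ring)
    hbd (by linarith) (by linarith) (by
      have h1 : 4 * ε ≤ J * ε := by
        have : 6 * ε ≤ K * Real.sqrt R := by linarith
        linarith
      linarith) (by
      have h1 : R ^ 23 * (3 * K ^ 2 * ε * R ^ 2) = 3 * K ^ 2 := by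
        have : R ^ 23 * (3 * K ^ 2 * ε * R ^ 2) = 3 * K ^ 2 * (ε * R ^ 25) := by ring
        rw [this, hεR, mul_one]
      have h2 : R ≤ R ^ 23 := le_self_pow₀ hR1 (by norm_num)
      have h3 : 0 ≤ 3 * K ^ 2 * ε * R ^ 2 := by positivity
      have h4 : R * (3 * K ^ 2 * ε * R ^ 2) ≤ 3 * K ^ 2 :=
        (mul_le_mul_of_nonneg_right h2 h3).trans h1.le
      have h5 : 3 * K ^ 2 ≤ R := by linarith
      have h6 : R * (3 * K ^ 2 * ε * R ^ 2) ≤ R * 1 := by linarith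
      have h7 := le_of_mul_le_mul_left h6 hR0
      calc K ^ 2 * (3 * ε) * R ^ 2 = 3 * K ^ 2 * ε * R ^ 2 := by ring
        _ ≤ 1 := h7)
  obtain ⟨-, hgi, hWi', hvi⟩ := hgood i hi
  have hiJ : (i : ℝ) * ε ≤ J * ε := by
    refine mul_le_mul_of_nonneg_right ?_ hε0.le
    exact_mod_cast hi
  -- a far point at a given distance
  have hfar : ∀ A : ℝ, 8 * K + 16 ≤ A → 16 ≤ A → A ≤ R → ∀ k : ℕ, 3 ≤ k → k ≤ 20 →
      ∃ g' v' : Vec 2, WO ρ β g' v' N α R ∧
        A * R ^ k / 2 ≤ Real.sqrt N * inner ℝ e (v' - vs i) ∧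
        Real.sqrt N * ‖v' - vs i‖ ≤ 2 * (A * R ^ k) ∧
        Real.sqrt N * ‖g' - hs' i‖ ≤ 2 * C₀ * (A * R ^ k) := by
    intro A hA1 hA2 hA3 k hk1 hk2
    rw [← hs]
    have hA0 : 0 < A := by linarith
    have hRk : R ≤ R ^ k := le_self_pow₀ hR1 (by omega)
    have hy1 : A * R ^ k ≤ R ^ 25 := by
      calc A * R ^ k ≤ R * R ^ k := mul_le_mul_of_nonneg_right hA3 (by positivity)
        _ = R ^ (k + 1) := by ring
        _ ≤ R ^ 25 := pow_le_pow_right₀ hR1 (by omega)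
    have hAk : (8 * K + 16) * R ≤ A * R ^ k := mul_le_mul hA1 hRk hR0.le hA0.le
    have hy0 : 0 ≤ A * R ^ k := by positivity
    obtain ⟨g', v', -, hG, hW, hv'⟩ := far13 (P := fun h v => WO ρ β h v N α R) hE hno he
      (y := A * R ^ k / s) (by positivity) (div_le_div_of_nonneg_right hy1 hs0.le)
    have hKR : K * Real.sqrt R + 4 ≤ (4 * K + 8) * R := by
      have h1 : (4 * K + 8) * R = 4 * (K * R) + 8 * R := by ring
      have h2 : 0 ≤ K * R := by positivity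
      rw [h1]
      linarith
    have hKR2 : (8 * K + 16) * R = 2 * ((4 * K + 8) * R) := by ring
    have hKR3 : 0 ≤ (4 * K + 8) * R := by positivity
    have hix : i * x ≤ A * R ^ k / s := by
      rw [le_div_iff₀ hs0]
      have h1 : i * x * s = i * ε := by rw [← hsx]; ring
      rw [h1]
      linarith
    obtain ⟨h1, h2⟩ := sep13 he hvi hv' hix
    have h3 : s * (A * R ^ k / s - i * x - 2 * x) = A * R ^ k - i * ε - 2 * ε := by
      rw [mul_sub, mul_sub, mul_div_cancel₀ _ hs0.ne', ← hsx]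
      ring
    have h4 : s * (A * R ^ k / s - i * x + 2 * x) = A * R ^ k - i * ε + 2 * ε := by
      rw [mul_add, mul_sub, mul_div_cancel₀ _ hs0.ne', ← hsx]
      ring
    have h5 := mul_le_mul_of_nonneg_left h1 hs0.le
    have h6 := mul_le_mul_of_nonneg_left h2 hs0.le
    rw [h3] at h5
    rw [h4] at h6
    have hi0 : 0 ≤ (i : ℝ) * ε := by positivity
    have h7 : s * ‖v' - vs i‖ ≤ 2 * (A * R ^ k) := by linarith
    have h8 : ‖v' - vs i‖ < c * δ := by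
      have h9 : s * ‖v' - vs i‖ ≤ 2 * R ^ 25 := by linarith
      have h10 : ‖v' - vs i‖ ≤ 2 * (R ^ 25 / s) := by
        rw [← mul_div_assoc, le_div_iff₀ hs0]
        linarith
      have h11 : 0 < c * δ := by positivity
      linarith
    refine ⟨g', v', hW, ?_, h7, ?_⟩
    · refine le_trans ?_ h5
      linarith
    · have h9 := geo13 hconv hc hδ hgi hG h8
      have h10 := mul_le_mul_of_nonneg_left h9 hs0.le
      have h11 : s * (‖v' - vs i‖ / c) = 1 / c * (s * ‖v' - vs i‖) := by field_simp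
      rw [h11] at h10
      refine h10.trans ?_
      have h12 : 1 / c * (s * ‖v' - vs i‖) ≤ C₀ * (2 * (A * R ^ k)) :=
        mul_le_mul hC2 h7 (by positivity) (by linarith)
      linarith
  obtain ⟨g₂, v₂, hW2, h21, h22, h23⟩ := hfar A₃ hM3 h163 hRA3 3 le_rfl (by norm_num)
  obtain ⟨g₃, v₃, hW3, h31, h32, h33⟩ := hfar A₂ hM2 h162 hRA2 20 (by norm_num) le_rfl
  exact hvert N R (hs' i) (vs i) g₂ v₂ g₃ v₃ e T hN1 hR1 hRR₀ hlogN hNα he hWi' hW2 hW3 h21 h22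
    h23 h31 h32 h33 hT1 (fun t ht => hT2 t ht) hcard

end Pool.Agent.W_7d29a1_SA
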