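import Pool.Agent.W_7d29a1_SA.DefsA13
import Pool.Agent.W_7d29a1_S90.KrT28
import Pool.Agent.W_7d29a1_S90.CsK54

/-!
Theorem SUPA, polygon leaf: second moments at a good tilt and the step in the mean (helper13).
-/

namespace Pool.Agent.W_7d29a1_SA

open MeasureTheory ProbabilityTheory Filter Topology Pool.Agent.W_MP_7d29a1_pr
  Pool.Agent.W_7d29a1_h46 Pool.Agent.W_7d29a1_h46u Pool.Agent.W_7d29a1_D2.B35
  Pool.Agent.W_7d29a1_Q29 Pool.Agent.W_7d29a1_S90

variable {d n : ℕ} {ρ : Measure ℝ}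

/-- The second moment of `S_t - t v`. -/
lemma wv_mom13 {β : ℝ} {h v : Vec d} {α R : ℝ} (hW : WV ρ β h v n α R) {t : ℕ} (ht : 1 ≤ t)
    (htn : t ≤ n) (hα : (n : ℝ) ^ α ≤ t) :
    ∫ η, pe β h η (fun s : Fin n → Step d => ‖emb (pos s t) - (t : ℝ) • v‖ ^ 2) ∂(law d ρ) ≤
      R * t := by
  have h1 := hW 0 t (by omega) htn (by simpa using hα)
  have h2 : ∀ s : Fin n → Step d, inc 0 t (((t : ℝ) - ((0 : ℕ) : ℝ)) • v) s =
      ‖emb (pos s t) - (t : ℝ) • v‖ := by
    intro s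
    unfold inc
    rw [pos_zero73, emb_zero73, sub_zero, Nat.cast_zero, sub_zero]
  simp only [h2] at h1
  simpa using h1

lemma inner_sq13 (D x : Vec d) : inner ℝ D x ^ 2 ≤ ‖D‖ ^ 2 * ‖x‖ ^ 2 := by
  have h1 := abs_real_inner_le_norm D x
  have h2 : |inner ℝ D x| ^ 2 ≤ (‖D‖ * ‖x‖) ^ 2 := pow_le_pow_left₀ (abs_nonneg _) h1 2
  rwa [sq_abs, mul_pow] at h2

/-- The second moment of `⟨e, S_t⟩ - t ⟨e, v⟩`, from the one of `S_t - t v`. -/
lemma mv_sm13 [IsProbabilityMeasure ρ] (hd : 0 < d) {β : ℝ} {h v e : Vec d} (he : ‖e‖ = 1)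
    {t : ℕ} {B : ℝ} (hB : ∫ η, pe β h η (fun s : Fin n → Step d =>
      ‖emb (pos s t) - (t : ℝ) • v‖ ^ 2) ∂(law d ρ) ≤ B) :
    Sm ρ β h e n t (t * inner ℝ e v) ≤ B := by
  refine le_trans ?_ hB
  unfold Sm
  refine integral_mono (integrable_pe54 hd β h _) (integrable_pe54 hd β h _) fun η => ?_
  refine pe_mono31 hd β h η fun s => ?_
  have h1 : inner ℝ e (emb (pos s t)) - t * inner ℝ e v =
      inner ℝ e (emb (pos s t) - (t : ℝ) • v) := by
    rw [inner_sub_right, real_inner_smul_right]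
  have h2 := inner_sq13 e (emb (pos s t) - (t : ℝ) • v)
  rw [he, one_pow, one_mul] at h2
  show (inner ℝ e (emb (pos s t)) - t * inner ℝ e v) ^ 2 ≤ ‖emb (pos s t) - (t : ℝ) • v‖ ^ 2
  rw [h1]
  exact h2

/-- The second moment of `⟨e, S_t⟩ - t ⟨e, v⟩`. -/
lemma wv_sm13 [IsProbabilityMeasure ρ] (hd : 0 < d) {β : ℝ} {h v e : Vec d} (he : ‖e‖ = 1)
    {α R : ℝ} (hW : WV ρ β h v n α R) {t : ℕ} (ht : 1 ≤ t) (htn : t ≤ n)
    (hα : (n : ℝ) ^ α ≤ t) : Sm ρ β h e n t (t * inner ℝ e v) ≤ R * t :=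
  mv_sm13 hd he (wv_mom13 hW ht htn hα)

/-- The two second moments of a step, from the ones of `S_n - n v`. -/
lemma mv_step13 [IsProbabilityMeasure ρ] (hd : 0 < d) {β : ℝ} {h h' v v' : Vec d} {R : ℝ}
    (h1 : ∫ η, pe β h η (fun s : Fin n → Step d =>
      ‖emb (pos s n) - (n : ℝ) • v‖ ^ 2) ∂(law d ρ) ≤ R * n)
    (h2 : ∫ η, pe β h' η (fun s : Fin n → Step d =>
      ‖emb (pos s n) - (n : ℝ) • v'‖ ^ 2) ∂(law d ρ) ≤ R * n)
    (D : Vec d) :
    (∫ η, pe β h η (fun s : Fin n → Step d =>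
        (inner ℝ D (emb (pos s n)) - n * inner ℝ D v) ^ 2) ∂(law d ρ)) +
      (∫ η, pe β h' η (fun s : Fin n → Step d =>
        (inner ℝ D (emb (pos s n)) - n * inner ℝ D v) ^ 2) ∂(law d ρ)) ≤
      ‖D‖ ^ 2 * (3 * R * n + 2 * (n * ‖v' - v‖) ^ 2) := by
  have e1 : ∀ s : Fin n → Step d, inner ℝ D (emb (pos s n)) - n * inner ℝ D v =
      inner ℝ D (emb (pos s n) - (n : ℝ) • v) := by
    intro s
    rw [inner_sub_right, real_inner_smul_right]
  have h3 : ∫ η, pe β h η (fun s : Fin n → Step d =>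
      (inner ℝ D (emb (pos s n)) - n * inner ℝ D v) ^ 2) ∂(law d ρ) ≤ ‖D‖ ^ 2 * (R * n) := by
    refine le_trans ?_ (mul_le_mul_of_nonneg_left h1 (sq_nonneg _))
    rw [← integral_const_mul]
    refine integral_mono (integrable_pe54 hd β h _) ((integrable_pe54 hd β h _).const_mul _)
      fun η => ?_
    show pe β h η _ ≤ ‖D‖ ^ 2 * pe β h η _
    rw [← pe_mul73]
    refine pe_mono31 hd β h η fun s => ?_
    show (inner ℝ D (emb (pos s n)) - n * inner ℝ D v) ^ 2 ≤ _
    rw [e1]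
    exact inner_sq13 _ _
  have h4 : ∫ η, pe β h' η (fun s : Fin n → Step d =>
      (inner ℝ D (emb (pos s n)) - n * inner ℝ D v) ^ 2) ∂(law d ρ) ≤
      ‖D‖ ^ 2 * (2 * (R * n) + 2 * (n * ‖v' - v‖) ^ 2) := by
    have h5 : ∫ η, pe β h' η (fun s : Fin n → Step d =>
        (inner ℝ D (emb (pos s n)) - n * inner ℝ D v) ^ 2) ∂(law d ρ) ≤
        ∫ η, (‖D‖ ^ 2 * (2 * pe β h' η (fun s : Fin n → Step d =>
          ‖emb (pos s n) - (n : ℝ) • v'‖ ^ 2) + 2 * (n * ‖v' - v‖) ^ 2)) ∂(law d ρ) := by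
      refine integral_mono (integrable_pe54 hd β h' _)
        ((((integrable_pe54 hd β h' _).const_mul 2).add (integrable_const _)).const_mul _)
        fun η => ?_
      show pe β h' η _ ≤ ‖D‖ ^ 2 * (2 * pe β h' η _ + 2 * (n * ‖v' - v‖) ^ 2)
      have h6 : ‖D‖ ^ 2 * (2 * pe β h' η (fun s : Fin n → Step d =>
          ‖emb (pos s n) - (n : ℝ) • v'‖ ^ 2) + 2 * (n * ‖v' - v‖) ^ 2) =
          pe β h' η (fun s : Fin n → Step d => ‖D‖ ^ 2 * (2 *
            ‖emb (pos s n) - (n : ℝ) • v'‖ ^ 2 + 2 * (n * ‖v' - v‖) ^ 2)) := by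
        rw [pe_mul73, pe_add73, pe_mul73, pe_const73 hd]
      rw [h6]
      refine pe_mono31 hd β h' η fun s => ?_
      show (inner ℝ D (emb (pos s n)) - n * inner ℝ D v) ^ 2 ≤ _
      rw [e1]
      refine (inner_sq13 _ _).trans (mul_le_mul_of_nonneg_left ?_ (sq_nonneg _))
      have h7 : emb (pos s n) - (n : ℝ) • v = (emb (pos s n) - (n : ℝ) • v') +
          (n : ℝ) • (v' - v) := by
        rw [smul_sub]
        abel
      have h8 : ‖emb (pos s n) - (n : ℝ) • v‖ ≤ ‖emb (pos s n) - (n : ℝ) • v'‖ +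
          n * ‖v' - v‖ := by
        rw [h7]
        refine (norm_add_le _ _).trans (le_of_eq ?_)
        rw [norm_smul, Real.norm_eq_abs, abs_of_nonneg (Nat.cast_nonneg n)]
      have h9 : ‖emb (pos s n) - (n : ℝ) • v‖ ^ 2 ≤
          (‖emb (pos s n) - (n : ℝ) • v'‖ + n * ‖v' - v‖) ^ 2 :=
        pow_le_pow_left₀ (norm_nonneg _) h8 2
      nlinarith [sq_nonneg (‖emb (pos s n) - (n : ℝ) • v'‖ - n * ‖v' - v‖)]
    refine h5.trans ?_
    rw [integral_const_mul, integral_add ((integrable_pe54 hd β h' _).const_mul 2)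
      (integrable_const _), integral_const_mul, integral_const, probReal_univ, one_smul]
    refine mul_le_mul_of_nonneg_left ?_ (sq_nonneg _)
    linarith
  refine (add_le_add h3 h4).trans (le_of_eq ?_)
  ring

/-- The two second moments of a step. -/
lemma wv_step13 [IsProbabilityMeasure ρ] (hd : 0 < d) {β : ℝ} {h h' v v' : Vec d} {α R : ℝ}
    (hW : WV ρ β h v n α R) (hW' : WV ρ β h' v' n α R) (hn : 1 ≤ n) (hα : (n : ℝ) ^ α ≤ n)
    (D : Vec d) :
    (∫ η, pe β h η (fun s : Fin n → Step d =>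
        (inner ℝ D (emb (pos s n)) - n * inner ℝ D v) ^ 2) ∂(law d ρ)) +
      (∫ η, pe β h' η (fun s : Fin n → Step d =>
        (inner ℝ D (emb (pos s n)) - n * inner ℝ D v) ^ 2) ∂(law d ρ)) ≤
      ‖D‖ ^ 2 * (3 * R * n + 2 * (n * ‖v' - v‖) ^ 2) :=
  mv_step13 hd (wv_mom13 hW hn le_rfl hα) (wv_mom13 hW' hn le_rfl hα) D

/-- The step in the mean. -/
lemma step13 [IsProbabilityMeasure ρ] (hd : 0 < d) {β : ℝ} (hO : OneC d β) (h D : Vec d)
    (f : (Fin n → Step d) → ℝ) {a b k Q l : ℝ} (hab : a ≤ b) (hf : ∀ s, a ≤ f s ∧ f s ≤ b)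
    (hl : 0 < l)
    (hQ : (∫ η, pe β h η (fun s : Fin n → Step d =>
        (inner ℝ D (emb (pos s n)) - k) ^ 2) ∂(law d ρ)) +
      (∫ η, pe β (h + D) η (fun s : Fin n → Step d =>
        (inner ℝ D (emb (pos s n)) - k) ^ 2) ∂(law d ρ)) ≤ Q) :
    |(∫ η, pe β (h + D) η f ∂(law d ρ)) - ∫ η, pe β h η f ∂(law d ρ)| ≤
      7 / 2 * (l * (∫ η, co28 β h η f f ∂(law d ρ)) + Q / l) + (b - a) * Q := by
  obtain ⟨Y, hY⟩ : ∃ Y : (Fin n → Step d) → ℝ, Y = fun s =>
    (inner ℝ D (emb (pos s n)) - k) ^ 2 := ⟨_, rfl⟩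
  have hY0 : ∀ s, 0 ≤ Y s := fun s => by rw [hY]; exact sq_nonneg _
  have hQ' : (∫ η, pe β h η Y ∂(law d ρ)) + (∫ η, pe β (h + D) η Y ∂(law d ρ)) ≤ Q := by
    rw [hY]
    exact hQ
  have iY := integrable_pe54 (ρ := ρ) hd β h Y
  have iY' := integrable_pe54 (ρ := ρ) hd β (h + D) Y
  have iV := integrable_co28 (ρ := ρ) hd β h f f
  have hpt : ∀ η : Env d, |pe β (h + D) η f - pe β h η f| ≤
      7 / 2 * (l * co28 β h η f f + (pe β h η Y + pe β (h + D) η Y) / l) +
        (b - a) * (pe β h η Y + pe β (h + D) η Y) := by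
    intro η
    obtain ⟨q, hq⟩ : ∃ q, q = pe β h η Y + pe β (h + D) η Y := ⟨_, rfl⟩
    have h1 := hO h D η n f a b k q hf (by rw [hq, hY])
    have h2 : pe β h η (fun s => f s ^ 2) - pe β h η f ^ 2 = co28 β h η f f := by
      unfold co28
      simp only [pow_two]
    rw [h2] at h1
    have hv := co_self_nonneg28 hd β h η f
    have hq0 : 0 ≤ q := by
      rw [hq]
      exact add_nonneg (pe_nonneg73 hd β h η hY0) (pe_nonneg73 hd β (h + D) η hY0)
    rw [← hq]
    have h3 : 2 * (Real.sqrt (co28 β h η f f) * Real.sqrt q) ≤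
        l * co28 β h η f f + q / l := by
      have e1 := Real.sq_sqrt hv
      have e2 := Real.sq_sqrt hq0
      have h4 : 0 ≤ (Real.sqrt l * Real.sqrt (co28 β h η f f) - Real.sqrt q / Real.sqrt l) ^ 2 :=
        sq_nonneg _
      have e3 := Real.sq_sqrt hl.le
      have e4 : 0 < Real.sqrt l := Real.sqrt_pos.2 hl
      have h5 : (Real.sqrt l * Real.sqrt (co28 β h η f f) - Real.sqrt q / Real.sqrt l) ^ 2 =
          Real.sqrt l ^ 2 * Real.sqrt (co28 β h η f f) ^ 2 + Real.sqrt q ^ 2 / Real.sqrt l ^ 2 -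
            2 * (Real.sqrt (co28 β h η f f) * Real.sqrt q) := by
        field_simp
        ring
      rw [h5, e1, e2, e3] at h4
      linarith
    nlinarith [h1, h3]
  have hI : Integrable (fun η : Env d =>
      7 / 2 * (l * co28 β h η f f + (pe β h η Y + pe β (h + D) η Y) / l) +
        (b - a) * (pe β h η Y + pe β (h + D) η Y)) (law d ρ) :=
    (((iV.const_mul l).add ((iY.add iY').div_const l)).const_mul (7 / 2)).add
      ((iY.add iY').const_mul (b - a))
  have hf1 := integrable_pe54 (ρ := ρ) hd β (h + D) f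
  have hf0 := integrable_pe54 (ρ := ρ) hd β h f
  rw [← integral_sub hf1 hf0]
  refine (abs_integral_le_integral_abs).trans ((integral_mono (hf1.sub hf0).abs hI hpt).trans ?_)
  have h6 : ∫ η, (7 / 2 * (l * co28 β h η f f + (pe β h η Y + pe β (h + D) η Y) / l) +
      (b - a) * (pe β h η Y + pe β (h + D) η Y)) ∂(law d ρ) =
      7 / 2 * (l * (∫ η, co28 β h η f f ∂(law d ρ)) +
        ((∫ η, pe β h η Y ∂(law d ρ)) + ∫ η, pe β (h + D) η Y ∂(law d ρ)) / l) +
      (b - a) * ((∫ η, pe β h η Y ∂(law d ρ)) + ∫ η, pe β (h + D) η Y ∂(law d ρ)) := by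
    have j1 : Integrable (fun η : Env d => pe β h η Y + pe β (h + D) η Y) (law d ρ) := iY.add iY'
    have j2 : Integrable (fun η : Env d => l * co28 β h η f f +
      (pe β h η Y + pe β (h + D) η Y) / l) (law d ρ) := (iV.const_mul l).add (j1.div_const l)
    rw [integral_add (j2.const_mul (7 / 2)) (j1.const_mul (b - a)), integral_const_mul,
      integral_const_mul, integral_add (iV.const_mul l) (j1.div_const l), integral_const_mul,
      integral_div, integral_add iY iY']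
  rw [h6]
  have h7 : ((∫ η, pe β h η Y ∂(law d ρ)) + ∫ η, pe β (h + D) η Y ∂(law d ρ)) / l ≤ Q / l :=
    div_le_div_of_nonneg_right hQ' hl.le
  have h8 := mul_le_mul_of_nonneg_left hQ' (sub_nonneg.2 hab)
  linarith

/-- The variance of a bounded function. -/
lemma co_le13 (hd : 0 < d) (β : ℝ) (h : Vec d) (η : Env d) {f : (Fin n → Step d) → ℝ} {a b : ℝ}
    (hf : ∀ s, a ≤ f s ∧ f s ≤ b) : co28 β h η f f ≤ (b - a) ^ 2 := by
  have h1 := two_co28 hd β h η f
  have h2 : pe2 β h η (fun s s' => (f s - f s') ^ 2) ≤ (b - a) ^ 2 := by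
    have h3 : pe2 β h η (fun s s' => (f s - f s') ^ 2) ≤
        pe2 β h η (fun _ _ : Fin n → Step d => (b - a) ^ 2) := by
      refine pe2_mono73 hd β h η fun s s' => ?_
      have h4 := hf s
      have h5 := hf s'
      exact sq_le_sq' (by linarith) (by linarith)
    have h6 : pe2 β h η (fun _ _ : Fin n → Step d => (b - a) ^ 2) = (b - a) ^ 2 := by
      unfold pe2
      simp only [pe_const73 hd]
    rwa [h6] at h3
  have h3 := co_self_nonneg28 hd β h η f
  linarith

open Classical in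
/-- A large variance of the clamp separates the replicas. -/
lemma rep13 [IsProbabilityMeasure ρ] (hd : 0 < d) (β : ℝ) (h e : Vec d) (t : ℕ) {a b r : ℝ}
    (he : ‖e‖ = 1) (hab : a ≤ b) (hr : 0 ≤ r) :
    2 * ∫ η, co28 β h η (fun s : Fin n → Step d => cl e t a b s)
      (fun s : Fin n → Step d => cl e t a b s) ∂(law d ρ) ≤
      (b - a) ^ 2 * Rp ρ β h n t r + r ^ 2 := by
  set x : (Fin n → Step d) → ℝ := fun s => inner ℝ e (emb (pos s t)) with hx
  set f : (Fin n → Step d) → ℝ := fun s => cl e t a b s with hf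
  have hlip : ∀ s s' : Fin n → Step d, |f s - f s'| ≤ |x s - x s'| := fun s s' =>
    clamp_lip28 a b _ _
  set I : (Fin n → Step d) → (Fin n → Step d) → ℝ :=
    fun s s' => if r < ‖emb (pos s t) - emb (pos s' t)‖ then (1 : ℝ) else 0 with hI
  have hpt : ∀ s s' : Fin n → Step d, (f s - f s') ^ 2 ≤ (b - a) ^ 2 * I s s' + r ^ 2 := by
    intro s s'
    by_cases hb : r < ‖emb (pos s t) - emb (pos s' t)‖
    · have h5 : I s s' = 1 := if_pos hb
      rw [h5, mul_one]
      have h1 := clamp_nonneg28 hab (inner ℝ e (emb (pos s t)))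
      have h2 := clamp_nonneg28 hab (inner ℝ e (emb (pos s' t)))
      have h3 : |f s - f s'| ≤ b - a := by
        rw [abs_le]
        constructor
        · have h4 : a ≤ f s := h1.1
          have h6 : f s' ≤ b := h2.2
          linarith
        · have h4 : f s ≤ b := h1.2
          have h6 : a ≤ f s' := h2.1
          linarith
      have h7 : (f s - f s') ^ 2 ≤ (b - a) ^ 2 := by
        rw [← sq_abs (f s - f s')]
        exact pow_le_pow_left₀ (abs_nonneg _) h3 2
      have h8 := sq_nonneg r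
      linarith
    · have h5 : I s s' = 0 := if_neg hb
      rw [h5, mul_zero, zero_add]
      have h1 : |x s - x s'| ≤ ‖emb (pos s t) - emb (pos s' t)‖ := by
        have h2 : x s - x s' = inner ℝ e (emb (pos s t) - emb (pos s' t)) := by
          rw [hx, inner_sub_right]
        have h3 := abs_real_inner_le_norm e (emb (pos s t) - emb (pos s' t))
        rwa [he, one_mul, ← h2] at h3
      have h3 : |f s - f s'| ≤ r := (hlip s s').trans (h1.trans (not_lt.1 hb))
      rw [← sq_abs (f s - f s')]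
      exact pow_le_pow_left₀ (abs_nonneg _) h3 2
  have hiI : Integrable (fun η : Env d => pe2 β h η I) (law d ρ) :=
    integrable_pe2_fun73 hd β h I
  have h1 : ∀ η : Env d, 2 * co28 β h η f f ≤ (b - a) ^ 2 * pe2 β h η I + r ^ 2 := by
    intro η
    have h2 := pe2_mono73 hd β h η hpt
    rw [two_co28 hd] at h2
    have h3 : pe2 β h η (fun s s' => (b - a) ^ 2 * I s s' + r ^ 2) =
        (b - a) ^ 2 * pe2 β h η I + r ^ 2 := by
      unfold pe2
      simp only [pe_add73, pe_mul73, pe_const73 hd]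
    rwa [h3] at h2
  have h2 := integral_mono ((integrable_co28 (ρ := ρ) hd β h f f).const_mul 2)
    ((hiI.const_mul ((b - a) ^ 2)).add (integrable_const (r ^ 2))) h1
  rw [integral_const_mul] at h2
  have h3 : ∫ η, ((b - a) ^ 2 * pe2 β h η I + r ^ 2) ∂(law d ρ) =
      (b - a) ^ 2 * Rp ρ β h n t r + r ^ 2 := by
    rw [integral_add (hiI.const_mul _) (integrable_const _), integral_const_mul,
      integral_const, probReal_univ, one_smul]
    rfl
  exact h2.trans h3.le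

end Pool.Agent.W_7d29a1_SA
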