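import Pool.Agent.W_7d29a1_SA.DefsOA42
import Pool.Agent.W_7d29a1_SA.PolA13
import Pool.Agent.W_7d29a1_S90.StepO28
import Pool.Agent.W_7d29a1_S90.CsT75

/-!
Theorem ORIA: the inequality for one length, at a vertex with two partners (helper42).
-/

namespace Pool.Agent.W_7d29a1_SA

open MeasureTheory ProbabilityTheory Filter Topology Pool.Agent.W_MP_7d29a1_pr
  Pool.Agent.W_7d29a1_h46 Pool.Agent.W_7d29a1_h46u Pool.Agent.W_7d29a1_D2.B35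
  Pool.Agent.W_7d29a1_Q29 Pool.Agent.W_7d29a1_S90

variable {ρ : Measure ℝ} {β : ℝ}

lemma wo_w042 {d : ℕ} {h v : Vec d} {N : ℕ} {α R : ℝ} (hW : WO ρ β h v N α R) :
    W0 ρ β h N α R := fun n t h1 h2 h3 h4 => ⟨(t : ℝ) • v, hW n t h1 h2 h3 h4⟩

/-- The mean of `⟨e, S_t⟩` and the velocity; the second moment. -/
lemma ft42 {d : ℕ} [IsProbabilityMeasure ρ] (hd : 0 < d) {h v e : Vec d} (he : ‖e‖ = 1) {n : ℕ}
    {α R : ℝ} (hR : 0 ≤ R) (hW : WO ρ β h v n α R) {t : ℕ} (h1 : 1 ≤ t) (h2 : t ≤ n)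
    (h3 : (n : ℝ) ^ α ≤ t) :
    |Ft ρ β h e n t - t * inner ℝ e v| ≤ Real.sqrt R * Real.sqrt n ∧
      Sm ρ β h e n t (Ft ρ β h e n t) ≤ R * n := by
  have e1 := mv_sm13 (ρ := ρ) hd (β := β) he (hW n t h1 h2 le_rfl h3)
  have e2 := sm_eq75 (ρ := ρ) (n := n) hd β h e t (t * inner ℝ e v)
  have e3 : 0 ≤ Sm ρ β h e n t (Ft ρ β h e n t) := by
    unfold Sm
    exact integral_nonneg fun η => pe_nonneg73 hd β h η fun s => sq_nonneg _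
  have htn : (t : ℝ) ≤ n := by exact_mod_cast h2
  have e4 : R * t ≤ R * n := mul_le_mul_of_nonneg_left htn hR
  constructor
  · rw [← Real.sqrt_mul hR]
    refine Real.abs_le_sqrt ?_
    linarith
  · nlinarith [sq_nonneg (Ft ρ β h e n t - t * inner ℝ e v)]

/-- The separation of two velocities. -/
lemma sep42 {d : ℕ} [IsProbabilityMeasure ρ] (hd : 0 < d) {g v g' v' e : Vec d} (he : ‖e‖ = 1)
    {n : ℕ} {α R a : ℝ} (hR : 0 ≤ R) (hW : WO ρ β g v n α R) (hW' : WO ρ β g' v' n α R) {t : ℕ}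
    (h1 : 1 ≤ t) (h2 : t ≤ n) (h3 : (n : ℝ) ^ α ≤ t) (h4 : n ≤ 2 * t)
    (hv : a / 2 ≤ Real.sqrt n * inner ℝ e (v' - v)) (ha : 16 * Real.sqrt R ≤ a) :
    a * Real.sqrt n / 8 ≤ |Ft ρ β g e n t - Ft ρ β g' e n t| := by
  obtain ⟨e1, -⟩ := ft42 hd he hR hW h1 h2 h3
  obtain ⟨e2, -⟩ := ft42 hd he hR hW' h1 h2 h3
  obtain ⟨f1, f2⟩ := abs_le.1 e1
  obtain ⟨f3, f4⟩ := abs_le.1 e2
  have hn0 : (0 : ℝ) ≤ n := Nat.cast_nonneg n
  have hs := Real.mul_self_sqrt hn0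
  have hs0 := Real.sqrt_nonneg (n : ℝ)
  have ht : (n : ℝ) ≤ 2 * t := by exact_mod_cast h4
  have hinn : inner ℝ e (v' - v) = inner ℝ e v' - inner ℝ e v := inner_sub_right _ _ _
  have hpos : 0 ≤ a := le_trans (by positivity) ha
  have hd0 : 0 ≤ inner ℝ e (v' - v) := by
    by_contra hcon
    push Not at hcon
    rcases hs0.eq_or_lt with h | h
    · have hn1 : (1 : ℝ) ≤ n := by exact_mod_cast h1.trans h2
      rw [← h] at hs
      linarith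
    · have := mul_neg_of_pos_of_neg h hcon
      linarith
  have hkey : a * Real.sqrt n / 4 ≤ t * inner ℝ e (v' - v) := by
    have h5 : (n : ℝ) / 2 * inner ℝ e (v' - v) ≤ t * inner ℝ e (v' - v) :=
      mul_le_mul_of_nonneg_right (by linarith) hd0
    have h6 := mul_le_mul_of_nonneg_right hv hs0
    have h7 : Real.sqrt n * inner ℝ e (v' - v) * Real.sqrt n =
        (Real.sqrt n * Real.sqrt n) * inner ℝ e (v' - v) := by ring
    rw [h7, hs] at h6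
    linarith
  have h8 : Real.sqrt R * Real.sqrt n ≤ a * Real.sqrt n / 16 := by
    have := mul_le_mul_of_nonneg_right ha hs0
    linarith
  rw [hinn, mul_sub] at hkey
  refine le_trans ?_ (neg_le_abs _)
  linarith

/-- The upper bound of the variance of the difference of two tilts. -/
lemma var42 {d : ℕ} [IsProbabilityMeasure ρ] (hd : 0 < d) (hVu : VuT d ρ β) {g v g' v' e₀ : Vec d}
    (he₀ : ‖e₀‖ = 1) {n : ℕ} (hn : 1 ≤ n) {α R a C : ℝ} (hR : 1 ≤ R) (hαn : (n : ℝ) ^ α ≤ n)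
    (hW : WO ρ β g v n α R) (hW' : WO ρ β g' v' n α R)
    (hv : Real.sqrt n * ‖v' - v‖ ≤ 2 * a) (hg : Real.sqrt n * ‖g' - g‖ ≤ C * a)
    (ha : 16 * Real.sqrt R ≤ a) :
    ∫ η, (X β g η n - X β g' η n - (A ρ β g n - A ρ β g' n)) ^ 2 ∂(law d ρ) ≤
      10 * C ^ 2 * a ^ 4 := by
  have hn' : (0 : ℝ) < n := by exact_mod_cast hn
  have hs := Real.mul_self_sqrt hn'.le
  have hs0 := Real.sqrt_pos.2 hn'
  have hR0 : 0 ≤ R := by linarith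
  have hsR := Real.mul_self_sqrt hR0
  have hsR1 : 1 ≤ Real.sqrt R := Real.one_le_sqrt.2 hR
  have ha0 : 0 ≤ a := by linarith
  -- the direction
  obtain ⟨e, k, he, hk, hk2, hge⟩ : ∃ (e : Vec d) (k : ℝ), ‖e‖ = 1 ∧ 0 ≤ k ∧ k = ‖g' - g‖ ∧
      g' = g + k • e := by
    by_cases h0 : ‖g' - g‖ = 0
    · refine ⟨e₀, 0, he₀, le_rfl, h0.symm, ?_⟩
      rw [zero_smul, add_zero]
      exact sub_eq_zero.1 (norm_eq_zero.1 h0)
    · refine ⟨(‖g' - g‖)⁻¹ • (g' - g), ‖g' - g‖, ?_, norm_nonneg _, rfl, ?_⟩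
      · rw [norm_smul, norm_inv, norm_norm, inv_mul_cancel₀ h0]
      · rw [smul_smul, mul_inv_cancel₀ h0, one_smul]
        abel
  obtain ⟨f1, f2⟩ := ft42 hd he hR0 hW hn le_rfl hαn
  obtain ⟨f3, f4⟩ := ft42 hd he hR0 hW' hn le_rfl hαn
  have h1 := hVu g e n k (R * n) hk f2 (by rw [← hge]; exact f4)
  rw [← hge] at h1
  have e1 : ∫ η, (X β g η n - X β g' η n - (A ρ β g n - A ρ β g' n)) ^ 2 ∂(law d ρ) =
      ∫ η, (X β g' η n - X β g η n - (A ρ β g' n - A ρ β g n)) ^ 2 ∂(law d ρ) := by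
    congr 1
    funext η
    ring
  rw [e1]
  refine h1.trans ?_
  have h2 : |Ft ρ β g' e n n - Ft ρ β g e n n| ≤ Real.sqrt n * (3 * a) := by
    have h3 : |(n : ℝ) * inner ℝ e v' - n * inner ℝ e v| ≤ n * ‖v' - v‖ := by
      rw [← mul_sub, ← inner_sub_right, abs_mul, abs_of_pos hn']
      have := abs_real_inner_le_norm e (v' - v)
      rw [he, one_mul] at this
      exact mul_le_mul_of_nonneg_left this hn'.le
    have h4 : (n : ℝ) * ‖v' - v‖ ≤ Real.sqrt n * (2 * a) := by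
      have := mul_le_mul_of_nonneg_left hv hs0.le
      rw [← mul_assoc, hs] at this
      exact this
    have h5 : Real.sqrt R * Real.sqrt n ≤ Real.sqrt n * (a / 16) := by
      have := mul_le_mul_of_nonneg_right ha hs0.le
      linarith
    obtain ⟨q1, q2⟩ := abs_le.1 f1
    obtain ⟨q3, q4⟩ := abs_le.1 f3
    obtain ⟨q5, q6⟩ := abs_le.1 h3
    have h6 : Real.sqrt n * (3 * a) = Real.sqrt n * (2 * a) + 2 * (Real.sqrt n * (a / 16)) +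
      Real.sqrt n * (7 / 8 * a) := by ring
    have h7 : 0 ≤ Real.sqrt n * (7 / 8 * a) := by positivity
    rw [h6, abs_le]
    constructor <;> linarith
  have h3 : (Ft ρ β g' e n n - Ft ρ β g e n n) ^ 2 ≤ 9 * a ^ 2 * n := by
    have h4 : (Ft ρ β g' e n n - Ft ρ β g e n n) ^ 2 ≤ (Real.sqrt n * (3 * a)) ^ 2 := by
      rw [← sq_abs]
      exact pow_le_pow_left₀ (abs_nonneg _) h2 2
    refine h4.trans (le_of_eq ?_)
    rw [mul_pow, pow_two (Real.sqrt n), hs]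
    ring
  have h4 : k ^ 2 * n ≤ C ^ 2 * a ^ 2 := by
    have h5 : (Real.sqrt n * ‖g' - g‖) ^ 2 ≤ (C * a) ^ 2 :=
      pow_le_pow_left₀ (by positivity) hg 2
    rw [mul_pow, pow_two (Real.sqrt n), hs, ← hk2, mul_pow] at h5
    linarith
  have h5 : 2 * R ≤ a ^ 2 := by
    have : (16 * Real.sqrt R) ^ 2 ≤ a ^ 2 := pow_le_pow_left₀ (by positivity) ha 2
    rw [mul_pow, pow_two (Real.sqrt R), hsR] at this
    linarith
  have h6 : 2 * (R * n) + (Ft ρ β g' e n n - Ft ρ β g e n n) ^ 2 ≤ 10 * a ^ 2 * n := by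
    nlinarith
  calc k ^ 2 * (2 * (R * n) + (Ft ρ β g' e n n - Ft ρ β g e n n) ^ 2)
      ≤ k ^ 2 * (10 * a ^ 2 * n) := mul_le_mul_of_nonneg_left h6 (sq_nonneg _)
    _ = (k ^ 2 * n) * (10 * a ^ 2) := by ring
    _ ≤ (C ^ 2 * a ^ 2) * (10 * a ^ 2) := mul_le_mul_of_nonneg_right h4 (by positivity)
    _ = 10 * C ^ 2 * a ^ 4 := by ring

/-- The inequality for one length. -/
theorem stepOA42 [IsProbabilityMeasure ρ] (hCo : CsO 2 ρ β) (hSt : StM 2 ρ β) (hVu : VuT 2 ρ β)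
    (hJe : JeT) (hWi : WiT 2 ρ β) (hSe : SeT)
    {cB CB cL CL cI CI : ℝ} (hcB : 0 < cB) (hCB : 0 ≤ CB)
    (hRl : ∀ (h h' : Vec 2) (n : ℕ) (T : Finset ℕ), T ⊆ Finset.Icc 1 n →
      ∑ t ∈ T, ∫ η, ∑ y ∈ boxF 2 n, bw ρ β h h' n t cB CB y η ^ 2 ∂(law 2 ρ) ≤
        ∫ η, (X β h η n - X β h' η n - (A ρ β h n - A ρ β h' n)) ^ 2 ∂(law 2 ρ))
    (hcL : 0 < cL) (hcL1 : cL ≤ 1) (hCL : 0 ≤ CL)
    (hLo : ∀ (h h' : Vec 2) (n : ℕ) (T : Finset ℕ), T ⊆ Finset.Icc 1 n →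
      ∑ t ∈ T, ∫ η, ∑ y ∈ boxF 2 n, aw ρ β h h' n t cL CL y η ^ 2 ∂(law 2 ρ) ≤
        ∫ η, (X β h η n - X β h' η n - (A ρ β h n - A ρ β h' n)) ^ 2 ∂(law 2 ρ))
    (hcI : 0 < cI) (hcI1 : cI ≤ 1)
    (hIn : ∀ (h : Vec 2) (n t s₀ s₁ : ℕ) (T : Finset ℕ) (R a κ K : ℝ), 1 ≤ n → 1 ≤ t → t ≤ n →
      1 ≤ s₀ → s₁ < t → 1 ≤ R → 0 < a → 0 < κ → κ ≤ 1 → 1 ≤ K → 4 * K * s₁ ≤ a * n →
      (∃ m : Vec 2, ∫ η, pe β h η (fun s : Fin n → Step 2 => ‖emb (pos s t) - m‖ ^ 2)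
        ∂(law 2 ρ) ≤ R * n) →
      (∀ s ∈ Finset.Icc s₀ s₁, t - s ∈ T → ∃ m : Vec 2,
        Tl ρ β h n (t - s) t m (Real.sqrt (K * s)) ≤ cI * κ ^ 2) →
      κ ≤ Rp ρ β h n t (Real.sqrt (a * n)) →
        En ρ β h n t (t - 1) ≤ Real.log n + Real.log R + CI -
          cI * κ ^ 4 / K * ∑ s ∈ (Finset.Icc s₀ s₁).filter (fun s => t - s ∈ T), 1 / (s : ℝ))
    {g v g₂ v₂ g₃ v₃ e : Vec 2} (he : ‖e‖ = 1) {n : ℕ} {α R a θ κ ϑ K C a₂ a₃ γ E : ℝ}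
    {s₀ s₁ : ℕ} (hn : 1 ≤ n) (hαn : (n : ℝ) ^ α ≤ n / 2) (hR : 1 ≤ R)
    (hg : WO ρ β g v n α R) (hg₂ : WO ρ β g₂ v₂ n α R) (hg₃ : WO ρ β g₃ v₃ n α R)
    (ha3 : 16 * Real.sqrt R ≤ a₃) (ha2 : 16 * Real.sqrt R ≤ a₂) (hC : 1 ≤ C)
    (hv2 : a₃ / 2 ≤ Real.sqrt n * inner ℝ e (v₂ - v)) (hn2 : Real.sqrt n * ‖v₂ - v‖ ≤ 2 * a₃)
    (hh2 : Real.sqrt n * ‖g₂ - g‖ ≤ C * a₃)
    (hv3 : a₂ / 2 ≤ Real.sqrt n * inner ℝ e (v₃ - v)) (hn3 : Real.sqrt n * ‖v₃ - v‖ ≤ 2 * a₂)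
    (hh3 : Real.sqrt n * ‖g₃ - g‖ ≤ C * a₂)
    {T : Finset ℕ} (hT1 : T ⊆ Finset.Icc 1 n) (hT2 : ∀ t ∈ T, n ≤ 2 * t)
    (ha : 0 < a) (hκ0 : 0 < κ) (hκ1 : κ ≤ 1)
    (hT3 : ∀ t ∈ T, κ ≤ Rp ρ β g n t (Real.sqrt (a * n)))
    (hθ : 0 < θ) (hθT : θ * n ≤ T.card) (hϑ : ϑ = cI * κ ^ 2)
    (hq2 : 768 * (1 + CB / cB) * R ≤ ϑ * a₃ ^ 2) (hK1 : 1 ≤ K)
    (hK2 : 972 * (10 * C ^ 2 * a₃ ^ 4) * R ^ 2 ≤ K * (θ * cB ^ 2 * ϑ ^ 3))
    (hs0 : 1 ≤ s₀) (hs0α : (n : ℝ) ^ α ≤ s₀) (hs1 : 4 * K * s₁ ≤ a * n)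
    (hs1n : 2 * s₁ < n) (hs1θ : 4 * (s₁ : ℝ) ≤ θ * n) (hγ : 0 < γ) (hγ1 : γ ≤ 1) (hE : 0 ≤ E)
    (hka : 1024 * R * (cL + CL) ≤ cL * γ * a₂ ^ 2)
    (hnum : Real.log n + Real.log R + CI - cI * κ ^ 4 / K *
      (θ / 2 / 4 * (Real.log ((s₁ : ℝ) + 1) - Real.log s₀) - 1) ≤ (1 - γ) * Real.log n + E) :
    cL / 2 * Real.exp (-((1 - γ / 2) * Real.log n + 2 * E + 2 / cL)) ≤
      4 * (10 * C ^ 2 * a₂ ^ 4) / (θ * n) := by
  have hn' : (0 : ℝ) < n := by exact_mod_cast hn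
  have hR0 : 0 < R := by linarith
  have hsn := Real.mul_self_sqrt hn'.le
  have hsn0 := Real.sqrt_pos.2 hn'
  have hsR1 : 1 ≤ Real.sqrt R := Real.one_le_sqrt.2 hR
  have ha30 : 0 < a₃ := by linarith
  have ha20 : 0 < a₂ := by linarith
  have hC0 : 0 < C := by linarith
  have hϑ0 : 0 < ϑ := by rw [hϑ]; positivity
  have hϑ1 : ϑ ≤ 1 := by
    rw [hϑ]
    exact mul_le_one₀ hcI1 (by positivity) (pow_le_one₀ hκ0.le hκ1)
  have hαn' : (n : ℝ) ^ α ≤ n := by linarith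
  have hN : (0 : ℝ) < T.card := lt_of_lt_of_le (by positivity) hθT
  have htα : ∀ t ∈ T, 1 ≤ t ∧ t ≤ n ∧ (n : ℝ) ^ α ≤ t ∧ s₁ < t := by
    intro t ht
    obtain ⟨h1, h2⟩ := Finset.mem_Icc.1 (hT1 ht)
    have h3 := hT2 t ht
    have h4 : (n : ℝ) ≤ 2 * t := by exact_mod_cast h3
    exact ⟨h1, h2, by linarith, by omega⟩
  obtain ⟨V₃, hV3⟩ : ∃ V₃ : ℝ, V₃ = 10 * C ^ 2 * a₃ ^ 4 := ⟨_, rfl⟩
  obtain ⟨V₂, hV2⟩ : ∃ V₂ : ℝ, V₂ = 10 * C ^ 2 * a₂ ^ 4 := ⟨_, rfl⟩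
  have hV30 : 0 < V₃ := by rw [hV3]; positivity
  have hV20 : 0 < V₂ := by rw [hV2]; positivity
  rw [← hV3] at hK2
  rw [← hV2]
  set fP : ℕ → ℝ := fun t => ∫ η, ∑ y ∈ boxF 2 n, bw ρ β g g₂ n t cB CB y η ^ 2
    ∂(law 2 ρ) with hfP
  set fM : ℕ → ℝ := fun t => ∫ η, ∑ y ∈ boxF 2 n, aw ρ β g g₃ n t cL CL y η ^ 2
    ∂(law 2 ρ) with hfM
  have hP0 : ∀ t ∈ T, 0 ≤ fP t := fun t _ =>
    integral_nonneg fun η => Finset.sum_nonneg fun y _ => sq_nonneg _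
  have hM0 : ∀ t ∈ T, 0 ≤ fM t := fun t _ =>
    integral_nonneg fun η => Finset.sum_nonneg fun y _ => sq_nonneg _
  have hPs : ∑ t ∈ T, fP t ≤ V₃ := by
    rw [hV3]
    exact (hRl g g₂ n T hT1).trans
      (var42 (by norm_num) hVu he hn hR hαn' hg hg₂ hn2 hh2 ha3)
  have hMs : ∑ t ∈ T, fM t ≤ V₂ := by
    rw [hV2]
    exact (hLo g g₃ n T hT1).trans
      (var42 (by norm_num) hVu he hn hR hαn' hg hg₃ hn3 hh3 ha2)
  have hcP := cntO28 hV30 hP0 hPs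
  have hcM := cntO28 hV20 hM0 hMs
  set T₃ := T.filter fun t => fP t ≤ 4 * V₃ / T.card ∧ fM t ≤ 4 * V₂ / T.card with hT3'
  have hcov : T ⊆ T₃ ∪ ((T.filter fun t => 4 * V₃ / T.card < fP t) ∪
      (T.filter fun t => 4 * V₂ / T.card < fM t)) := by
    intro t ht
    by_cases h1 : fP t ≤ 4 * V₃ / T.card
    · by_cases h2 : fM t ≤ 4 * V₂ / T.card
      · exact Finset.mem_union_left _ (Finset.mem_filter.mpr ⟨ht, h1, h2⟩)
      · exact Finset.mem_union_right _ (Finset.mem_union_right _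
          (Finset.mem_filter.mpr ⟨ht, not_le.mp h2⟩))
    · exact Finset.mem_union_right _ (Finset.mem_union_left _
        (Finset.mem_filter.mpr ⟨ht, not_le.mp h1⟩))
  have hc3 : (T.card : ℝ) / 2 ≤ T₃.card := by
    have h1 : T.card ≤ T₃.card + ((T.filter fun t => 4 * V₃ / T.card < fP t).card +
        (T.filter fun t => 4 * V₂ / T.card < fM t).card) :=
      (Finset.card_le_card hcov).trans ((Finset.card_union_le _ _).trans
        (Nat.add_le_add_left (Finset.card_union_le _ _) _))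
    have h2 : (T.card : ℝ) ≤ T₃.card + (((T.filter fun t => 4 * V₃ / T.card < fP t).card : ℝ) +
        ((T.filter fun t => 4 * V₂ / T.card < fM t).card : ℝ)) := by exact_mod_cast h1
    linarith
  have hT3T : T₃ ⊆ T := Finset.filter_subset _ _
  have hc3' : θ / 2 * n ≤ (T₃.card : ℝ) := by linarith
  have hT3n : T₃.Nonempty := by
    rw [← Finset.card_pos]
    have : (0 : ℝ) < T₃.card := lt_of_lt_of_le (by positivity) hc3'
    exact_mod_cast this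
  obtain ⟨t, ht, hsum⟩ := hSe n s₀ s₁ (θ / 2) T₃ hs0 (by positivity) (hT3T.trans hT1) hT3n hc3'
    (by
      have h1 : ((2 * s₁ : ℕ) : ℝ) ≤ T₃.card := by push_cast; linarith
      exact_mod_cast h1)
  have htT := hT3T ht
  obtain ⟨ht1, ht2, ht3, ht4⟩ := htα t htT
  have hq : 0 < a₃ / (2 * Real.sqrt n) := by positivity
  have hqn : (a₃ / (2 * Real.sqrt n)) ^ 2 * n = a₃ ^ 2 / 4 := by
    rw [div_pow, mul_pow, pow_two (Real.sqrt n), hsn]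
    field_simp
    norm_num
  have hEn := hIn g n t s₀ s₁ T₃ R a κ K hn ht1 ht2 hs0 ht4 hR ha hκ0 hκ1 hK1 hs1
    ⟨(t : ℝ) • v, (hg n t ht1 ht2 le_rfl ht3).trans
      (mul_le_mul_of_nonneg_left (by exact_mod_cast ht2) hR0.le)⟩
    (fun u hu huT => by
      obtain ⟨hu1, hu2⟩ := Finset.mem_Icc.mp hu
      have hut : u < t := lt_of_le_of_lt hu2 ht4
      have h1 := htα (t - u) (hT3T huT)
      have h3 := (Finset.mem_filter.mp huT).2.1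
      have h4 : t - (t - u) = u := by omega
      have h5 : fP (t - u) ≤ 4 * V₃ / (θ * n) := h3.trans
        (div_le_div_of_nonneg_left (by positivity) (by positivity) hθT)
      have h7 : (1 : ℝ) * (a₃ / (2 * Real.sqrt n)) / 4 * n ≤
          |Ft ρ β g e n (t - u) - Ft ρ β g₂ e n (t - u)| := by
        refine le_trans (le_of_eq ?_) (sep42 (by norm_num) he hR0.le hg hg₂ h1.1 h1.2.1 h1.2.2.1
          (hT2 _ (hT3T huT)) hv2 ha3)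
        nth_rewrite 2 [← hsn]
        field_simp
        norm_num
      have h6 := winO28 (n := n) (τ := t - u) (t := t) (c := 1) (q := a₃ / (2 * Real.sqrt n))
        hWi hCo he h1.1 (by omega) ht2 h1.2.2.1
        (by rw [h4]; exact hs0α.trans (by exact_mod_cast hu1)) hR (wo_w042 hg) (wo_w042 hg₂)
        hcB hCB one_pos hq hθ (by linarith) hϑ0 hϑ1 h7 h5
        (by rw [hqn]; linarith) hK2
      rw [h4, hϑ] at h6
      exact h6)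
    (hT3 t htT)
  have hfil : (Finset.Icc s₀ s₁).filter (fun s => s < t ∧ t - s ∈ T₃) =
      (Finset.Icc s₀ s₁).filter (fun s => t - s ∈ T₃) := by
    refine Finset.filter_congr fun u hu => ?_
    have := (Finset.mem_Icc.mp hu).2
    exact ⟨fun h => h.2, fun h => ⟨lt_of_le_of_lt this ht4, h⟩⟩
  rw [hfil] at hsum
  have hEn' : En ρ β g n t (t - 1) ≤ (1 - γ) * Real.log n + E := by
    refine hEn.trans (le_trans ?_ hnum)
    have h1 : 0 ≤ cI * κ ^ 4 / K := by positivity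
    have h2 := mul_le_mul_of_nonneg_left hsum h1
    linarith
  have hLL : 0 ≤ Real.log n := Real.log_nonneg (by exact_mod_cast hn)
  have hk : 0 < a₂ / (4 * Real.sqrt n) := by positivity
  have hkn : (a₂ / (4 * Real.sqrt n)) ^ 2 * n = a₂ ^ 2 / 16 := by
    rw [div_pow, mul_pow, pow_two (Real.sqrt n), hsn]
    field_simp
    norm_num
  have h8 : (1 : ℝ) * (a₂ / (4 * Real.sqrt n)) / 2 * n ≤ |Ft ρ β g e n t - Ft ρ β g₃ e n t| := by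
    refine le_trans (le_of_eq ?_) (sep42 (by norm_num) he hR0.le hg hg₃ ht1 ht2 ht3
      (hT2 _ htT) hv3 ha2)
    nth_rewrite 2 [← hsn]
    field_simp
    norm_num
  have hlow := low45 (c := 1) (k := a₂ / (4 * Real.sqrt n)) (by norm_num) hJe hSt he ht1 ht2 hcL
    hcL1 hCL one_pos hk hγ hγ1 hLL hE
    (ft42 (by norm_num) he hR0.le hg ht1 ht2 ht3).2
    (ft42 (by norm_num) he hR0.le hg₃ ht1 ht2 ht3).2 h8 (by rw [hkn]; linarith) hEn'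
  refine hlow.trans ?_
  have h7 : fM t ≤ 4 * V₂ / T.card := (Finset.mem_filter.mp ht).2.2
  exact h7.trans (div_le_div_of_nonneg_left (by positivity) (by positivity) hθT)

end Pool.Agent.W_7d29a1_SA
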