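import Pool.Agent.W_7d29a1_SA.TopA17
import Pool.Agent.W_7d29a1_S90.Slo52

/-!
Theorem SUPA at every tilt: if the velocity is not a slope of the free energy at the tilt then the
polymer is ballistic around it (helper13, over helper52 and helper17).
-/

namespace Pool.Agent.W_7d29a1_SA

open MeasureTheory ProbabilityTheory Filter Topology Pool.Agent.W_MP_7d29a1_pr
  Pool.Agent.W_7d29a1_h46 Pool.Agent.W_7d29a1_h46u Pool.Agent.W_7d29a1_D2.B35
  Pool.Agent.W_7d29a1_Q29 Pool.Agent.W_7d29a1_S90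

section M

variable {ρ : Measure ℝ} [IsProbabilityMeasure ρ]

lemma phi13 : Tendsto (fun n : ℕ => Real.log n ^ ((1 : ℝ) / 60) * n / (n : ℝ) ^ 2) atTop
    (𝓝 0) := by
  have h1 : (fun x : ℝ => Real.log x ^ ((1 : ℝ) / 60)) =o[atTop] fun x => x ^ (1 : ℝ) :=
    isLittleO_log_rpow_rpow_atTop _ one_pos
  have h2 : Tendsto (fun x : ℝ => Real.log x ^ ((1 : ℝ) / 60) / x ^ (1 : ℝ)) atTop (𝓝 0) :=
    h1.tendsto_div_nhds_zero
  have h3 := h2.comp tendsto_natCast_atTop_atTop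
  refine h3.congr' ?_
  filter_upwards [eventually_ge_atTop 1] with n hn
  have hn0 : (0 : ℝ) < n := by exact_mod_cast hn
  show Real.log n ^ ((1 : ℝ) / 60) / (n : ℝ) ^ (1 : ℝ) = _
  rw [Real.rpow_one]
  field_simp

theorem supAll13 (hρ : EM ρ) (β : ℝ) (hA : SupA ρ β) : ∀ᵐ v : Vec 2, ∀ h : Vec 2, ∀ α : ℝ,
    α < 1 → ∃ᶠ n : ℕ in atTop, ∃ τ t : ℕ, τ < t ∧ t ≤ n ∧ (n : ℝ) ^ α ≤ (t : ℝ) - τ ∧
      Real.log n ^ ((1 : ℝ) / 60) * ((t : ℝ) - τ) <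
        ∫ η, pe β h η (fun s : Fin n → Step 2 => inc τ t (((t : ℝ) - τ) • v) s ^ 2)
          ∂(law 2 ρ) := by
  filter_upwards [hA] with v hv h α hα
  by_cases hs : ∀ w : Vec 2, lam ρ β h + inner ℝ v (w - h) ≤ lam ρ β w
  · exact hv h hs α hα
  have h1 : ¬ ∃ᶠ n : ℕ in atTop, ∫ η, pe β h η (fun s : Fin n → Step 2 =>
      ‖emb (pos s n) - (n : ℝ) • v‖ ^ 2) ∂(law 2 ρ) ≤ Real.log n ^ ((1 : ℝ) / 60) * n :=
    fun h2 => hs fun w => slo52 (by norm_num) hρ β phi13 h2 w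
  rw [not_frequently] at h1
  refine Eventually.frequently ?_
  filter_upwards [h1, eventually_ge_atTop 1] with n hn hn1
  have hn' : (1 : ℝ) ≤ n := by exact_mod_cast hn1
  refine ⟨0, n, by omega, le_rfl, ?_, ?_⟩
  · rw [Nat.cast_zero, sub_zero]
    calc (n : ℝ) ^ α ≤ (n : ℝ) ^ (1 : ℝ) := Real.rpow_le_rpow_of_exponent_le hn' hα.le
      _ = n := Real.rpow_one _
  · have h3 : ∀ s : Fin n → Step 2, inc 0 n (((n : ℝ) - ((0 : ℕ) : ℝ)) • v) s =
        ‖emb (pos s n) - (n : ℝ) • v‖ := by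
      intro s
      unfold inc
      rw [pos_zero73, emb_zero73, sub_zero, Nat.cast_zero, sub_zero]
    simp only [h3]
    rw [Nat.cast_zero, sub_zero]
    exact not_le.1 hn

end M

section Prob

variable {Ω : Type*} [MeasurableSpace Ω] {μ : Measure Ω} [IsProbabilityMeasure μ] {d : ℕ}
  {ρ : Measure ℝ} [IsProbabilityMeasure ρ] {ω : ℕ × Site d → Ω → ℝ} {β : ℝ}

/-- **Superdiffusive windows at almost every velocity and every tilt in dimension two.** -/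
theorem topAll13 (hω : IID μ ρ ω) (hρ : EM ρ) (hA : SupA ρ β) (hd : d = 2) :
    ∀ᵐ v : Vec d, ∀ h : Vec d, ∀ α : ℝ, α < 1 →
      ∃ᶠ n : ℕ in atTop, ∃ τ t : ℕ, τ < t ∧ t ≤ n ∧ (n : ℝ) ^ α ≤ (t : ℝ) - τ ∧
        Real.log n ^ ((1 : ℝ) / 60) * ((t : ℝ) - τ) <
          ∫ x, ∑ s : Fin n → Step d, PolT β h (fun p => ω p x) {s} *
            ‖emb (pos s t) - emb (pos s τ) - ((t : ℝ) - τ) • v‖ ^ 2 ∂μ := by
  subst hd
  filter_upwards [supAll13 hρ β hA] with v hv h α hα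
  refine (hv h α hα).mono fun n hn => ?_
  obtain ⟨τ, t, h1, h2, h3, h4⟩ := hn
  refine ⟨τ, t, h1, h2, h3, ?_⟩
  have h5 := tr17 (β := β) (by norm_num : 0 < 2) hω h
    (fun s : Fin n → Step 2 => inc τ t (((t : ℝ) - τ) • v) s ^ 2)
  unfold inc at h5
  rw [h5]
  exact h4

end Prob

end Pool.Agent.W_7d29a1_SA
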