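import Pool.Agent.W_7d29a1_SA.EndA50
import Pool.Agent.W_7d29a1_SA.HolP13
import Pool.Agent.W_7d29a1_SA.OneC13
import Pool.Agent.W_7d29a1_SA.MainC13
import Pool.Agent.W_7d29a1_SA.SupAll13
import Pool.Agent.W_7d29a1_S90.Plug90
import Pool.Agent.W_7d29a1_S90.KmT71

/-!
THEOREM SUPA: all leaves plugged (helper13).
-/

namespace Pool.Agent.W_7d29a1_SA

open MeasureTheory ProbabilityTheory Filter Topology Pool.Agent.W_MP_7d29a1_pr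
  Pool.Agent.W_7d29a1_h46 Pool.Agent.W_7d29a1_h46u Pool.Agent.W_7d29a1_D2.B35
  Pool.Agent.W_7d29a1_Q29 Pool.Agent.W_7d29a1_S90

section M

variable {ρ : Measure ℝ} [IsProbabilityMeasure ρ]

theorem mainAP13 (hρ : EM ρ) (hnc : ∀ c : ℝ, ρ {c} ≠ 1) {β : ℝ} (hβ : 0 < β) : MainA ρ β :=
  mainA13 (lam_convex two_pos hρ β) (polP13 (oneC13 two_pos β) (kmT71 two_pos β))
    (inK90 hρ hnc hβ) (loV90 two_pos hρ hnc hβ) (stM86 two_pos β) jeT41 (vuT31 two_pos hρ β)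

/-- **THEOREM SUPA** for slopes. -/
theorem supA13 (hρ : EM ρ) (hnc : ∀ c : ℝ, ρ {c} ≠ 1) {β : ℝ} (hβ : 0 < β) : SupA ρ β :=
  endA50 hρ β holP13 (mainAP13 hρ hnc hβ)

end M

section Prob

variable {Ω : Type*} [MeasurableSpace Ω] {μ : Measure Ω} [IsProbabilityMeasure μ] {d : ℕ}
  {ρ : Measure ℝ} [IsProbabilityMeasure ρ] {ω : ℕ × Site d → Ω → ℝ} {β : ℝ}

/-- **THEOREM SUPA**: superdiffusive windows at almost every velocity and every tilt in dimension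
two. -/
theorem topA13 (hω : IID μ ρ ω) (hρ : EM ρ) (hnc : ∀ c : ℝ, ρ {c} ≠ 1) (hβ : 0 < β)
    (hd : d = 2) :
    ∀ᵐ v : Vec d, ∀ h : Vec d, ∀ α : ℝ, α < 1 →
      ∃ᶠ n : ℕ in atTop, ∃ τ t : ℕ, τ < t ∧ t ≤ n ∧ (n : ℝ) ^ α ≤ (t : ℝ) - τ ∧
        Real.log n ^ ((1 : ℝ) / 60) * ((t : ℝ) - τ) <
          ∫ x, ∑ s : Fin n → Step d, PolT β h (fun p => ω p x) {s} *
            ‖emb (pos s t) - emb (pos s τ) - ((t : ℝ) - τ) • v‖ ^ 2 ∂μ :=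
  topAll13 hω hρ (supA13 hρ hnc hβ) hd

end Prob

end Pool.Agent.W_7d29a1_SA
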