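import Pool.Agent.W_7d29a1_SA.DefsA13
import Pool.Agent.W_7d29a1_S90.TopP17

/-!
Theorem SUPA for an arbitrary probability space.
-/

namespace Pool.Agent.W_7d29a1_SA

open MeasureTheory ProbabilityTheory Filter Topology Pool.Agent.W_MP_7d29a1_pr
  Pool.Agent.W_7d29a1_h46 Pool.Agent.W_7d29a1_h46u Pool.Agent.W_7d29a1_D2.B35
  Pool.Agent.W_7d29a1_Q29 Pool.Agent.W_7d29a1_S90

variable {Ω : Type*} [MeasurableSpace Ω] {μ : Measure Ω} [IsProbabilityMeasure μ] {d : ℕ}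
  {ρ : Measure ℝ} [IsProbabilityMeasure ρ] {ω : ℕ × Site d → Ω → ℝ} {β : ℝ}

/-- **Superdiffusive windows at almost every velocity in dimension two**, from `SupA`; `L` is the
normalised free energy. -/
theorem topA17 (hω : IID μ ρ ω) (hA : SupA ρ β) (hd : d = 2) {L : Vec d → ℝ} {c : ℝ}
    (hL : ∀ h, L h = lam ρ β h - c) :
    ∀ᵐ v : Vec d, ∀ h : Vec d, (∀ w : Vec d, L h + inner ℝ v (w - h) ≤ L w) → ∀ α : ℝ, α < 1 →
      ∃ᶠ n : ℕ in atTop, ∃ τ t : ℕ, τ < t ∧ t ≤ n ∧ (n : ℝ) ^ α ≤ (t : ℝ) - τ ∧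
        Real.log n ^ ((1 : ℝ) / 60) * ((t : ℝ) - τ) <
          ∫ x, ∑ s : Fin n → Step d, PolT β h (fun p => ω p x) {s} *
            ‖emb (pos s t) - emb (pos s τ) - ((t : ℝ) - τ) • v‖ ^ 2 ∂μ := by
  subst hd
  filter_upwards [hA] with v hv h hh α hα
  have hs : ∀ w : Vec 2, lam ρ β h + inner ℝ v (w - h) ≤ lam ρ β w := by
    intro w
    have h1 := hh w
    rw [hL, hL] at h1
    linarith
  refine (hv h hs α hα).mono fun n hn => ?_
  obtain ⟨τ, t, h1, h2, h3, h4⟩ := hn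
  refine ⟨τ, t, h1, h2, h3, ?_⟩
  have h5 := tr17 (β := β) (by norm_num : 0 < 2) hω h
    (fun s : Fin n → Step 2 => inc τ t (((t : ℝ) - τ) • v) s ^ 2)
  unfold inc at h5
  rw [h5]
  exact h4

end Pool.Agent.W_7d29a1_SA
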