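import Pool.Agent.W_7d29a1_SA.StepOA42

/-!
Theorem ORIA: the numbers (helper42).
-/

namespace Pool.Agent.W_7d29a1_SA

open MeasureTheory ProbabilityTheory Filter Topology Pool.Agent.W_MP_7d29a1_pr
  Pool.Agent.W_7d29a1_h46 Pool.Agent.W_7d29a1_h46u Pool.Agent.W_7d29a1_D2.B35
  Pool.Agent.W_7d29a1_Q29 Pool.Agent.W_7d29a1_S90

/-- The final contradiction. -/
lemma fin42 {c₁ : ℝ} (hc : 0 < c₁) (B : ℝ) : ∃ R₀ : ℝ, ∀ R : ℝ, R₀ ≤ R → 1 ≤ R →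
    B + 142 * Real.log R < c₁ / 2 * R ^ 162 := by
  refine ⟨(2 * |B| + 286) / c₁ + 1, fun R hR hR1 => ?_⟩
  have h1 : (2 * |B| + 286) / c₁ < R := by linarith
  rw [div_lt_iff₀ hc] at h1
  have h2 : Real.log R ≤ R := by
    have := Real.log_le_sub_one_of_pos (show 0 < R by linarith)
    linarith
  have h3 : R * R ≤ R ^ 162 := by
    rw [← pow_two]
    exact pow_le_pow_right₀ hR1 (by norm_num)
  have h4 : |B| + 143 * R < c₁ / 2 * (R * R) := by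
    have h5 : |B| ≤ |B| * R := le_mul_of_one_le_right (abs_nonneg B) hR1
    have h6 := mul_lt_mul_of_pos_right h1 (show 0 < R by linarith)
    have h7 : (2 * |B| + 286) * R = 2 * (|B| * R) + 286 * R := by ring
    have h8 : R * c₁ * R = 2 * (c₁ / 2 * (R * R)) := by ring
    rw [h7, h8] at h6
    linarith
  have h5 : c₁ / 2 * (R * R) ≤ c₁ / 2 * R ^ 162 := mul_le_mul_of_nonneg_left h3 (by positivity)
  have h6 := le_abs_self B
  linarith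

/-- The loss of information. -/
lemma loss42 {cI κ Λ R L CI ν α' S s₀ γ : ℝ} (hcI : 0 < cI) (hcI1 : cI ≤ 1) (hκ : 0 < κ)
    (hκ1 : κ ≤ 1) (hΛ : 1 ≤ Λ) (hR : 1 ≤ R)
    (hS : L + Real.log ν - 29 * Real.log R ≤ Real.log S)
    (hs₀ : Real.log s₀ ≤ α' * L + 1)
    (hγ : γ = cI * κ ^ 5 * (1 - α') / (8 * Λ) / R ^ 38) :
    L + Real.log R + CI - cI * (κ / R ^ 2) ^ 4 / (Λ * R ^ 28) *
      (κ / R ^ 2 / 2 / 4 * (Real.log S - Real.log s₀) - 1) ≤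
        (1 - γ) * L + (30 * Real.log R + CI + |Real.log ν| + 2) := by
  have hR0 : 0 < R := by linarith
  have hlR : 0 ≤ Real.log R := Real.log_nonneg hR
  have hΛ0 : 0 < Λ := by linarith
  obtain ⟨P, hP⟩ : ∃ P : ℝ, P = cI * κ ^ 5 / (8 * Λ) / R ^ 38 := ⟨_, rfl⟩
  obtain ⟨Q, hQ⟩ : ∃ Q : ℝ, Q = cI * κ ^ 4 / Λ / R ^ 36 := ⟨_, rfl⟩
  have e1 : cI * (κ / R ^ 2) ^ 4 / (Λ * R ^ 28) = Q := by
    rw [hQ]
    field_simp
  have e2 : Q * (κ / R ^ 2 / 2 / 4) = P := by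
    rw [hQ, hP]
    field_simp
    norm_num
  have e3 : γ = P * (1 - α') := by
    rw [hγ, hP]
    field_simp
  have hP0 : 0 ≤ P := by rw [hP]; positivity
  have hQ0 : 0 ≤ Q := by rw [hQ]; positivity
  have hQ1 : Q ≤ 1 := by
    rw [hQ, div_div, div_le_one (by positivity)]
    have h1 : cI * κ ^ 4 ≤ 1 := mul_le_one₀ hcI1 (by positivity) (pow_le_one₀ hκ.le hκ1)
    exact h1.trans (one_le_mul_of_one_le_of_one_le hΛ (one_le_pow₀ hR))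
  have hP1 : P ≤ 1 := by
    rw [hP, div_div, div_le_one (by positivity)]
    have h1 : cI * κ ^ 5 ≤ 1 := mul_le_one₀ hcI1 (by positivity) (pow_le_one₀ hκ.le hκ1)
    exact h1.trans (one_le_mul_of_one_le_of_one_le (by linarith) (one_le_pow₀ hR))
  have h1 : Q * (κ / R ^ 2 / 2 / 4 * (Real.log S - Real.log s₀) - 1) =
      P * (Real.log S - Real.log s₀) - Q := by
    rw [mul_sub, ← mul_assoc, e2, mul_one]
  rw [e1, h1, e3]
  have h2 : (1 - α') * L - |Real.log ν| - 29 * Real.log R - 1 ≤ Real.log S - Real.log s₀ := by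
    have := neg_abs_le (Real.log ν)
    linarith
  have h3 := mul_le_mul_of_nonneg_left h2 hP0
  have h4 : P * (|Real.log ν| + 29 * Real.log R + 1) ≤ |Real.log ν| + 29 * Real.log R + 1 := by
    have h5 : 0 ≤ |Real.log ν| + 29 * Real.log R + 1 := by
      have := abs_nonneg (Real.log ν)
      linarith
    exact mul_le_of_le_one_left h5 hP1
  have e5 : P * ((1 - α') * L - |Real.log ν| - 29 * Real.log R - 1) =
      P * (1 - α') * L - P * (|Real.log ν| + 29 * Real.log R + 1) := by ring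
  have e6 : (1 - P * (1 - α')) * L = L - P * (1 - α') * L := by ring
  rw [e5] at h3
  rw [e6]
  linarith

/-- The contradiction at a vertex with two partners. -/
theorem vertOA42 {ρ : Measure ℝ} {β : ℝ} [IsProbabilityMeasure ρ] (hCo : CsO 2 ρ β)
    (hSt : StM 2 ρ β) (hVu : VuT 2 ρ β) (hJe : JeT) (hWi : WiT 2 ρ β) (hSe : SeT)
    (hRl : RlV 2 ρ β) (hLo : LoV 2 ρ β) (hIn : InO ρ β) {α a κ C M : ℝ} (hα : α < 1) (ha : 0 < a)
    (hκ0 : 0 < κ) (hκ1 : κ ≤ 1) (hC : 1 ≤ C) :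
    ∃ A₂ A₃ R₀ : ℝ, M ≤ A₂ ∧ M ≤ A₃ ∧ 16 ≤ A₂ ∧ 16 ≤ A₃ ∧
      ∀ (n : ℕ) (R : ℝ) (g v g₂ v₂ g₃ v₃ e : Vec 2) (T : Finset ℕ), 1 ≤ n → 1 ≤ R → R₀ ≤ R →
        Real.log n = R ^ 200 → (n : ℝ) ^ α ≤ n / 2 → ‖e‖ = 1 →
        WO ρ β g v n α R → WO ρ β g₂ v₂ n α R → WO ρ β g₃ v₃ n α R →
        A₃ * R ^ 3 / 2 ≤ Real.sqrt n * inner ℝ e (v₂ - v) →
        Real.sqrt n * ‖v₂ - v‖ ≤ 2 * (A₃ * R ^ 3) → Real.sqrt n * ‖g₂ - g‖ ≤ C * (A₃ * R ^ 3) →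
        A₂ * R ^ 20 / 2 ≤ Real.sqrt n * inner ℝ e (v₃ - v) →
        Real.sqrt n * ‖v₃ - v‖ ≤ 2 * (A₂ * R ^ 20) → Real.sqrt n * ‖g₃ - g‖ ≤ C * (A₂ * R ^ 20) →
        T ⊆ Finset.Icc 1 n → (∀ t ∈ T, n ≤ 2 * t ∧
          κ / R ^ 2 ≤ Rp ρ β g n t (Real.sqrt (a / R * n))) → κ / R ^ 2 * n ≤ (T.card : ℝ) →
        False := by
  obtain ⟨cB, CB, hcB, hcB1, hCB, hRl⟩ := hRl
  obtain ⟨cL, CL, hcL, hcL1, hCL, hLo⟩ := hLo
  obtain ⟨cI, CI, hcI, hcI1, hCI, hIn⟩ := hIn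
  have hC0 : 0 < C := by linarith
  obtain ⟨α', hα'⟩ : ∃ α' : ℝ, α' = max α (1 / 2) := ⟨_, rfl⟩
  have hαα : α ≤ α' := by rw [hα']; exact le_max_left _ _
  have hα2 : 1 / 2 ≤ α' := by rw [hα']; exact le_max_right _ _
  have hα1 : α' < 1 := by rw [hα']; exact max_lt hα (by norm_num)
  -- the constants
  obtain ⟨A₃, hA3⟩ : ∃ A₃ : ℝ, A₃ = |M| + 16 + 768 * (1 + CB / cB) / (cI * κ ^ 2) := ⟨_, rfl⟩
  have hCBn : 0 ≤ CB / cB := div_nonneg hCB hcB.le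
  have hA3a : 0 ≤ 768 * (1 + CB / cB) / (cI * κ ^ 2) := by positivity
  have hA3M : M ≤ A₃ := by
    rw [hA3]
    have := le_abs_self M
    linarith
  have hA316 : 16 ≤ A₃ := by
    rw [hA3]
    have := abs_nonneg M
    linarith
  have hA30 : 0 < A₃ := by linarith
  have hA3c : 768 * (1 + CB / cB) ≤ cI * κ ^ 2 * A₃ ^ 2 := by
    have h1 : 768 * (1 + CB / cB) / (cI * κ ^ 2) ≤ A₃ := by
      rw [hA3]
      have := abs_nonneg M
      linarith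
    rw [div_le_iff₀ (by positivity)] at h1
    have h2 : A₃ ≤ A₃ ^ 2 := le_self_pow₀ (by linarith) (by norm_num)
    have h3 : 0 ≤ cI * κ ^ 2 := by positivity
    calc 768 * (1 + CB / cB) ≤ A₃ * (cI * κ ^ 2) := h1
      _ ≤ A₃ ^ 2 * (cI * κ ^ 2) := mul_le_mul_of_nonneg_right h2 h3
      _ = cI * κ ^ 2 * A₃ ^ 2 := by ring
  obtain ⟨Λ, hΛ⟩ : ∃ Λ : ℝ, Λ = 1 + 9720 * C ^ 2 * A₃ ^ 4 / (κ ^ 7 * cB ^ 2 * cI ^ 3) := ⟨_, rfl⟩
  have hΛa : 0 ≤ 9720 * C ^ 2 * A₃ ^ 4 / (κ ^ 7 * cB ^ 2 * cI ^ 3) := by positivity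
  have hΛ1 : 1 ≤ Λ := by rw [hΛ]; linarith
  have hΛ0 : 0 < Λ := by linarith
  have hΛc : 9720 * C ^ 2 * A₃ ^ 4 ≤ Λ * (κ ^ 7 * cB ^ 2 * cI ^ 3) := by
    have h1 : 9720 * C ^ 2 * A₃ ^ 4 / (κ ^ 7 * cB ^ 2 * cI ^ 3) ≤ Λ := by rw [hΛ]; linarith
    rwa [div_le_iff₀ (by positivity)] at h1
  obtain ⟨c₁, hc₁⟩ : ∃ c₁ : ℝ, c₁ = cI * κ ^ 5 * (1 - α') / (8 * Λ) := ⟨_, rfl⟩
  have h1α : 0 < 1 - α' := by linarith
  have hc10 : 0 < c₁ := by rw [hc₁]; positivity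
  have hc11 : c₁ ≤ 1 := by
    rw [hc₁, div_le_one (by positivity)]
    have h1 : cI * κ ^ 5 ≤ 1 := mul_le_one₀ hcI1 (by positivity) (pow_le_one₀ hκ0.le hκ1)
    have h2 : cI * κ ^ 5 * (1 - α') ≤ 1 := mul_le_one₀ h1 h1α.le (by linarith)
    linarith
  obtain ⟨A₂, hA2⟩ : ∃ A₂ : ℝ, A₂ = |M| + 16 + 1024 * (cL + CL) / (cL * c₁) := ⟨_, rfl⟩
  have hA2a : 0 ≤ 1024 * (cL + CL) / (cL * c₁) := by positivity
  have hA2M : M ≤ A₂ := by
    rw [hA2]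
    have := le_abs_self M
    linarith
  have hA216 : 16 ≤ A₂ := by
    rw [hA2]
    have := abs_nonneg M
    linarith
  have hA20 : 0 < A₂ := by linarith
  have hA2c : 1024 * (cL + CL) ≤ cL * c₁ * A₂ ^ 2 := by
    have h1 : 1024 * (cL + CL) / (cL * c₁) ≤ A₂ := by
      rw [hA2]
      have := abs_nonneg M
      linarith
    rw [div_le_iff₀ (by positivity)] at h1
    have h2 : A₂ ≤ A₂ ^ 2 := le_self_pow₀ (by linarith) (by norm_num)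
    have h3 : 0 ≤ cL * c₁ := by positivity
    calc 1024 * (cL + CL) ≤ A₂ * (cL * c₁) := h1
      _ ≤ A₂ ^ 2 * (cL * c₁) := mul_le_mul_of_nonneg_right h2 h3
      _ = cL * c₁ * A₂ ^ 2 := by ring
  obtain ⟨ν, hν⟩ : ∃ ν : ℝ, ν = min (min (a / (4 * Λ)) (κ / 4)) (1 / 4) := ⟨_, rfl⟩
  have hν0 : 0 < ν := by
    rw [hν]
    exact lt_min (lt_min (by positivity) (by positivity)) (by norm_num)
  have hν1 : ν ≤ a / (4 * Λ) := by rw [hν]; exact (min_le_left _ _).trans (min_le_left _ _)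
  have hν2 : ν ≤ κ / 4 := by rw [hν]; exact (min_le_left _ _).trans (min_le_right _ _)
  have hν3 : ν ≤ 1 / 4 := by rw [hν]; exact min_le_right _ _
  obtain ⟨B, hB⟩ : ∃ B : ℝ, B = Real.log (40 * C ^ 2 * A₂ ^ 4 / κ) - Real.log (cL / 2) +
    2 * (CI + |Real.log ν| + 2) + 2 / cL := ⟨_, rfl⟩
  obtain ⟨R₀, hR₀⟩ := fin42 hc10 B
  refine ⟨A₂, A₃, R₀, hA2M, hA3M, hA216, hA316, ?_⟩
  intro n R g v g₂ v₂ g₃ v₃ e T hn hR hRR hlog hαn he hg hg₂ hg₃ hv2 hn2 hh2 hv3 hn3 hh3 hT1 hT2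
    hcard
  have hn' : (0 : ℝ) < n := by exact_mod_cast hn
  have hn1 : (1 : ℝ) ≤ n := by exact_mod_cast hn
  have hR0 : 0 < R := by linarith
  have hsR : Real.sqrt R ≤ R := by
    rw [Real.sqrt_le_left hR0.le]
    exact le_self_pow₀ hR (by norm_num)
  have hp : ∀ k : ℕ, 1 ≤ R ^ k := fun k => one_le_pow₀ hR
  have ha3 : 16 * Real.sqrt R ≤ A₃ * R ^ 3 := by
    have h1 : R ≤ R ^ 3 := le_self_pow₀ hR (by norm_num)
    have h2 : 16 * R ≤ A₃ * R ^ 3 := mul_le_mul hA316 h1 hR0.le hA30.le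
    linarith
  have ha2 : 16 * Real.sqrt R ≤ A₂ * R ^ 20 := by
    have h1 : R ≤ R ^ 20 := le_self_pow₀ hR (by norm_num)
    have h2 : 16 * R ≤ A₂ * R ^ 20 := mul_le_mul hA216 h1 hR0.le hA20.le
    linarith
  -- the times
  obtain ⟨s₀, hs₀⟩ : ∃ s₀ : ℕ, s₀ = ⌈(n : ℝ) ^ α'⌉₊ := ⟨_, rfl⟩
  obtain ⟨s₁, hs₁⟩ : ∃ s₁ : ℕ, s₁ = ⌊ν * n / R ^ 29⌋₊ := ⟨_, rfl⟩
  have hnα : 1 ≤ (n : ℝ) ^ α' := Real.one_le_rpow hn1 (by linarith)
  have hs₀1 : (n : ℝ) ^ α' ≤ s₀ := by rw [hs₀]; exact Nat.le_ceil _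
  have hs₀2 : (s₀ : ℝ) ≤ 2 * (n : ℝ) ^ α' := by
    rw [hs₀]
    have := Nat.ceil_lt_add_one (show 0 ≤ (n : ℝ) ^ α' by linarith)
    linarith
  have hs₀n : 1 ≤ s₀ := by
    have : (1 : ℝ) ≤ s₀ := hnα.trans hs₀1
    exact_mod_cast this
  have hs₀α : (n : ℝ) ^ α ≤ s₀ := (Real.rpow_le_rpow_of_exponent_le hn1 hαα).trans hs₀1
  have hs₁1 : (s₁ : ℝ) ≤ ν * n / R ^ 29 := by
    rw [hs₁]
    exact Nat.floor_le (by positivity)
  have hs₁2 : ν * n / R ^ 29 < (s₁ : ℝ) + 1 := by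
    rw [hs₁]
    exact Nat.lt_floor_add_one _
  have hR29 := hp 29
  have hs₁3 : (s₁ : ℝ) ≤ ν * n := by
    refine hs₁1.trans (div_le_self (by positivity) hR29)
  have hlogS : Real.log n + Real.log ν - 29 * Real.log R ≤ Real.log ((s₁ : ℝ) + 1) := by
    have h1 := Real.log_le_log (by positivity) hs₁2.le
    rw [Real.log_div (by positivity) (by positivity), Real.log_mul hν0.ne' hn'.ne',
      Real.log_pow] at h1
    push_cast at h1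
    linarith
  have hlogs : Real.log s₀ ≤ α' * Real.log n + 1 := by
    have h0 : (0 : ℝ) < s₀ := by exact_mod_cast hs₀n
    have h1 := Real.log_le_log h0 hs₀2
    rw [Real.log_mul (by norm_num) (by positivity), Real.log_rpow hn'] at h1
    have h2 : Real.log 2 ≤ 1 := by
      have := Real.log_two_lt_d9
      linarith
    linarith
  obtain ⟨γ, hγ⟩ : ∃ γ : ℝ, γ = cI * κ ^ 5 * (1 - α') / (8 * Λ) / R ^ 38 := ⟨_, rfl⟩
  have hγ' : γ = c₁ / R ^ 38 := by rw [hγ, hc₁]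
  have hγ0 : 0 < γ := by rw [hγ']; positivity
  have hγ1 : γ ≤ 1 := by
    rw [hγ', div_le_one (by positivity)]
    exact hc11.trans (hp 38)
  have hE0 : 0 ≤ 30 * Real.log R + CI + |Real.log ν| + 2 := by
    have := Real.log_nonneg hR
    have := abs_nonneg (Real.log ν)
    linarith
  have hκR0 : 0 < κ / R ^ 2 := by positivity
  have hκR1 : κ / R ^ 2 ≤ 1 := by
    rw [div_le_one (by positivity)]
    exact hκ1.trans (hp 2)
  have hfinal := stepOA42 (ρ := ρ) (β := β) hCo hSt hVu hJe hWi hSe hcB hCB hRl hcL hcL1 hCL hLo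
    hcI hcI1 hIn he (n := n) (α := α) (R := R) (a := a / R) (θ := κ / R ^ 2) (κ := κ / R ^ 2)
    (ϑ := cI * (κ / R ^ 2) ^ 2) (K := Λ * R ^ 28) (C := C) (a₂ := A₂ * R ^ 20)
    (a₃ := A₃ * R ^ 3) (γ := γ) (E := 30 * Real.log R + CI + |Real.log ν| + 2) (s₀ := s₀)
    (s₁ := s₁) hn hαn hR hg hg₂ hg₃ ha3 ha2 hC hv2 hn2 hh2 hv3 hn3 hh3 hT1
    (fun t ht => (hT2 t ht).1) (by positivity) hκR0 hκR1 (fun t ht => (hT2 t ht).2) hκR0 hcard rfl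
    ?_ ?_ ?_ hs₀n hs₀α ?_ ?_ ?_ hγ0 hγ1 hE0 ?_
    (loss42 hcI hcI1 hκ0 hκ1 hΛ1 hR hlogS hlogs hγ)
  · -- the contradiction
    have h1 : 0 < cL / 2 := by positivity
    have h2 := Real.log_le_log (by positivity) hfinal
    rw [Real.log_mul h1.ne' (Real.exp_pos _).ne', Real.log_exp] at h2
    have e1 : 4 * (10 * C ^ 2 * (A₂ * R ^ 20) ^ 4) / (κ / R ^ 2 * n) =
        40 * C ^ 2 * A₂ ^ 4 / κ * R ^ 82 / n := by
      field_simp
      ring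
    rw [e1, Real.log_div (by positivity) hn'.ne', Real.log_mul (by positivity) (by positivity),
      Real.log_pow] at h2
    push_cast at h2
    have h3 : γ / 2 * Real.log n = c₁ / 2 * R ^ 162 := by
      rw [hγ', hlog]
      field_simp
    have h4 := hR₀ R hRR hR
    rw [hB] at h4
    have h5 : (1 - γ / 2) * Real.log n = Real.log n - γ / 2 * Real.log n := by ring
    rw [h5, h3] at h2
    linarith
  · -- hq2
    have e1 : cI * (κ / R ^ 2) ^ 2 * (A₃ * R ^ 3) ^ 2 = cI * κ ^ 2 * A₃ ^ 2 * R ^ 2 := by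
      field_simp
    rw [e1]
    have h1 : R ≤ R ^ 2 := le_self_pow₀ hR (by norm_num)
    calc 768 * (1 + CB / cB) * R ≤ cI * κ ^ 2 * A₃ ^ 2 * R :=
          mul_le_mul_of_nonneg_right hA3c hR0.le
      _ ≤ cI * κ ^ 2 * A₃ ^ 2 * R ^ 2 := mul_le_mul_of_nonneg_left h1 (by positivity)
  · -- 1 ≤ K
    exact one_le_mul_of_one_le_of_one_le hΛ1 (hp 28)
  · -- hK2
    have e1 : Λ * R ^ 28 * (κ / R ^ 2 * cB ^ 2 * (cI * (κ / R ^ 2) ^ 2) ^ 3) =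
        Λ * (κ ^ 7 * cB ^ 2 * cI ^ 3) * R ^ 14 := by
      field_simp
    have e2 : 972 * (10 * C ^ 2 * (A₃ * R ^ 3) ^ 4) * R ^ 2 =
        9720 * C ^ 2 * A₃ ^ 4 * R ^ 14 := by ring
    rw [e1, e2]
    exact mul_le_mul_of_nonneg_right hΛc (by positivity)
  · -- 4 K s₁ ≤ a n
    have h1 : 4 * (Λ * R ^ 28) * (s₁ : ℝ) ≤ 4 * (Λ * R ^ 28) * (ν * n / R ^ 29) :=
      mul_le_mul_of_nonneg_left hs₁1 (by positivity)
    refine h1.trans ?_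
    have e1 : 4 * (Λ * R ^ 28) * (ν * n / R ^ 29) = ν * (4 * Λ) / R * n := by
      field_simp
    rw [e1]
    have h2 : ν * (4 * Λ) ≤ a := by
      rwa [le_div_iff₀ (by positivity)] at hν1
    gcongr
  · -- 2 s₁ < n
    have h2 := mul_le_mul_of_nonneg_right hν3 hn'.le
    have h1 : 2 * (s₁ : ℝ) < n := by linarith
    exact_mod_cast h1
  · -- 4 s₁ ≤ θ n
    have h2 : (s₁ : ℝ) ≤ ν * n / R ^ 2 := by
      refine hs₁1.trans ?_
      have : R ^ 2 ≤ R ^ 29 := pow_le_pow_right₀ hR (by norm_num)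
      gcongr
    have h3 : ν * n / R ^ 2 ≤ κ / 4 * n / R ^ 2 := by gcongr
    have h4 : 4 * (κ / 4 * n / R ^ 2) = κ / R ^ 2 * n := by
      field_simp
    linarith
  · -- hka
    have e1 : cL * γ * (A₂ * R ^ 20) ^ 2 = cL * c₁ * A₂ ^ 2 * R ^ 2 := by
      rw [hγ']
      field_simp
    rw [e1]
    have h1 : R ≤ R ^ 2 := le_self_pow₀ hR (by norm_num)
    calc 1024 * R * (cL + CL) = 1024 * (cL + CL) * R := by ring
      _ ≤ cL * c₁ * A₂ ^ 2 * R := mul_le_mul_of_nonneg_right hA2c hR0.le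
      _ ≤ cL * c₁ * A₂ ^ 2 * R ^ 2 := mul_le_mul_of_nonneg_left h1 (by positivity)

end Pool.Agent.W_7d29a1_SA
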